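import Pool.Agent.Helper34.Str.Poly

/-!
# Artin's theorem: algebraically dependent additive maps satisfy an additive relation
-/

set_option autoImplicit false
set_option linter.unusedSectionVars false
set_option linter.style.haveILetI false

namespace Pool.Agent.Helper34.Str

open MvPolynomial

section translate

variable {σ E : Type*} [Field E]

/-- translation -/
noncomputable def tr (u : σ → E) : MvPolynomial σ E →ₐ[E] MvPolynomial σ E :=
  MvPolynomial.aeval (fun i => X i + C (u i))

theorem eval_tr (u v : σ → E) (P : MvPolynomial σ E) : eval v (tr u P) = eval (v + u) P := by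
  induction P using MvPolynomial.induction_on with
  | C a => simp [tr]
  | add P Q hP hQ => rw [map_add, map_add, map_add, hP, hQ]
  | mul_X P i hP => rw [map_mul, map_mul, map_mul, hP]; simp [tr]

theorem tr_monomial (u : σ → E) (s : σ →₀ ℕ) :
    (tr u (monomial s 1) - monomial s 1).totalDegree ≤ (s.sum fun _ e => e) - 1 ∧
      ((s.sum fun _ e => e) = 0 → tr u (monomial s 1) - monomial s 1 = 0) := by
  classical
  induction hn : (s.sum fun _ e => e) generalizing s with
  | zero =>
    have hs : s = 0 := by
      rw [Finsupp.sum] at hn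
      ext i
      by_cases hi : i ∈ s.support
      · exact (Finset.sum_eq_zero_iff.1 hn) i hi
      · simpa using hi
    subst hs
    have h1 : tr u (monomial 0 1) - monomial 0 1 = 0 := by
      have : (monomial (0 : σ →₀ ℕ) (1 : E)) = 1 := rfl
      rw [this, map_one, sub_self]
    exact ⟨by rw [h1]; simp, fun _ => h1⟩
  | succ n ih =>
    have hs : s ≠ 0 := by
      rintro rfl
      simp at hn
    obtain ⟨i, hi⟩ : ∃ i, s i ≠ 0 := by
      by_contra hcon
      push Not at hcon
      exact hs (Finsupp.ext hcon)
    obtain ⟨t, rfl⟩ : ∃ t, s = t + Finsupp.single i 1 := by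
      refine ⟨s - Finsupp.single i 1, ?_⟩
      ext j
      by_cases hj : j = i
      · subst hj
        simp
        omega
      · simp [Ne.symm hj]
    have hsum : ((t + Finsupp.single i 1 : σ →₀ ℕ).sum fun _ e => e) = (t.sum fun _ e => e) + 1 := by
      rw [Finsupp.sum_add_index' (fun _ => rfl) (fun _ _ _ => rfl), Finsupp.sum_single_index rfl]
    rw [hsum] at hn
    have hn' : (t.sum fun _ e => e) = n := by omega
    obtain ⟨h1, h2⟩ := ih t hn'
    have hmul : (monomial (t + Finsupp.single i 1) (1 : E)) = monomial t 1 * X i := by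
      rw [X, monomial_mul, one_mul]
    have heq : tr u (monomial (t + Finsupp.single i 1) 1) - monomial (t + Finsupp.single i 1) 1 =
        (tr u (monomial t 1) - monomial t 1) * (X i + C (u i)) + C (u i) * monomial t 1 := by
      rw [hmul, map_mul]
      have : tr u (X i) = X i + C (u i) := by simp [tr]
      rw [this]
      ring
    refine ⟨?_, fun h => by omega⟩
    rw [heq]
    have hXC : (X i + C (u i) : MvPolynomial σ E).totalDegree ≤ 1 := by
      refine (totalDegree_add _ _).trans (max_le ?_ ?_)
      · rw [totalDegree_X]
      · rw [totalDegree_C]; omega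
    have hCm : (C (u i) * monomial t 1 : MvPolynomial σ E).totalDegree ≤ n := by
      refine (totalDegree_mul _ _).trans ?_
      rw [totalDegree_C, zero_add]
      exact (totalDegree_monomial_le _ _).trans (le_of_eq hn')
    refine (totalDegree_add _ _).trans (max_le ?_ (by omega))
    rcases Nat.eq_zero_or_pos n with h0 | h0
    · rw [h2 h0, zero_mul, totalDegree_zero]; omega
    · refine (totalDegree_mul _ _).trans ?_
      omega

theorem tr_totalDegree (u : σ → E) (P : MvPolynomial σ E) (n : ℕ) (hn : P.totalDegree ≤ n) :
    (tr u P - P).totalDegree ≤ n - 1 ∧ (n = 0 → tr u P - P = 0) := by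
  classical
  have hP : tr u P - P = ∑ s ∈ P.support, C (P.coeff s) * (tr u (monomial s 1) - monomial s 1) := by
    conv_lhs => rw [P.as_sum]
    rw [map_sum, ← Finset.sum_sub_distrib]
    refine Finset.sum_congr rfl fun s _ => ?_
    have : (monomial s (P.coeff s)) = C (P.coeff s) * monomial s 1 := by
      rw [C_mul_monomial, mul_one]
    rw [this, map_mul, mul_sub]
    congr 2
    simp [tr]
  have hdeg : ∀ s ∈ P.support, (s.sum fun _ e => e) ≤ n := fun s hs => (le_totalDegree hs).trans hn
  rw [hP]
  refine ⟨?_, ?_⟩
  · refine totalDegree_finsetSum_le fun s hs => ?_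
    refine (totalDegree_mul _ _).trans ?_
    rw [totalDegree_C, zero_add]
    refine (tr_monomial u s).1.trans ?_
    have := hdeg s hs
    omega
  · intro h0
    refine Finset.sum_eq_zero fun s hs => ?_
    rw [(tr_monomial u s).2 (by have := hdeg s hs; omega), mul_zero]

end translate

section artin

variable (p : ℕ) [hp : Fact p.Prime] {σ E W : Type*} [Fintype σ] [Field E] [CharP E p]
  [IsAlgClosed E] [AddCommGroup W]

/-- **Artin's theorem** -/
theorem artin (b : σ → (W →+ E)) (P : MvPolynomial σ E) (hP : P ≠ 0)
    (h : ∀ w, eval (fun i => b i w) P = 0) :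
    ∃ β : σ → Polynomial E, (∀ i, AddP p (β i)) ∧ (∃ i, β i ≠ 0) ∧
      ∀ w, ∑ i, (β i).eval (b i w) = 0 := by
  classical
  haveI : Infinite E := IsAlgClosed.instInfinite
  -- minimal degree
  let S : Set ℕ := {n | ∃ Q : MvPolynomial σ E, Q ≠ 0 ∧ (∀ w, eval (fun i => b i w) Q = 0) ∧
    Q.totalDegree = n}
  have hS : S.Nonempty := ⟨_, P, hP, h, rfl⟩
  obtain ⟨Q, hQ, hQv, hQd⟩ := Nat.sInf_mem hS
  have hmin : ∀ R : MvPolynomial σ E, (∀ w, eval (fun i => b i w) R = 0) →
      R.totalDegree < Q.totalDegree → R = 0 := by
    intro R hR hlt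
    by_contra hR0
    have := Nat.sInf_le (s := S) ⟨R, hR0, hR, rfl⟩
    omega
  have hpos : 0 < Q.totalDegree := by
    by_contra h0
    have h0' : Q.totalDegree = 0 := by omega
    rw [totalDegree_eq_zero_iff_eq_C] at h0'
    have h1 := hQv 0
    rw [h0', eval_C] at h1
    rw [h1, C_0] at h0'
    exact hQ h0'
  have h1 : ∀ w, tr (fun i => b i w) Q = Q := by
    intro w
    rw [← sub_eq_zero]
    refine hmin _ ?_ ?_
    · intro w'
      rw [map_sub, eval_tr, hQv, sub_zero]
      have : (fun i => b i w') + (fun i => b i w) = fun i => b i (w' + w) := by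
        funext i
        simp
      rw [this, hQv]
    · have := (tr_totalDegree (fun i => b i w) Q _ le_rfl).1
      omega
  have h2 : ∀ u v : σ → E, eval (v + u) Q = eval v Q + eval u Q := by
    intro u v
    have h3 : tr u Q - Q - C (eval u Q) = 0 := by
      refine hmin _ ?_ ?_
      · intro w
        rw [map_sub, map_sub, eval_tr, hQv, eval_C, add_comm, ← eval_tr (fun i => b i w) u, h1]
        ring
      · refine lt_of_le_of_lt (totalDegree_sub _ _) (max_lt ?_ ?_)
        · have := (tr_totalDegree u Q _ le_rfl).1
          omega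
        · rw [totalDegree_C]; exact hpos
    have h4 := congrArg (eval v) h3
    rw [map_sub, map_sub, eval_tr, eval_C, map_zero] at h4
    linear_combination h4
  let β : σ → Polynomial E := fun i =>
    MvPolynomial.aeval (fun j => if j = i then Polynomial.X else 0) Q
  have hβ : ∀ i x, (β i).eval x = eval (Pi.single i x) Q := by
    intro i x
    have h3 : ∀ R : MvPolynomial σ E, (MvPolynomial.aeval
        (fun j => if j = i then (Polynomial.X : Polynomial E) else 0) R).eval x =
        eval (Pi.single i x) R := by
      intro R
      induction R using MvPolynomial.induction_on with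
      | C a => simp
      | add P Q hP hQ => rw [map_add, Polynomial.eval_add, hP, hQ, map_add]
      | mul_X P j hP =>
        rw [map_mul, Polynomial.eval_mul, hP, map_mul, aeval_X, eval_X]
        congr 1
        by_cases hj : j = i
        · subst hj; simp
        · simp [hj]
    exact h3 Q
  have hsum : ∀ u : σ → E, eval u Q = ∑ i, (β i).eval (u i) := by
    intro u
    have h3 : ∀ T : Finset σ, eval (∑ i ∈ T, Pi.single i (u i)) Q = ∑ i ∈ T, (β i).eval (u i) := by
      intro T
      induction T using Finset.induction_on with
      | empty =>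
        have := h2 0 0
        simp only [add_zero] at this
        rw [Finset.sum_empty, Finset.sum_empty]
        exact left_eq_add.1 this
      | insert a T ha ih => rw [Finset.sum_insert ha, Finset.sum_insert ha, h2, ih, hβ]
    have h4 : u = ∑ i ∈ Finset.univ, Pi.single i (u i) := (Finset.univ_sum_single u).symm
    conv_lhs => rw [h4]
    exact h3 _
  refine ⟨β, fun i => ?_, ?_, fun w => ?_⟩
  · refine AddP.of_eval _ fun x y => ?_
    rw [hβ, hβ, hβ, ← h2, ← Pi.single_add]
  · by_contra hcon
    push Not at hcon
    apply hQ
    apply MvPolynomial.funext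
    intro u
    rw [hsum, map_zero]
    exact Finset.sum_eq_zero fun i _ => by rw [hcon i, Polynomial.eval_zero]
  · rw [← hsum (fun i => b i w), hQv]

end artin

end Pool.Agent.Helper34.Str
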