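import Pool.Agent.Helper34.Str.KP
import Pool.Agent.Helper34.AddSpec2

/-!
# The core inequality from KP
-/

set_option autoImplicit false
set_option linter.unusedSectionVars false
set_option linter.style.haveILetI false

namespace Pool.Agent.Helper34.Str

open Pool.Agent.Helper33 Pool.Agent.Helper34.Add Finset Polynomial

section core

variable (p : ℕ) [hp : Fact p.Prime] {k K V : Type} [Field k] [Field K] [Algebra k K]
  [CharP K p] [Algebra (ZMod p) K] (S : PlaceSys p k K V)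

/-- the value of `δ` -/
noncomputable def dl (p r : ℕ) : ℚ := 1 / (8 * ((2 * r + 1 : ℕ) * (p : ℚ) ^ (2 * r + 1)))

theorem dl_pos (r : ℕ) : 0 < dl p r := by
  unfold dl
  have := (Fact.out : p.Prime).pos
  positivity

theorem dl_spec (r : ℕ) : (p : ℚ) ^ (2 * r + 1) * (((2 * r + 1 : ℕ) : ℚ) * dl p r) = 1 / 8 := by
  unfold dl
  have : (p : ℚ) ≠ 0 := by exact_mod_cast (Fact.out : p.Prime).ne_zero
  field_simp

/-- padding -/
theorem comb_pad (r : ℕ) (a : ℕ → K) (y : K) {m d : ℕ} (hmd : m ≤ d) (c : Fin (m + 1) → ZMod p)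
    (hc : c ≠ 0) : ∃ c' : Fin (d + 1) → ZMod p, c' ≠ 0 ∧
      comb p r a (m + 1) y c = comb p r a (d + 1) y c' := by
  have h1 := (natDegree_Qc_le p m c).trans hmd
  refine ⟨_, Qc_of_ne p d _ h1 (Qc_ne_zero p _ c hc), ?_⟩
  rw [← aeval_Qc, ← aeval_Qc, Qc_of p d _ h1]

theorem coreK (r : ℕ) (hr : 1 ≤ r) (a : ℕ → K) (har : a r ≠ 0)
    (W : Submodule (ZMod p) K) [FiniteDimensional (ZMod p) W] (hW : ∀ w ∈ W, addMap p r a w ∈ W)
    (T : Finset V) (hTa : Sup S T (a r)) (hTW : ∀ w ∈ W, w ≠ 0 → Sup S T w)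
    (y : K) (hyW : y ∈ W) (hy : y ≠ 0) (d : ℕ) (hd : 2 * r ≤ d)
    (hc0 : ∀ c : Fin (d + 1) → ZMod p, c ≠ 0 → comb p r a (d + 1) y c ≠ 0)
    (S₁ : Finset V)
    (hS₁ : ∀ v ∉ S₁, ∀ c : Fin (d + 1) → ZMod p, c ≠ 0 →
      (S.pl v).o (comb p r a (d + 1) y c) = (S.pl v).o y)
    (hD : ∃ i : Fin (2 * r + 1), S.D ((Fe p r a ^ (i : ℕ)) y / y) ≠ 0) (ε H1 : ℚ)
    (hK : KProp p S r d ε (dl p r) H1) (hH1 : H1 ≤ ∑ v ∈ T, eta p r a (S.pl v))
    (hcard : (#S₁ : ℚ) ≤ ε * ∑ v ∈ T, eta p r a (S.pl v)) :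
    ∑ v ∈ T, eta p r a (S.pl v) ≤ 3 * ∑ v ∈ T, al a (S.pl v) := by
  classical
  set H := ∑ v ∈ T, eta p r a (S.pl v) with hH
  have hH0 : 0 ≤ H := Finset.sum_nonneg fun v _ => eta_nonneg p r hr a har (S.pl v)
  have hkp := hK a har y hy H hH1 S₁ hcard hc0 hS₁ hD
  set L := comb p r a (2 * r + 1) y with hL
  have hL0 : ∀ c, c ≠ 0 → L c ≠ 0 := by
    intro c hc
    obtain ⟨c', hc', h⟩ := comb_pad p r a y hd c hc
    rw [hL, h]
    exact hc0 c' hc'
  have hLinj : Function.Injective L := by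
    rw [injective_iff_map_eq_zero]
    intro c hc
    by_contra hne
    exact hL0 c hne hc
  have hLW : ∀ c, L c ∈ W := by
    intro c
    rw [hL, comb_apply]
    refine W.sum_mem fun i _ => W.smul_mem _ ?_
    have := aeval_mem p (Fe p r a) W hW (X ^ (i : ℕ)) y hyW
    simpa using this
  have hyS := hTW y hyW hy
  -- heights of the ratios
  have hbound : ∀ c : Fin (2 * r + 1) → ZMod p, c ≠ 0 →
      hT S T (y / L c) ≤ ((2 * r + 1 : ℕ) : ℚ) * dl p r * H := by
    intro c hc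
    have h0 := hL0 c hc
    have hsup : Sup S T (L c / y) := by
      intro v hv
      rw [o_div _ _ _ h0 hy, hTW _ (hLW c) h0 v hv, hyS v hv, sub_self]
    have hinv : hT S T (y / L c) = hT S T (L c / y) := by
      have h1 := prod_formula S T _ (div_ne_zero h0 hy) hsup
      have h2 : ∑ v ∈ T, (max 0 (-((S.pl v).o (y / L c) : ℚ)) -
          max 0 (-((S.pl v).o (L c / y) : ℚ))) = 0 := by
        refine Eq.trans (Finset.sum_congr rfl fun v _ => ?_) h1
        rw [o_div _ _ _ h0 hy, o_div _ _ _ hy h0]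
        push_cast
        rcases le_total 0 (((S.pl v).o (L c) : ℚ) - ((S.pl v).o y : ℚ)) with h | h
        · rw [max_eq_right (by linarith), max_eq_left (by linarith)]; ring
        · rw [max_eq_left (by linarith), max_eq_right (by linarith)]; ring
      rw [Finset.sum_sub_distrib] at h2
      unfold hT
      linarith
    rw [hinv]
    have hexp : L c / y = ∑ i, c i • ((Fe p r a ^ (i : ℕ)) y / y) := by
      rw [hL, comb_apply, Finset.sum_div]
      exact Finset.sum_congr rfl fun i _ => by rw [smul_div_assoc]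
    have hloc : ∀ v ∈ T, max 0 (-((S.pl v).o (L c / y) : ℚ)) ≤
        ∑ i : Fin (2 * r + 1), max 0 (-((S.pl v).o ((Fe p r a ^ (i : ℕ)) y / y) : ℚ)) := by
      intro v _
      set R := ∑ i : Fin (2 * r + 1), max 0 (-((S.pl v).o ((Fe p r a ^ (i : ℕ)) y / y) : ℚ)) with hR
      have hR0 : 0 ≤ R := Finset.sum_nonneg fun _ _ => le_max_left _ _
      refine max_le hR0 ?_
      have h3 : Le (S.pl v) R (L c / y) := by
        rw [hexp, ← mem_DS p]
        refine (DS p (S.pl v) R).sum_mem fun i _ => (DS p (S.pl v) R).smul_mem _ ?_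
        rw [mem_DS]
        right
        refine (le_max_right 0 _).trans ?_
        exact Finset.single_le_sum
          (f := fun i : Fin (2 * r + 1) => max 0 (-((S.pl v).o ((Fe p r a ^ (i : ℕ)) y / y) : ℚ)))
          (fun _ _ => le_max_left _ _) (Finset.mem_univ i)
      exact h3.of_ne (div_ne_zero h0 hy)
    calc hT S T (L c / y) ≤ ∑ v ∈ T, ∑ i : Fin (2 * r + 1),
          max 0 (-((S.pl v).o ((Fe p r a ^ (i : ℕ)) y / y) : ℚ)) := Finset.sum_le_sum hloc
      _ = ∑ i : Fin (2 * r + 1), hT S T ((Fe p r a ^ (i : ℕ)) y / y) := by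
          rw [Finset.sum_comm]; rfl
      _ ≤ ∑ i : Fin (2 * r + 1), dl p r * H := Finset.sum_le_sum fun i _ => hkp i T
      _ = ((2 * r + 1 : ℕ) : ℚ) * dl p r * H := by
          rw [Finset.sum_const, Finset.card_univ, Fintype.card_fin, nsmul_eq_mul]; ring
  -- small elements
  have hsmall : ∀ v : V, ∃ c : Fin (2 * r + 1) → ZMod p, c ≠ 0 ∧
      Le (S.pl v) (s0 p r a (S.pl v) + (2 * eta p r a (S.pl v) + al a (S.pl v)) / 2 ^ 2) (L c) := by
    intro v
    have h1 := jd_iter p r hr a har (S.pl v) W hW 2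
    have h2 : Module.finrank (ZMod p) (LinearMap.range L) = 2 * r + 1 := by
      rw [LinearMap.finrank_range_of_inj hLinj, Module.finrank_fin_fun]
    obtain ⟨z, ⟨c, rfl⟩, hz0, hz⟩ := exists_small p (S.pl v) W _ (LinearMap.range L)
      (by rintro _ ⟨c, rfl⟩; exact hLW c) (by rw [h2]; exact lt_of_le_of_lt h1 (by omega))
    refine ⟨c, ?_, hz⟩
    rintro rfl
    exact hz0 (map_zero _)
  choose cv hcv0 hcv using hsmall
  -- lower bound
  have hprody := prod_formula S T y hy hyS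
  have hproda := prod_formula S T (a r) har hTa
  have hg : ∑ v ∈ T, gv p r a (S.pl v) = 0 := by
    unfold gv
    rw [← Finset.sum_div, hproda, zero_div]
  have hlow : (∑ v ∈ T, eta p r a (S.pl v)) / 2 - ∑ v ∈ T, al a (S.pl v) ≤
      ∑ v ∈ T, max 0 (-((S.pl v).o (y / L (cv v)) : ℚ)) := by
    have h1 : ∀ v ∈ T, -((S.pl v).o y : ℚ) - gv p r a (S.pl v) + eta p r a (S.pl v) / 2 -
        al a (S.pl v) ≤ max 0 (-((S.pl v).o (y / L (cv v)) : ℚ)) := by
      intro v _
      refine le_trans ?_ (le_max_right _ _)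
      rw [o_div _ _ _ hy (hL0 _ (hcv0 v))]
      have h2 := (hcv v).of_ne (hL0 _ (hcv0 v))
      have h3 := al_nonneg a (S.pl v)
      have h4 : s0 p r a (S.pl v) = gv p r a (S.pl v) - eta p r a (S.pl v) := by
        unfold Pool.Agent.Helper34.Add.eta; ring
      rw [h4] at h2
      push_cast
      linarith
    have h2 := Finset.sum_le_sum h1
    refine le_trans (le_of_eq ?_) h2
    rw [Finset.sum_sub_distrib, Finset.sum_add_distrib, Finset.sum_sub_distrib, hg,
      Finset.sum_neg_distrib, hprody, ← Finset.sum_div]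
    ring
  have hup : ∑ v ∈ T, max 0 (-((S.pl v).o (y / L (cv v)) : ℚ)) ≤
      ∑ c ∈ Finset.univ.filter (fun c : Fin (2 * r + 1) → ZMod p => c ≠ 0), hT S T (y / L c) := by
    unfold hT
    rw [Finset.sum_comm]
    refine Finset.sum_le_sum fun v _ => ?_
    exact Finset.single_le_sum
      (f := fun c => max 0 (-((S.pl v).o (y / L c) : ℚ))) (fun c _ => le_max_left _ _)
      (Finset.mem_filter.2 ⟨Finset.mem_univ _, hcv0 v⟩)
  have hnn : 0 ≤ ((2 * r + 1 : ℕ) : ℚ) * dl p r * H :=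
    mul_nonneg (mul_nonneg (Nat.cast_nonneg _) (dl_pos p r).le) hH0
  have hfin : ∑ c ∈ Finset.univ.filter (fun c : Fin (2 * r + 1) → ZMod p => c ≠ 0),
      hT S T (y / L c) ≤ H / 8 := by
    calc _ ≤ ∑ c ∈ Finset.univ.filter (fun c : Fin (2 * r + 1) → ZMod p => c ≠ 0),
          ((2 * r + 1 : ℕ) : ℚ) * dl p r * H :=
          Finset.sum_le_sum fun c hc => hbound c (Finset.mem_filter.1 hc).2
      _ = #(Finset.univ.filter (fun c : Fin (2 * r + 1) → ZMod p => c ≠ 0)) *
          (((2 * r + 1 : ℕ) : ℚ) * dl p r * H) := by rw [Finset.sum_const, nsmul_eq_mul]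
      _ ≤ (p : ℚ) ^ (2 * r + 1) * (((2 * r + 1 : ℕ) : ℚ) * dl p r * H) := by
          refine mul_le_mul_of_nonneg_right ?_ hnn
          have h1 : #(Finset.univ.filter (fun c : Fin (2 * r + 1) → ZMod p => c ≠ 0)) ≤
              p ^ (2 * r + 1) := by
            refine (Finset.card_filter_le _ _).trans ?_
            rw [Finset.card_univ, Fintype.card_fun, ZMod.card, Fintype.card_fin]
          exact_mod_cast h1
      _ = H / 8 := by
          have := dl_spec p r
          calc (p : ℚ) ^ (2 * r + 1) * (((2 * r + 1 : ℕ) : ℚ) * dl p r * H) =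
                ((p : ℚ) ^ (2 * r + 1) * (((2 * r + 1 : ℕ) : ℚ) * dl p r)) * H := by ring
            _ = H / 8 := by rw [this]; ring
  have hal : 0 ≤ ∑ v ∈ T, al a (S.pl v) := Finset.sum_nonneg fun v _ => al_nonneg a (S.pl v)
  linarith

end core

section prim

variable (p : ℕ) [hp : Fact p.Prime] {k K V : Type} [Field k] [Field K] [Algebra k K]
  [CharP K p] [Algebra (ZMod p) K] (S : PlaceSys p k K V)

open Classical in
/-- product of all nonzero polynomials of degree `≤ d` -/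
noncomputable def Qd (d : ℕ) : (ZMod p)[X] :=
  ∏ c ∈ Finset.univ.filter (fun c : Fin (d + 1) → ZMod p => c ≠ 0), Qc p (d + 1) c

theorem Qd_ne_zero (d : ℕ) : Qd p d ≠ 0 := by
  unfold Qd
  rw [Finset.prod_ne_zero_iff]
  intro c hc
  exact Qc_ne_zero p _ c (Finset.mem_filter.1 hc).2

theorem Qc_dvd_Qd (d : ℕ) (c : Fin (d + 1) → ZMod p) (hc : c ≠ 0) :
    Qc p (d + 1) c ∣ Qd p d := by
  unfold Qd
  exact Finset.dvd_prod_of_mem _ (Finset.mem_filter.2 ⟨Finset.mem_univ _, hc⟩)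

/-- the exponent -/
def ncK (r M : ℕ) : ℕ := 2 * p ^ r * M

/-- `J` -/
def JcK (r M : ℕ) : ℕ := (p ^ (r * ncK p r M)).factorial

theorem JcK_pos (r M : ℕ) : 1 ≤ JcK p r M := Nat.factorial_pos _

/-- The key: a good element exists in a large stable subspace. -/
theorem exists_goodK (r d M : ℕ) (hr : 1 ≤ r) (a : ℕ → K) (har : a r ≠ 0)
    (W : Submodule (ZMod p) K) [FiniteDimensional (ZMod p) W] (hW : ∀ w ∈ W, addMap p r a w ∈ W)
    (hbig : 2 * r * JcK p r M + r * (Qd p d).natDegree < Module.finrank (ZMod p) W)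
    (Q' : (ZMod p)[X]) (htr : aeval (a 0) Q' ≠ 0)
    (hnil : ∀ x ∈ W, ∀ n : ℕ, aeval (Fe p r a) (Qd p d ^ n) x = 0 →
      ∃ m : ℕ, aeval (Fe p r a) (Q' ^ m) x = 0) :
    ∃ y ∈ W, y ≠ 0 ∧ (∀ c : Fin (d + 1) → ZMod p, c ≠ 0 → comb p r a (d + 1) y c ≠ 0) ∧
      ∀ v : DV K, al a v = 0 → eta p r a v ≤ M → v.o (aeval (a 0) Q') = 0 →
        ∀ c : Fin (d + 1) → ZMod p, c ≠ 0 → v.o (comb p r a (d + 1) y c) = v.o y := by
  classical
  set F := Fe p r a with hF
  set J := JcK p r M with hJ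
  set g := aeval F (Qd p d) with hg
  set Y := W.map (aeval F (PJ p J)) with hY
  have hYW : Y ≤ W := by
    rintro _ ⟨w, hw, rfl⟩
    exact aeval_mem p F W hW _ w hw
  haveI : FiniteDimensional (ZMod p) Y := Submodule.finiteDimensional_of_le hYW
  have hYst : ∀ (P : (ZMod p)[X]), ∀ y ∈ Y, aeval F P y ∈ Y := by
    rintro P _ ⟨w, hw, rfl⟩
    refine ⟨aeval F P w, aeval_mem p F W hW P w hw, ?_⟩
    rw [← Module.End.mul_apply, ← Module.End.mul_apply, ← map_mul, ← map_mul, mul_comm]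
  have hYs : ∀ v : DV K, al a v = 0 → eta p r a v ≤ M → ∀ y ∈ Y, Le v (s0 p r a v) y := by
    rintro v hα hη _ ⟨w, hw, rfl⟩
    refine Jtrick p r hr a har v hα W hW (ncK p r M) ?_ w hw
    have h1 : ncK p r M < 2 ^ ncK p r M := Nat.lt_two_pow_self
    have h2 : (p : ℚ) ^ r * (2 * eta p r a v) ≤ ncK p r M := by
      unfold ncK
      push_cast
      have : (0 : ℚ) ≤ (p : ℚ) ^ r := by positivity
      nlinarith
    calc (p : ℚ) ^ r * (2 * eta p r a v) ≤ ncK p r M := h2
      _ < 2 ^ ncK p r M := by exact_mod_cast h1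
  have hYdim : r * (Qd p d).natDegree < Module.finrank (ZMod p) Y := by
    have h1 := finrank_map_aeval p r hr a har (PJ p J) (PJ_ne_zero p J (JcK_pos p r M)) W
    have h2 : r * (PJ p J).natDegree ≤ 2 * r * J := by
      calc r * (PJ p J).natDegree ≤ r * (2 * J) := Nat.mul_le_mul_left _ (PJ_natDegree_le p J)
        _ = 2 * r * J := by ring
    change Module.finrank (ZMod p) W ≤ Module.finrank (ZMod p) Y + _ at h1
    omega
  -- an element not killed by `g`
  obtain ⟨y', hy'Y, hy'⟩ : ∃ y ∈ Y, g y ≠ 0 := by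
    by_contra hcon
    push Not at hcon
    have := finrank_le_of_aeval_eq_zero p r hr a har (Qd p d) (Qd_ne_zero p d) Y hcon
    omega
  by_cases hcase : ∃ y ∈ Y, ∀ n : ℕ, (g ^ n) y ≠ 0
  · -- case (i)
    obtain ⟨y, hyY, hy⟩ := hcase
    have hgn : ∀ n : ℕ, (g ^ n) y ∈ Y := by
      intro n
      rw [hg, ← map_pow]
      exact hYst _ y hyY
    haveI : Finite Y := Module.finite_of_finite (ZMod p)
    obtain ⟨m, n, hmn, heq⟩ : ∃ m n : ℕ, m < n ∧ (g ^ m) y = (g ^ n) y := by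
      obtain ⟨m, n, hmn, heq⟩ := Finite.exists_ne_map_eq_of_infinite
        (fun n : ℕ => (⟨(g ^ n) y, hgn n⟩ : Y))
      have heq' : (g ^ m) y = (g ^ n) y := congrArg Subtype.val heq
      rcases lt_or_gt_of_ne hmn with h | h
      · exact ⟨m, n, h, heq'⟩
      · exact ⟨n, m, h, heq'.symm⟩
    set y₁ := (g ^ m) y with hy₁
    obtain ⟨e, he⟩ : ∃ e, n = m + (e + 1) := ⟨n - m - 1, by omega⟩
    have hcyc : (g ^ (e + 1)) y₁ = y₁ := by
      rw [hy₁, ← Module.End.mul_apply, ← pow_add, add_comm (e + 1) m, ← he, ← heq]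
    have hA : ∀ c : Fin (d + 1) → ZMod p, c ≠ 0 → ∃ A : (ZMod p)[X],
        aeval F A (aeval F (Qc p (d + 1) c) y₁) = y₁ := by
      intro c hc
      obtain ⟨R, hR⟩ := Qc_dvd_Qd p d c hc
      refine ⟨R * Qd p d ^ e, ?_⟩
      rw [← Module.End.mul_apply, ← map_mul]
      have h1 : R * Qd p d ^ e * Qc p (d + 1) c = Qd p d ^ (e + 1) := by
        calc R * Qd p d ^ e * Qc p (d + 1) c = Qd p d ^ e * (Qc p (d + 1) c * R) := by ring
          _ = Qd p d ^ e * Qd p d := by rw [← hR]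
          _ = Qd p d ^ (e + 1) := (pow_succ _ _).symm
      rw [h1, map_pow]
      exact hcyc
    refine ⟨y₁, hYW (hgn m), hy m, ?_, ?_⟩
    · intro c hc h0
      obtain ⟨A, hA⟩ := hA c hc
      rw [aeval_Qc, h0, map_zero] at hA
      exact hy m hA.symm
    · intro v hα hη _ c hc
      obtain ⟨A, hA⟩ := hA c hc
      rw [← aeval_Qc]
      exact nocoll_i p r a v hα y₁ (hy m) (hYs v hα hη y₁ (hgn m)) _ A hA
  · -- case (ii)
    push Not at hcase
    have hy'0 : y' ≠ 0 := by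
      rintro rfl
      exact hy' (map_zero _)
    have hc0 : ∀ c : Fin (d + 1) → ZMod p, c ≠ 0 → comb p r a (d + 1) y' c ≠ 0 := by
      intro c hc h0
      obtain ⟨R, hR⟩ := Qc_dvd_Qd p d c hc
      apply hy'
      rw [hg, hR, mul_comm, map_mul, Module.End.mul_apply, hF, aeval_Qc, h0, map_zero]
    refine ⟨y', hYW hy'Y, hy'0, hc0, ?_⟩
    intro v hα hη hQ c hc
    have hsz : ∀ x ∈ Y, x ≠ 0 → -(v.o x : ℚ) = s0 p r a v := by
      intro x hx hx0
      refine le_antisymm ((hYs v hα hη x hx).of_ne hx0) ?_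
      by_contra hcon
      push Not at hcon
      obtain ⟨n, hn⟩ := hcase x hx
      rw [hg, ← map_pow] at hn
      obtain ⟨m, hm⟩ := hnil x (hYW hx) n hn
      rw [map_pow] at hm
      exact (nocoll_ii_iter p r a v hα Q' htr hQ x hx0 hcon m).1 hm
    have h1 : comb p r a (d + 1) y' c ∈ Y := by
      rw [← aeval_Qc]; exact hYst _ y' hy'Y
    have h2 := hsz _ h1 (hc0 c hc)
    have h3 := hsz y' hy'Y hy'0
    have h4 : (v.o (comb p r a (d + 1) y' c) : ℚ) = v.o y' := by linarith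
    exact_mod_cast h4

/-- `2r+1` independent iterates -/
theorem hli_of' (r : ℕ) (a : ℕ → K) (y : K) {d : ℕ} (hd : 2 * r ≤ d)
    (h : ∀ c : Fin (d + 1) → ZMod p, c ≠ 0 → comb p r a (d + 1) y c ≠ 0) :
    LinearIndependent (ZMod p) (fun i : Fin (2 * r + 1) => (Fe p r a ^ (i : ℕ)) y) := by
  refine hli_of p r a y fun c hc => ?_
  obtain ⟨c', hc', h'⟩ := comb_pad p r a y hd c hc
  rw [h']
  exact h c' hc'

/-- bound for the total complexity -/
noncomputable def HcK (d M : ℕ) (H1 N : ℚ) : ℚ :=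
  H1 + 3 * N + M * ((1 + (Qd p d).natDegree) * N)

/-- **Primitive case** -/
theorem prim_boundK (r d M : ℕ) (hr : 1 ≤ r) (hd : 2 * r ≤ d) (ε H1 : ℚ) (hH10 : 0 ≤ H1)
    (hM : 2 ≤ ε * M) (hK : KProp p S r d ε (dl p r) H1)
    (a : ℕ → K) (har : a r ≠ 0)
    (W : Submodule (ZMod p) K) [FiniteDimensional (ZMod p) W] (hW : ∀ w ∈ W, addMap p r a w ∈ W)
    (T : Finset V) (hTa : Sup S T (a r)) (hTW : ∀ w ∈ W, w ≠ 0 → Sup S T w)
    (Q' : (ZMod p)[X]) (hQd : Q'.natDegree ≤ (Qd p d).natDegree)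
    (hTc : Sup S T (aeval (a 0) Q'))
    (htr : aeval (a 0) Q' ≠ 0)
    (hnil : ∀ x ∈ W, ∀ n : ℕ, aeval (Fe p r a) (Qd p d ^ n) x = 0 →
      ∃ m : ℕ, aeval (Fe p r a) (Q' ^ m) x = 0)
    (hprim : ∀ y ∈ W, y ≠ 0 → ∃ i ≤ r, S.D (a i * y ^ (p ^ i - 1)) ≠ 0)
    (hne : ∃ v ∈ T, 0 < eta p r a (S.pl v) ∨ 0 < al a (S.pl v))
    (N : ℚ) (hN : ∑ v ∈ T, al a (S.pl v) ≤ N) :
    (Module.finrank (ZMod p) W : ℚ) ≤ (2 * r * JcK p r M + r * (Qd p d).natDegree : ℕ) +
      3 * r * ((p : ℚ) ^ (2 * r) * HcK p d M H1 N + N) := by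
  classical
  have hα0 : 0 ≤ ∑ v ∈ T, al a (S.pl v) := Finset.sum_nonneg fun v _ => al_nonneg a (S.pl v)
  have hN0 : 0 ≤ N := hα0.trans hN
  have hHc : 0 ≤ HcK p d M H1 N := by
    unfold HcK
    positivity
  rcases le_or_gt (Module.finrank (ZMod p) W) (2 * r * JcK p r M + r * (Qd p d).natDegree) with h | h
  · have h1 : (Module.finrank (ZMod p) W : ℚ) ≤
        (2 * r * JcK p r M + r * (Qd p d).natDegree : ℕ) := by
      exact_mod_cast h
    have h2 : 0 ≤ 3 * r * ((p : ℚ) ^ (2 * r) * HcK p d M H1 N + N) := by positivity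
    linarith
  · obtain ⟨y, hyW, hy0, hc0, hS⟩ := exists_goodK p r d M hr a har W hW h Q' htr hnil
    have hli := hli_of' p r a y hd hc0
    obtain ⟨i, hi⟩ := exists_D p S r hr a y hy0 hli (hprim y hyW hy0)
    have hε : 0 < ε := by
      by_contra hcon
      push Not at hcon
      have : ε * M ≤ 0 := mul_nonpos_of_nonpos_of_nonneg hcon (Nat.cast_nonneg _)
      linarith
    have hMpos : (0 : ℚ) < M := by
      rcases (Nat.cast_nonneg M : (0 : ℚ) ≤ M).eq_or_lt with h0 | h0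
      · rw [← h0, mul_zero] at hM; linarith
      · exact h0
    set S₁ : Finset V := T.filter (fun v => (M : ℚ) < eta p r a (S.pl v)) ∪
      (T.filter (fun v => 0 < al a (S.pl v)) ∪
        T.filter (fun v => 0 < (S.pl v).o (aeval (a 0) Q'))) with hS₁
    set H := ∑ v ∈ T, eta p r a (S.pl v) with hH
    have hH0 : 0 ≤ H := Finset.sum_nonneg fun v _ => eta_nonneg p r hr a har (S.pl v)
    have hcard : (#S₁ : ℚ) ≤ H / M + (1 + (Qd p d).natDegree) * N := by
      have e1 := card_eta p S r hr a har T M hMpos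
      have e2 := card_al p S a T
      have e3 := card_zeros p S a T Q' htr hTc
      have e4 : #S₁ ≤ #(T.filter (fun v => (M : ℚ) < eta p r a (S.pl v))) +
          (#(T.filter (fun v => 0 < al a (S.pl v))) +
            #(T.filter (fun v => 0 < (S.pl v).o (aeval (a 0) Q')))) :=
        (Finset.card_union_le _ _).trans (Nat.add_le_add_left (Finset.card_union_le _ _) _)
      have e5 : (#S₁ : ℚ) ≤ #(T.filter (fun v => (M : ℚ) < eta p r a (S.pl v))) +
          (#(T.filter (fun v => 0 < al a (S.pl v))) +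
            #(T.filter (fun v => 0 < (S.pl v).o (aeval (a 0) Q')))) := by exact_mod_cast e4
      have e6 : (Q'.natDegree : ℚ) * ∑ v ∈ T, al a (S.pl v) ≤ (Qd p d).natDegree * N :=
        mul_le_mul (by exact_mod_cast hQd) hN hα0 (Nat.cast_nonneg _)
      have e7 : (1 + ((Qd p d).natDegree : ℚ)) * N = N + (Qd p d).natDegree * N := by ring
      linarith
    have hHbound : H ≤ HcK p d M H1 N := by
      by_contra hcon
      push Not at hcon
      have hP : (0 : ℚ) ≤ (1 + (Qd p d).natDegree) * N := by positivity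
      have hH1 : H1 ≤ H := by
        unfold HcK at hcon
        have : (0 : ℚ) ≤ M * ((1 + (Qd p d).natDegree) * N) := by positivity
        linarith
      have h3 : 3 * N < H := by
        unfold HcK at hcon
        have : (0 : ℚ) ≤ M * ((1 + (Qd p d).natDegree) * N) := by positivity
        linarith
      have h4 : M * ((1 + (Qd p d).natDegree) * N) < H := by
        unfold HcK at hcon
        linarith
      have h5 : H / M ≤ ε / 2 * H := by
        rw [div_le_iff₀ hMpos]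
        have : H * 2 ≤ H * (ε * M) := mul_le_mul_of_nonneg_left hM hH0
        linarith
      have h6 : (1 + ((Qd p d).natDegree : ℚ)) * N ≤ ε / 2 * H := by
        have h7 : (1 + ((Qd p d).natDegree : ℚ)) * N ≤ H / M := by
          rw [le_div_iff₀ hMpos]
          linarith
        linarith
      have hcore := coreK p S r hr a har W hW T hTa hTW y hyW hy0 d hd hc0 S₁ (by
        intro v hv c hc
        by_cases hvT : v ∈ T
        · simp only [hS₁, Finset.mem_union, Finset.mem_filter, not_or, not_and, not_lt] at hv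
          have hα : al a (S.pl v) = 0 := le_antisymm (hv.2.1 hvT) (al_nonneg a _)
          refine hS (S.pl v) hα (hv.1 hvT) ?_ c hc
          refine le_antisymm (hv.2.2 hvT) ?_
          have h3 := (aeval_a0_le p a (S.pl v) Q').of_ne htr
          rw [hα, mul_zero] at h3
          have h4 : (0 : ℚ) ≤ (S.pl v).o (aeval (a 0) Q') := by linarith
          exact_mod_cast h4
        · have h5 : comb p r a (d + 1) y c ∈ W := by
            rw [← aeval_Qc]; exact aeval_mem p (Fe p r a) W hW _ y hyW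
          rw [hTW _ h5 (hc0 c hc) v hvT, hTW y hyW hy0 v hvT]) ⟨i, hi⟩ ε H1 hK hH1
        (by rw [← hH]; linarith)
      linarith
    have h3 := final_bound p S r hr a har W hW T hTa hTW hne
    refine h3.trans ?_
    have h4 : 3 * r * ((p : ℚ) ^ (2 * r) * H + ∑ v ∈ T, al a (S.pl v)) ≤
        3 * r * ((p : ℚ) ^ (2 * r) * HcK p d M H1 N + N) := by
      refine mul_le_mul_of_nonneg_left ?_ (by positivity)
      have : (p : ℚ) ^ (2 * r) * H ≤ (p : ℚ) ^ (2 * r) * HcK p d M H1 N :=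
        mul_le_mul_of_nonneg_left hHbound (by positivity)
      linarith
    have h5 : (0 : ℚ) ≤ (2 * r * JcK p r M + r * (Qd p d).natDegree : ℕ) := Nat.cast_nonneg _
    linarith

end prim

end Pool.Agent.Helper34.Str
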