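import Pool.Agent.Helper34.Str.GE

/-!
# Four embeddings
-/

set_option autoImplicit false
set_option linter.unusedSectionVars false
set_option linter.style.haveILetI false

namespace Pool.Agent.Helper34.Str

open MvPolynomial

universe u

section LD

variable {E : Type u} [Field E]

/-- linear disjointness of two subfields over their intersection -/
def LD (K0 C : Subfield E) : Prop :=
  ∀ (n : ℕ) (x c : Fin n → E), (∀ i, x i ∈ K0) → (∀ i, c i ∈ C) → (∃ i, x i ≠ 0) →
    ∑ i, x i * c i = 0 →
    ∃ y : Fin n → E, (∀ i, y i ∈ K0 ⊓ C) ∧ (∃ i, y i ≠ 0) ∧ ∑ i, y i * c i = 0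

theorem LD.finset {K0 C : Subfield E} (h : LD K0 C) {α : Type*} (I : Finset α) (x c : α → E)
    (hx : ∀ i ∈ I, x i ∈ K0) (hc : ∀ i ∈ I, c i ∈ C) (hne : ∃ i ∈ I, x i ≠ 0)
    (hs : ∑ i ∈ I, x i * c i = 0) :
    ∃ y : α → E, (∀ i ∈ I, y i ∈ K0 ⊓ C) ∧ (∃ i ∈ I, y i ≠ 0) ∧ ∑ i ∈ I, y i * c i = 0 := by
  classical
  let e := I.equivFin
  obtain ⟨y, h1, ⟨i0, h2⟩, h3⟩ := h I.card (fun i => x (e.symm i)) (fun i => c (e.symm i))
    (fun i => hx _ (e.symm i).2) (fun i => hc _ (e.symm i).2)
    (by
      obtain ⟨i, hi, hxi⟩ := hne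
      exact ⟨e ⟨i, hi⟩, by simpa using hxi⟩)
    (by
      rw [← hs, ← Finset.sum_coe_sort I]
      exact Fintype.sum_equiv e.symm _ _ fun i => rfl)
  refine ⟨fun i => if hi : i ∈ I then y (e ⟨i, hi⟩) else 0, ?_, ?_, ?_⟩
  · intro i hi
    dsimp only
    rw [dif_pos hi]
    exact h1 _
  · refine ⟨e.symm i0, (e.symm i0).2, ?_⟩
    dsimp only
    rw [dif_pos (e.symm i0).2]
    simpa using h2
  · refine Eq.trans ?_ h3
    rw [← Finset.sum_coe_sort I]
    refine Fintype.sum_equiv e _ _ fun i => ?_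
    dsimp only
    rw [dif_pos i.2]
    simp

theorem alg_over_inter {K0 C : Subfield E} (hLD : LD K0 C) (B : Set E)
    (hB : Maximal (fun s : Set E => AlgebraicIndepOn K0 id s ∧ s ⊆ C) B) (c : E) (hc : c ∈ C) :
    ∃ Q : Polynomial (MvPolynomial B (K0 ⊓ C : Subfield E)), Q ≠ 0 ∧
      Q.eval₂ (MvPolynomial.eval₂Hom (K0 ⊓ C : Subfield E).subtype (fun b : B => (b : E))) c = 0 := by
  classical
  by_cases hcB : c ∈ B
  · refine ⟨Polynomial.X - Polynomial.C (X ⟨c, hcB⟩), Polynomial.X_sub_C_ne_zero _, ?_⟩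
    rw [Polynomial.eval₂_sub, Polynomial.eval₂_X, Polynomial.eval₂_C]
    simp
  · have h1 : ¬ AlgebraicIndepOn K0 id (insert c B) := by
      intro h
      have := hB.2 ⟨h, Set.insert_subset hc hB.1.2⟩ (Set.subset_insert _ _)
      exact hcB (this (Set.mem_insert _ _))
    rw [AlgebraicIndepOn.insert_iff hcB] at h1
    have h2 : IsAlgebraic (Algebra.adjoin K0 (Set.range ((↑) : B → E))) c := by
      by_contra h
      apply h1
      refine ⟨hB.1.1, ?_⟩
      rw [Set.image_id]
      rw [Subtype.range_coe] at h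
      exact h
    obtain ⟨P, hP, hPc⟩ := exists_mvpoly (x := ((↑) : B → E)) hB.1.1 h2
    let I : Finset (ℕ × (B →₀ ℕ)) := P.support ×ˢ (P.support.biUnion fun k => (P.coeff k).support)
    let xx : ℕ × (B →₀ ℕ) → E := fun i => ((P.coeff i.1).coeff i.2 : K0)
    let cc : ℕ × (B →₀ ℕ) → E := fun i => c ^ i.1 * i.2.prod fun b n => (b : E) ^ n
    have hsum : ∑ i ∈ I, xx i * cc i = 0 := by
      rw [← hPc, Polynomial.eval₂_eq_sum, Polynomial.sum_def, Finset.sum_product]
      refine Finset.sum_congr rfl fun k hk => ?_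
      have h3 : (MvPolynomial.aeval ((↑) : B → E) : MvPolynomial B K0 →ₐ[K0] E).toRingHom
          (P.coeff k) = ∑ m ∈ (P.coeff k).support,
            (((P.coeff k).coeff m : K0) : E) * m.prod fun b n => (b : E) ^ n := by
        change MvPolynomial.aeval _ (P.coeff k) = _
        rw [MvPolynomial.aeval_def, MvPolynomial.eval₂_eq]
        rfl
      rw [h3, Finset.sum_mul]
      symm
      refine Finset.sum_subset_zero_on_sdiff ?_ ?_ ?_
      · exact fun m hm => Finset.mem_biUnion.2 ⟨k, hk, hm⟩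
      · intro m hm
        rw [Finset.mem_sdiff, MvPolynomial.notMem_support_iff] at hm
        simp only [xx]
        rw [hm.2]; simp
      · intro m _
        simp only [xx, cc]
        ring
    have hne : ∃ i ∈ I, xx i ≠ 0 := by
      obtain ⟨k, hk⟩ : ∃ k, P.coeff k ≠ 0 := by
        by_contra hcon
        push Not at hcon
        exact hP (Polynomial.ext fun n => by rw [hcon n, Polynomial.coeff_zero])
      obtain ⟨m, hm⟩ : ∃ m, (P.coeff k).coeff m ≠ 0 := by
        by_contra hcon
        push Not at hcon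
        exact hk (MvPolynomial.ext _ _ fun n => by rw [hcon n, MvPolynomial.coeff_zero])
      have hk' : k ∈ P.support := Polynomial.mem_support_iff.2 hk
      refine ⟨(k, m), Finset.mem_product.2 ⟨hk', Finset.mem_biUnion.2 ⟨k, hk',
        MvPolynomial.mem_support_iff.2 hm⟩⟩, ?_⟩
      simp only [xx]
      exact fun h => hm (Subtype.ext h)
    obtain ⟨y, hy1, ⟨i0, hi0, hy2⟩, hy3⟩ := hLD.finset I xx cc (fun i _ => ((P.coeff i.1).coeff i.2).2)
      (fun i _ => by
        refine C.mul_mem (C.pow_mem hc _) ?_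
        refine prod_mem fun b _ => ?_
        exact C.pow_mem (hB.1.2 b.2) _) hne hsum
    let yy : ℕ × (B →₀ ℕ) → (K0 ⊓ C : Subfield E) := fun i =>
      if hi : i ∈ I then ⟨y i, hy1 i hi⟩ else 0
    have hyy : ∀ i ∈ I, (yy i : E) = y i := by
      intro i hi
      simp only [yy]
      rw [dif_pos hi]
    refine ⟨∑ i ∈ I, Polynomial.monomial i.1 (MvPolynomial.monomial i.2 (yy i)), ?_, ?_⟩
    · intro h0
      have h3 := congrArg (fun Q => MvPolynomial.coeff i0.2 (Polynomial.coeff Q i0.1)) h0
      simp only [Polynomial.finsetSum_coeff, Polynomial.coeff_monomial, Polynomial.coeff_zero,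
        MvPolynomial.coeff_sum, MvPolynomial.coeff_zero] at h3
      rw [Finset.sum_eq_single i0] at h3
      · rw [if_pos rfl, MvPolynomial.coeff_monomial, if_pos rfl] at h3
        apply hy2
        rw [← hyy i0 hi0, h3]; rfl
      · intro b _ hb
        split_ifs with h4
        · rw [MvPolynomial.coeff_monomial, if_neg]
          intro h5
          exact hb (Prod.ext h4 h5)
        · rw [MvPolynomial.coeff_zero]
      · intro hn
        exact absurd hi0 hn
    · rw [Polynomial.eval₂_finsetSum, ← hy3]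
      refine Finset.sum_congr rfl fun i hi => ?_
      rw [Polynomial.eval₂_monomial, MvPolynomial.coe_eval₂Hom, MvPolynomial.eval₂_monomial,
        ← hyy i hi]
      simp only [cc]
      change (yy i : E) * _ * _ = _
      ring

end LD

section four

variable {E : Type u} [Field E] [IsAlgClosed E]

theorem four {K0 C : Subfield E} (hLD : LD K0 C) :
    ∃ (E2 : Type u) (_ : Field E2) (_ : IsAlgClosed E2) (i1 i2 i3 i4 : E →+* E2),
      (∀ x ∈ K0, i1 x = i2 x) ∧ (∀ x ∈ K0, i3 x = i4 x) ∧
      (∀ x ∈ C, i1 x = i3 x) ∧ (∀ x ∈ C, i2 x = i4 x) ∧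
      (∀ x y, i1 x = i2 y → IsAlgebraic K0 x) ∧
      ∃ E' : Subfield E2, IsAlgClosed E' ∧ (∀ x, i3 x ∈ E') ∧
        ∀ x, i1 x ∈ E' → IsAlgebraic C x := by
  classical
  -- bases
  obtain ⟨B, -, hB⟩ := exists_maximal_algebraicIndependent (R := K0) (∅ : Set E) (C : Set E)
    (Set.empty_subset _) ((algebraicIndependent_empty_iff K0 E).mpr
      (FaithfulSMul.algebraMap_injective K0 E))
  obtain ⟨T, hBT, hT⟩ := exists_isTranscendenceBasis_superset hB.1.1
  -- first field
  let E1 : Type u := AlgebraicClosure (FractionRing (MvPolynomial T E))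
  let j : MvPolynomial T E →+* E1 :=
    (algebraMap (FractionRing (MvPolynomial T E)) E1).comp (algebraMap _ _)
  have hj : Function.Injective j :=
    (algebraMap (FractionRing (MvPolynomial T E)) E1).injective.comp
      (IsFractionRing.injective _ _)
  obtain ⟨φ, hφ1, hφ2⟩ := exists_phi K0 T hT j hj
  let ι : E →+* E1 := j.comp MvPolynomial.C
  have hιe : ∀ x, ι x = j (MvPolynomial.C x) := fun _ => rfl
  -- the second base
  let K1 : Subfield E1 := Subfield.closure (ι '' C ∪ φ '' C)
  let L2 : Subfield E1 := Subfield.closure ((fun a => j (MvPolynomial.C a)) '' (C : Set E) ∪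
      Set.range fun b : T => j (MvPolynomial.X b))
  have hL2ι : ∀ x ∈ C, ι x ∈ L2 := fun x hx => Subfield.subset_closure (Or.inl ⟨x, hx, rfl⟩)
  have hL2X : ∀ b : T, j (MvPolynomial.X b) ∈ L2 := fun b =>
    Subfield.subset_closure (Or.inr ⟨b, rfl⟩)
  have hφC : ∀ c ∈ C, IsAlgebraic L2 (φ c) := by
    intro c hc
    obtain ⟨Q, hQ0, hQ⟩ := alg_over_inter hLD B hB c hc
    -- the ring hom
    let g : MvPolynomial B (K0 ⊓ C : Subfield E) →+* E1 :=
      φ.comp (MvPolynomial.eval₂Hom (K0 ⊓ C : Subfield E).subtype (fun b : B => (b : E)))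
    have hg : Function.Injective g := by
      refine φ.injective.comp ?_
      have h1 : AlgebraicIndependent K0 ((↑) : B → E) := hB.1.1
      have h2 := algebraicIndependent_iff_injective_aeval.1 h1
      have h3 : Function.Injective (MvPolynomial.map (σ := B)
          (Subfield.inclusion (inf_le_left : K0 ⊓ C ≤ K0))) :=
        MvPolynomial.map_injective _ (RingHom.injective _)
      have h4 := h2.comp h3
      have h5 : (MvPolynomial.eval₂Hom (K0 ⊓ C : Subfield E).subtype (fun b : B => (b : E)) :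
          MvPolynomial B (K0 ⊓ C : Subfield E) → E) =
          (MvPolynomial.aeval ((↑) : B → E) : MvPolynomial B K0 →ₐ[K0] E) ∘
            (MvPolynomial.map (Subfield.inclusion (inf_le_left : K0 ⊓ C ≤ K0))) := by
        funext P
        rw [Function.comp_apply, MvPolynomial.aeval_def, MvPolynomial.eval₂_map]
        rfl
      rw [h5]
      exact h4
    have hgL : ∀ P, g P ∈ L2 := by
      intro P
      induction P using MvPolynomial.induction_on with
      | C a =>
        have : g (MvPolynomial.C a) = ι a := by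
          change φ (MvPolynomial.eval₂Hom _ _ (MvPolynomial.C a)) = _
          rw [MvPolynomial.coe_eval₂Hom, MvPolynomial.eval₂_C]
          exact hφ1 _ a.2.1
        rw [this]
        exact hL2ι _ a.2.2
      | add P Q hP hQ => rw [map_add]; exact L2.add_mem hP hQ
      | mul_X P b hP =>
        rw [map_mul]
        refine L2.mul_mem hP ?_
        have : g (MvPolynomial.X b) = j (MvPolynomial.X ⟨b, hBT b.2⟩) := by
          change φ (MvPolynomial.eval₂Hom _ _ (MvPolynomial.X b)) = _
          rw [MvPolynomial.coe_eval₂Hom, MvPolynomial.eval₂_X]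
          exact hφ2 ⟨b, hBT b.2⟩
        rw [this]
        exact hL2X _
    rw [alg_iff]
    refine ⟨Q.map g, ov_iff.2 fun n => ?_, ?_, ?_⟩
    · rw [Polynomial.coeff_map]; exact hgL _
    · rwa [Polynomial.map_ne_zero_iff hg]
    · rw [Polynomial.eval_map, ← Polynomial.hom_eval₂, hQ, map_zero]
  have hK1L2 : ∀ y ∈ K1, IsAlgebraic L2 y := by
    refine alg_closure ?_
    rintro _ (⟨x, hx, rfl⟩ | ⟨x, hx, rfl⟩)
    · exact alg_self (hL2ι x hx)
    · exact hφC x hx
  have hK1 : ∀ x, IsAlgebraic K1 (ι x) → IsAlgebraic C x := by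
    intro x hx
    exact alg_of_closure C j hj x (alg_trans' hK1L2 hx)
  -- second field
  obtain ⟨T1, hT1⟩ := exists_isTranscendenceBasis K1 E1
  let E2 : Type u := AlgebraicClosure (FractionRing (MvPolynomial T1 E1))
  let j' : MvPolynomial T1 E1 →+* E2 :=
    (algebraMap (FractionRing (MvPolynomial T1 E1)) E2).comp (algebraMap _ _)
  have hj' : Function.Injective j' :=
    (algebraMap (FractionRing (MvPolynomial T1 E1)) E2).injective.comp
      (IsFractionRing.injective _ _)
  obtain ⟨θ, hθ1, hθ2⟩ := exists_phi K1 T1 hT1 j' hj'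
  let ι' : E1 →+* E2 := j'.comp MvPolynomial.C
  -- general: `ι x = φ y` implies algebraic
  have hgen : ∀ {F F1 : Type u} [Field F] [Field F1] [IsAlgClosed F1] (K : Subfield F) (S : Set F)
      (hS : IsTranscendenceBasis K ((↑) : S → F)) (k : MvPolynomial S F →+* F1)
      (hk : Function.Injective k) (ψ : F →+* F1) (h1 : ∀ a ∈ K, ψ a = k (MvPolynomial.C a))
      (h2 : ∀ b : S, ψ b = k (MvPolynomial.X b)) (x y : F) (h : k (MvPolynomial.C x) = ψ y),
      IsAlgebraic K x := by
    intro F F1 _ _ _ K S hS k hk ψ h1 h2 x y h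
    refine alg_of_closure K k hk x ?_
    rw [h]
    have h3 : IsAlgebraic (Subfield.closure ((K : Set F) ∪ S)) y := by
      have h4 := hS.isAlgebraic.1 y
      obtain ⟨P, hP, hPy⟩ := h4
      have hsub : ∀ a : Algebra.adjoin K (Set.range ((↑) : S → F)),
          (a : F) ∈ Subfield.closure ((K : Set F) ∪ S) := by
        rintro ⟨a, ha⟩
        refine Algebra.adjoin_induction ?_ ?_ ?_ ?_ ha
        · rintro _ ⟨b, rfl⟩
          exact Subfield.subset_closure (Or.inr b.2)
        · intro r
          exact Subfield.subset_closure (Or.inl r.2)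
        · intro a b _ _ ha hb
          exact Subfield.add_mem _ ha hb
        · intro a b _ _ ha hb
          exact Subfield.mul_mem _ ha hb
      rw [alg_iff]
      refine ⟨P.map (algebraMap _ F), ov_iff.2 fun n => ?_, ?_, ?_⟩
      · rw [Polynomial.coeff_map]; exact hsub _
      · rwa [Polynomial.map_ne_zero_iff]
        exact Subtype.val_injective
      · rw [Polynomial.eval_map]; exact hPy
    refine alg_map ψ ?_ h3
    intro a ha
    have h5 : Subfield.closure ((K : Set F) ∪ S) ≤ (Subfield.closure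
        ((fun a => k (MvPolynomial.C a)) '' (K : Set F) ∪
          Set.range fun b : S => k (MvPolynomial.X b))).comap ψ := by
      rw [Subfield.closure_le]
      rintro a (ha | ha)
      · rw [SetLike.mem_coe, Subfield.mem_comap, h1 a ha]
        exact Subfield.subset_closure (Or.inl ⟨a, ha, rfl⟩)
      · rw [SetLike.mem_coe, Subfield.mem_comap, h2 ⟨a, ha⟩]
        exact Subfield.subset_closure (Or.inr ⟨⟨a, ha⟩, rfl⟩)
    exact h5 ha
  have hι'θ : ∀ x ∈ K1, ι' x = θ x := fun x hx => (hθ1 x hx).symm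
  refine ⟨E2, inferInstance, inferInstance, ι'.comp ι, ι'.comp φ, θ.comp ι, θ.comp φ,
    ?_, ?_, ?_, ?_, ?_, θ.fieldRange, fieldRange_algClosed θ, ?_, ?_⟩
  · intro x hx
    exact congrArg ι' (hφ1 x hx).symm
  · intro x hx
    exact congrArg θ (hφ1 x hx).symm
  · intro x hx
    exact hι'θ _ (Subfield.subset_closure (Or.inl ⟨x, hx, rfl⟩))
  · intro x hx
    exact hι'θ _ (Subfield.subset_closure (Or.inr ⟨x, hx, rfl⟩))
  · intro x y h
    exact hgen K0 T hT j hj φ hφ1 hφ2 x y (ι'.injective h)
  · intro x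
    exact ⟨ι x, rfl⟩
  · intro x hx
    obtain ⟨y, hy⟩ := hx
    refine hK1 x (hgen K1 T1 hT1 j' hj' θ hθ1 hθ2 (ι x) y hy.symm)

end four

end Pool.Agent.Helper34.Str
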