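import Pool.Agent.Helper34.Str.V

/-!
# Generic embeddings
-/

set_option autoImplicit false
set_option linter.unusedSectionVars false
set_option linter.style.haveILetI false

namespace Pool.Agent.Helper34.Str

universe u

section alg

variable {E : Type*} [Field E]

theorem ov_iff {K : Subfield E} {P : Polynomial E} : Ov K P ↔ ∀ n, P.coeff n ∈ K := by
  unfold Ov
  rw [Polynomial.lifts_iff_coeff_lifts]
  refine forall_congr' fun n => ?_
  constructor
  · rintro ⟨a, ha⟩; rw [← ha]; exact a.2
  · intro h; exact ⟨⟨_, h⟩, rfl⟩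

theorem alg_iff {K : Subfield E} {x : E} :
    IsAlgebraic K x ↔ ∃ P : Polynomial E, Ov K P ∧ P ≠ 0 ∧ P.eval x = 0 := by
  constructor
  · rintro ⟨P, hP, hx⟩
    refine ⟨P.map K.subtype, (Polynomial.mem_lifts _).2 ⟨P, rfl⟩, ?_, ?_⟩
    · rwa [Polynomial.map_ne_zero_iff K.subtype_injective]
    · rw [Polynomial.eval_map]; exact hx
  · rintro ⟨P, hP, hP0, hx⟩
    obtain ⟨Q, rfl⟩ := (Polynomial.mem_lifts _).1 hP
    refine ⟨Q, ?_, ?_⟩
    · rintro rfl; simp at hP0
    · rw [Polynomial.eval_map] at hx; exact hx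

theorem alg_mono {K L : Subfield E} (h : K ≤ L) {x : E} (hx : IsAlgebraic K x) :
    IsAlgebraic L x := by
  rw [alg_iff] at hx ⊢
  obtain ⟨P, hP, h1, h2⟩ := hx
  exact ⟨P, ov_iff.2 fun n => h (ov_iff.1 hP n), h1, h2⟩

theorem alg_self {K : Subfield E} {x : E} (hx : x ∈ K) : IsAlgebraic K x :=
  isAlgebraic_algebraMap (⟨x, hx⟩ : K)

theorem alg_map {E1 : Type*} [Field E1] (φ : E →+* E1) {K : Subfield E} {L : Subfield E1}
    (h : ∀ k ∈ K, φ k ∈ L) {x : E} (hx : IsAlgebraic K x) : IsAlgebraic L (φ x) := by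
  rw [alg_iff] at hx ⊢
  obtain ⟨P, hP, h1, h2⟩ := hx
  refine ⟨P.map φ, ov_iff.2 fun n => ?_, ?_, ?_⟩
  · rw [Polynomial.coeff_map]; exact h _ (ov_iff.1 hP n)
  · rwa [Polynomial.map_ne_zero_iff φ.injective]
  · rw [Polynomial.eval_map, Polynomial.eval₂_at_apply, h2, map_zero]

/-- relative algebraic closure as a subfield -/
noncomputable def rac (L : Subfield E) : Subfield E := (algebraicClosure L E).toSubfield

theorem mem_rac {L : Subfield E} {x : E} : x ∈ rac L ↔ IsAlgebraic L x := by
  unfold rac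
  rw [IntermediateField.mem_toSubfield, mem_algebraicClosure_iff]

theorem rac_rac {L : Subfield E} {x : E} (h : IsAlgebraic (rac L) x) : IsAlgebraic L x := by
  have h1 : x ∈ algebraicClosure (algebraicClosure L E) E := by
    rw [mem_algebraicClosure_iff]; exact h
  rw [algebraicClosure.algebraicClosure_eq_bot, IntermediateField.mem_bot] at h1
  obtain ⟨y, rfl⟩ := h1
  exact mem_algebraicClosure_iff.1 y.2

theorem alg_trans' {K L : Subfield E} (h : ∀ y ∈ K, IsAlgebraic L y) {x : E}
    (hx : IsAlgebraic K x) : IsAlgebraic L x :=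
  rac_rac (alg_mono (fun y hy => mem_rac.2 (h y hy)) hx)

theorem alg_closure {L : Subfield E} {s : Set E} (h : ∀ y ∈ s, IsAlgebraic L y) :
    ∀ y ∈ Subfield.closure s, IsAlgebraic L y := by
  intro y hy
  have : Subfield.closure s ≤ rac L := (Subfield.closure_le).2 fun z hz => mem_rac.2 (h z hz)
  exact mem_rac.1 (this hy)

theorem mem_of_alg {E' : Subfield E} (hE' : IsAlgClosed E') {x : E} (h : IsAlgebraic E' x) :
    x ∈ E' := by
  have h1 : IsIntegral E' x := h.isIntegral
  have h2 := IsAlgClosed.degree_eq_one_of_irreducible E' (minpoly.irreducible h1)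
  obtain ⟨y, hy⟩ := minpoly.mem_range_of_degree_eq_one E' x h2
  rw [← hy]
  exact y.2

theorem fieldRange_algClosed {E E1 : Type u} [Field E] [Field E1] [IsAlgClosed E] (φ : E →+* E1) :
    IsAlgClosed φ.fieldRange :=
  IsAlgClosed.of_ringEquiv E φ.fieldRange (RingEquiv.ofBijective φ.rangeRestrictField
    ⟨φ.rangeRestrictField.injective, φ.rangeRestrictField_bijective.2⟩)

end alg

section mv

open MvPolynomial

/-- algebraic over `K[x]` for an algebraically independent family -/
theorem exists_mvpoly {K A ι : Type*} [Field K] [Field A] [Algebra K A] {x : ι → A}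
    (hx : AlgebraicIndependent K x) {a : A}
    (ha : IsAlgebraic (Algebra.adjoin K (Set.range x)) a) :
    ∃ P : Polynomial (MvPolynomial ι K), P ≠ 0 ∧
      P.eval₂ (MvPolynomial.aeval x : MvPolynomial ι K →ₐ[K] A).toRingHom a = 0 := by
  obtain ⟨P0, hP0, h⟩ := ha
  refine ⟨P0.map (hx.aevalEquiv.symm.toRingEquiv : _ →+* MvPolynomial ι K), ?_, ?_⟩
  · rwa [Polynomial.map_ne_zero_iff]
    exact hx.aevalEquiv.symm.injective
  · rw [Polynomial.eval₂_map]
    have : (MvPolynomial.aeval x : MvPolynomial ι K →ₐ[K] A).toRingHom.comp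
        (hx.aevalEquiv.symm.toRingEquiv : _ →+* MvPolynomial ι K) =
        algebraMap (Algebra.adjoin K (Set.range x)) A := by
      ext y
      obtain ⟨z, hz⟩ := hx.aevalEquiv.surjective y
      rw [← hz]
      change MvPolynomial.aeval x (hx.aevalEquiv.symm (hx.aevalEquiv z)) = _
      rw [AlgEquiv.symm_apply_apply]
      rfl
    rw [this]
    exact h

theorem alg_of_eval₂ {E E1 T : Type*} [Field E] [Field E1] (F : Subfield E)
    (j : MvPolynomial T E →+* E1) (hj : Function.Injective j) (x : E)
    (P : Polynomial (MvPolynomial T F)) (hP : P ≠ 0)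
    (h : P.eval₂ (j.comp (MvPolynomial.map F.subtype)) (j (C x)) = 0) : IsAlgebraic F x := by
  classical
  rw [← Polynomial.hom_eval₂] at h
  have h1 : P.eval₂ (MvPolynomial.map F.subtype) (C x : MvPolynomial T E) = 0 :=
    hj (by rw [h, map_zero])
  obtain ⟨k, hk⟩ : ∃ k, P.coeff k ≠ 0 := by
    by_contra hcon
    push Not at hcon
    exact hP (Polynomial.ext fun n => by rw [hcon n, Polynomial.coeff_zero])
  obtain ⟨m, hm⟩ : ∃ m, (P.coeff k).coeff m ≠ 0 := by
    by_contra hcon
    push Not at hcon
    exact hk (MvPolynomial.ext _ _ fun n => by rw [hcon n, MvPolynomial.coeff_zero])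
  refine ⟨∑ n ∈ P.support, Polynomial.monomial n ((P.coeff n).coeff m), ?_, ?_⟩
  · intro h0
    have h2 := congrArg (fun Q => Polynomial.coeff Q k) h0
    simp only [Polynomial.finsetSum_coeff, Polynomial.coeff_monomial, Polynomial.coeff_zero] at h2
    rw [Finset.sum_eq_single k] at h2
    · rw [if_pos rfl] at h2
      exact hm h2
    · intro b _ hb; rw [if_neg hb]
    · intro hn
      rw [Polynomial.notMem_support_iff] at hn
      exact absurd hn hk
  · have h2 := congrArg (MvPolynomial.coeff m) h1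
    rw [Polynomial.eval₂_eq_sum, Polynomial.sum_def, MvPolynomial.coeff_sum,
      MvPolynomial.coeff_zero] at h2
    rw [map_sum, ← h2]
    refine Finset.sum_congr rfl fun n _ => ?_
    rw [Polynomial.aeval_monomial, ← map_pow, mul_comm (MvPolynomial.map _ _),
      MvPolynomial.coeff_C_mul, MvPolynomial.coeff_map, mul_comm]
    rfl

theorem alg_of_closure {E E1 T : Type*} [Field E] [Field E1] (F : Subfield E)
    (j : MvPolynomial T E →+* E1) (hj : Function.Injective j) (x : E)
    (h : IsAlgebraic (Subfield.closure ((fun a => j (C a)) '' (F : Set E) ∪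
      Set.range fun b => j (X b))) (j (C x))) : IsAlgebraic F x := by
  classical
  let g : MvPolynomial T F →+* E1 := j.comp (MvPolynomial.map F.subtype)
  have hg : Function.Injective g := hj.comp (MvPolynomial.map_injective _ F.subtype_injective)
  let gF : FractionRing (MvPolynomial T F) →+* E1 := IsFractionRing.lift hg
  have hgF : ∀ a, gF (algebraMap _ _ a) = g a := fun a => IsFractionRing.lift_algebraMap hg a
  have hle : Subfield.closure ((fun a => j (C a)) '' (F : Set E) ∪
      Set.range fun b => j (X b)) ≤ gF.fieldRange := by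
    rw [Subfield.closure_le]
    rintro _ (⟨a, ha, rfl⟩ | ⟨b, rfl⟩)
    · refine ⟨algebraMap _ _ (C (⟨a, ha⟩ : F) : MvPolynomial T F), ?_⟩
      rw [hgF]
      change j (MvPolynomial.map F.subtype (C _)) = _
      rw [MvPolynomial.map_C]; rfl
    · refine ⟨algebraMap _ _ (X b : MvPolynomial T F), ?_⟩
      rw [hgF]
      change j (MvPolynomial.map F.subtype (X _)) = _
      rw [MvPolynomial.map_X]
  obtain ⟨P0, hP0, h0⟩ := alg_mono hle h
  letI : Algebra (FractionRing (MvPolynomial T F)) E1 := gF.toAlgebra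
  letI : Algebra (MvPolynomial T F) E1 := g.toAlgebra
  haveI : IsScalarTower (MvPolynomial T F) (FractionRing (MvPolynomial T F)) E1 :=
    IsScalarTower.of_algebraMap_eq fun a => (hgF a).symm
  have h1 : IsAlgebraic (FractionRing (MvPolynomial T F)) (j (C x)) := by
    obtain ⟨P1, hP1⟩ := Polynomial.map_surjective gF.rangeRestrictField
      gF.rangeRestrictField_bijective.2 P0
    refine ⟨P1, ?_, ?_⟩
    · rintro rfl
      rw [Polynomial.map_zero] at hP1
      exact hP0 hP1.symm
    · rw [← hP1, Polynomial.aeval_def, Polynomial.eval₂_map] at h0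
      exact h0
  rw [← IsFractionRing.isAlgebraic_iff (MvPolynomial T F)] at h1
  obtain ⟨P, hP, hPx⟩ := h1
  exact alg_of_eval₂ F j hj x P hP hPx

theorem exists_phi {E E1 : Type*} [Field E] [Field E1] [IsAlgClosed E1] (K : Subfield E)
    (T : Set E) (hT : IsTranscendenceBasis K ((↑) : T → E)) (j : MvPolynomial T E →+* E1)
    (hj : Function.Injective j) :
    ∃ φ : E →+* E1, (∀ a ∈ K, φ a = j (C a)) ∧ ∀ b : T, φ b = j (X b) := by
  have hinj := algebraicIndependent_iff_injective_aeval.1 hT.1
  letI : Algebra (MvPolynomial T K) E :=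
    (MvPolynomial.aeval ((↑) : T → E) : MvPolynomial T K →ₐ[K] E).toRingHom.toAlgebra
  let g : MvPolynomial T K →+* E1 := j.comp (MvPolynomial.map K.subtype)
  have hg : Function.Injective g := hj.comp (MvPolynomial.map_injective _ K.subtype_injective)
  letI : Algebra (MvPolynomial T K) E1 := g.toAlgebra
  haveI : Algebra.IsAlgebraic (MvPolynomial T K) E := by
    constructor
    intro a
    obtain ⟨P, hP, h⟩ := exists_mvpoly hT.1 (hT.isAlgebraic.1 a)
    exact ⟨P, hP, h⟩
  haveI : FaithfulSMul (MvPolynomial T K) E := (faithfulSMul_iff_algebraMap_injective _ _).2 hinj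
  haveI : FaithfulSMul (MvPolynomial T K) E1 := (faithfulSMul_iff_algebraMap_injective _ _).2 hg
  haveI : Module.IsTorsionFree (MvPolynomial T K) E := FaithfulSMul.to_isTorsionFree _ _
  haveI : Module.IsTorsionFree (MvPolynomial T K) E1 := FaithfulSMul.to_isTorsionFree _ _
  let φ : E →ₐ[MvPolynomial T K] E1 := IsAlgClosed.lift
  refine ⟨φ.toRingHom, fun a ha => ?_, fun b => ?_⟩
  · have h1 := φ.commutes (C ⟨a, ha⟩)
    have h2 : algebraMap (MvPolynomial T K) E (C ⟨a, ha⟩) = a := by
      change MvPolynomial.aeval _ (C _) = _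
      rw [MvPolynomial.aeval_C]; rfl
    have h3 : algebraMap (MvPolynomial T K) E1 (C ⟨a, ha⟩) = j (C a) := by
      change j (MvPolynomial.map K.subtype (C _)) = _
      rw [MvPolynomial.map_C]; rfl
    rw [h2, h3] at h1
    exact h1
  · have h1 := φ.commutes (X b)
    have h2 : algebraMap (MvPolynomial T K) E (X b) = b := by
      change MvPolynomial.aeval _ (X _) = _
      rw [MvPolynomial.aeval_X]
    have h3 : algebraMap (MvPolynomial T K) E1 (X b) = j (X b) := by
      change j (MvPolynomial.map K.subtype (X _)) = _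
      rw [MvPolynomial.map_X]
    rw [h2, h3] at h1
    exact h1

end mv

end Pool.Agent.Helper34.Str
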