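import Mathlib

/-!
# Rational functions of small height and of large Frobenius powers
-/

set_option autoImplicit false
set_option linter.unusedSectionVars false
set_option linter.style.haveILetI false

namespace Pool.Agent.Helper34.Str

open Polynomial

section hle

variable {k : Type*} [Field k]

/-- height at most `m` -/
def hle (x : RatFunc k) (m : ℕ) : Prop :=
  ∃ f g : k[X], g ≠ 0 ∧ x * algebraMap k[X] (RatFunc k) g = algebraMap k[X] (RatFunc k) f ∧
    f.natDegree ≤ m ∧ g.natDegree ≤ m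

theorem am_ne {g : k[X]} (hg : g ≠ 0) : algebraMap k[X] (RatFunc k) g ≠ 0 := by
  exact (map_ne_zero_iff _ (IsFractionRing.injective k[X] (RatFunc k))).2 hg

theorem hle.mono {x : RatFunc k} {m n : ℕ} (h : hle x m) (hmn : m ≤ n) : hle x n := by
  obtain ⟨f, g, h1, h2, h3, h4⟩ := h
  exact ⟨f, g, h1, h2, h3.trans hmn, h4.trans hmn⟩

theorem hle_C (c : k) : hle (algebraMap k (RatFunc k) c) 0 := by
  refine ⟨Polynomial.C c, 1, one_ne_zero, ?_, by simp, by simp⟩
  rw [map_one, mul_one]
  rfl

theorem hle_zero : hle (0 : RatFunc k) 0 :=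
  ⟨0, 1, one_ne_zero, by simp, by simp, by simp⟩

theorem hle_one : hle (1 : RatFunc k) 0 :=
  ⟨1, 1, one_ne_zero, by simp, by simp, by simp⟩

theorem hle.mul {x y : RatFunc k} {m n : ℕ} (hx : hle x m) (hy : hle y n) :
    hle (x * y) (m + n) := by
  obtain ⟨f, g, h1, h2, h3, h4⟩ := hx
  obtain ⟨f', g', h1', h2', h3', h4'⟩ := hy
  refine ⟨f * f', g * g', mul_ne_zero h1 h1', ?_, ?_, ?_⟩
  · rw [map_mul, map_mul, ← h2, ← h2']; ring
  · exact natDegree_mul_le.trans (by omega)
  · exact natDegree_mul_le.trans (by omega)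

theorem hle.add {x y : RatFunc k} {m n : ℕ} (hx : hle x m) (hy : hle y n) :
    hle (x + y) (m + n) := by
  obtain ⟨f, g, h1, h2, h3, h4⟩ := hx
  obtain ⟨f', g', h1', h2', h3', h4'⟩ := hy
  refine ⟨f * g' + f' * g, g * g', mul_ne_zero h1 h1', ?_, ?_, ?_⟩
  · rw [map_mul, map_add, map_mul, map_mul, ← h2, ← h2']; ring
  · refine (natDegree_add_le _ _).trans (max_le ?_ ?_)
    · exact natDegree_mul_le.trans (by omega)
    · exact natDegree_mul_le.trans (by omega)
  · exact natDegree_mul_le.trans (by omega)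

theorem hle.neg {x : RatFunc k} {m : ℕ} (hx : hle x m) : hle (-x) m := by
  obtain ⟨f, g, h1, h2, h3, h4⟩ := hx
  refine ⟨-f, g, h1, ?_, by rwa [natDegree_neg], h4⟩
  rw [map_neg, ← h2]; ring

theorem hle.inv {x : RatFunc k} {m : ℕ} (hx : hle x m) : hle x⁻¹ m := by
  obtain ⟨f, g, h1, h2, h3, h4⟩ := hx
  by_cases hf : f = 0
  · have : x = 0 := by
      rw [hf, map_zero] at h2
      rcases mul_eq_zero.1 h2 with h | h
      · exact h
      · exact absurd h (am_ne h1)
    rw [this, inv_zero]
    exact hle_zero.mono (Nat.zero_le _)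
  · refine ⟨g, f, hf, ?_, h4, h3⟩
    have hx0 : x ≠ 0 := by
      rintro rfl
      rw [zero_mul] at h2
      exact am_ne hf h2.symm
    rw [← h2, ← mul_assoc, inv_mul_cancel₀ hx0, one_mul]

theorem exists_common {α : Type*} (I : Finset α) (x : α → RatFunc k) (h : ℕ)
    (hx : ∀ i ∈ I, hle (x i) h) :
    ∃ g : k[X], g ≠ 0 ∧ g.natDegree ≤ I.card * h ∧ ∀ i ∈ I, ∃ f : k[X],
      x i * algebraMap k[X] (RatFunc k) g = algebraMap k[X] (RatFunc k) f ∧
        f.natDegree ≤ I.card * h := by
  classical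
  induction I using Finset.induction_on with
  | empty => exact ⟨1, one_ne_zero, by simp, by simp⟩
  | insert a I ha ih =>
    obtain ⟨g, hg, hgd, hf⟩ := ih fun i hi => hx i (Finset.mem_insert_of_mem hi)
    obtain ⟨f', g', h1, h2, h3, h4⟩ := hx a (Finset.mem_insert_self _ _)
    rw [Finset.card_insert_of_notMem ha, Nat.add_mul, one_mul]
    refine ⟨g * g', mul_ne_zero hg h1, natDegree_mul_le.trans (by omega), ?_⟩
    intro i hi
    rcases Finset.mem_insert.1 hi with rfl | hi
    · refine ⟨g * f', ?_, natDegree_mul_le.trans (by omega)⟩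
      rw [map_mul, map_mul, ← h2]; ring
    · obtain ⟨f, hf1, hf2⟩ := hf i hi
      refine ⟨f * g', ?_, natDegree_mul_le.trans (by omega)⟩
      rw [map_mul, map_mul, ← hf1]; ring

end hle

section decomp

variable {k : Type*} [Field k] [IsAlgClosed k]

theorem exists_decomp (q : ℕ) (hq : 0 < q) (Z : Finset k) (f : k[X]) (hf : f ≠ 0)
    (hZ : ∀ u, f.IsRoot u → u ∈ Z) :
    ∃ a b : k[X], f = a * b ^ q ∧ b ≠ 0 ∧ a ≠ 0 ∧ a.natDegree ≤ q * Z.card := by
  classical
  induction hn : f.natDegree using Nat.strong_induction_on generalizing f with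
  | _ n ih =>
    by_cases hu : ∃ u, (X - C u) ^ q ∣ f
    · obtain ⟨u, f1, hf1⟩ := hu
      have hf10 : f1 ≠ 0 := by rintro rfl; rw [mul_zero] at hf1; exact hf hf1
      have hdeg : f1.natDegree < n := by
        rw [← hn, hf1, natDegree_mul (pow_ne_zero _ (X_sub_C_ne_zero u)) hf10, natDegree_pow,
          natDegree_X_sub_C]
        omega
      obtain ⟨a, b, h1, h2, h3, h4⟩ := ih _ hdeg f1 hf10 (fun v hv => hZ v (by
        rw [hf1, IsRoot.def, eval_mul, hv.eq_zero, mul_zero])) rfl
      refine ⟨a, (X - C u) * b, ?_, mul_ne_zero (X_sub_C_ne_zero u) h2, h3, h4⟩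
      rw [hf1, h1, mul_pow]; ring
    · push Not at hu
      refine ⟨f, 1, by simp, one_ne_zero, hf, ?_⟩
      have h1 : f.natDegree = Multiset.card f.roots :=
        (IsAlgClosed.splits f).natDegree_eq_card_roots
      rw [h1, ← Multiset.toFinset_sum_count_eq]
      have h2 : ∀ u ∈ f.roots.toFinset, Multiset.count u f.roots ≤ q := by
        intro u _
        rw [count_roots]
        by_contra hcon
        push Not at hcon
        exact hu u ((pow_dvd_pow _ hcon.le).trans (pow_rootMultiplicity_dvd f u))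
      refine (Finset.sum_le_card_nsmul _ _ _ h2).trans ?_
      rw [smul_eq_mul, mul_comm]
      refine Nat.mul_le_mul_left _ (Finset.card_le_card fun u hu => ?_)
      rw [Multiset.mem_toFinset, mem_roots hf] at hu
      exact hZ u hu

theorem exists_decomp_rat (q : ℕ) (hq : 0 < q) (Z : Finset k) (γ : RatFunc k) (f g : k[X])
    (hf : f ≠ 0) (hg : g ≠ 0)
    (hγ : γ * algebraMap k[X] (RatFunc k) g = algebraMap k[X] (RatFunc k) f)
    (hZf : ∀ u, f.IsRoot u → u ∈ Z) (hZg : ∀ u, g.IsRoot u → u ∈ Z) :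
    ∃ a b : RatFunc k, γ = a * b ^ q ∧ hle a (q * Z.card) := by
  obtain ⟨a, b, h1, h2, h3, h4⟩ := exists_decomp q hq Z f hf hZf
  obtain ⟨a', b', h1', h2', h3', h4'⟩ := exists_decomp q hq Z g hg hZg
  refine ⟨algebraMap k[X] (RatFunc k) a / algebraMap k[X] (RatFunc k) a',
    algebraMap k[X] (RatFunc k) b / algebraMap k[X] (RatFunc k) b', ?_, ?_⟩
  · have := am_ne hg
    have h5 : γ = algebraMap k[X] (RatFunc k) f / algebraMap k[X] (RatFunc k) g := by
      rw [eq_div_iff this, hγ]
    rw [h5, h1, h1', map_mul, map_mul, map_pow, map_pow, div_pow, div_mul_div_comm]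
  · refine ⟨a, a', h3', ?_, h4, h4'⟩
    rw [div_mul_cancel₀ _ (am_ne h3')]

end decomp

section PL

variable (p : ℕ) [hp : Fact p.Prime] {k : Type*} [Field k] [CharP k p] [PerfectRing k p]

theorem PL {α : Type*} (e : ℕ) (I : Finset α) (x c : α → k[X]) (h : ℕ)
    (hx : ∀ i ∈ I, (x i).natDegree ≤ h) (hne : ∃ i ∈ I, x i ≠ 0)
    (hs : ∑ i ∈ I, x i * c i ^ p ^ e = 0) :
    ∃ y : α → k[X], (∀ i ∈ I, (y i ^ p ^ e).natDegree ≤ h + p ^ e) ∧ (∃ i ∈ I, y i ≠ 0) ∧
      ∑ i ∈ I, y i * c i = 0 := by
  classical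
  have hq : p ^ e ≠ 0 := (pow_pos (Fact.out : p.Prime).pos e).ne'
  set q := p ^ e with hqdef
  obtain ⟨i0, hi0, hne⟩ := hne
  obtain ⟨m, hm⟩ : ∃ m, (x i0).coeff m ≠ 0 := by
    by_contra hcon
    push Not at hcon
    exact hne (Polynomial.ext fun n => by rw [hcon n, coeff_zero])
  set s := (q - m % q) % q with hsdef
  have hsq : s < q := Nat.mod_lt _ (Nat.pos_of_ne_zero hq)
  obtain ⟨n, hn⟩ : ∃ n, m + s = n * q := by
    have h1 : (m + s) % q = 0 := by
      rw [hsdef, Nat.add_mod, Nat.mod_mod]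
      have h2 : m % q < q := Nat.mod_lt _ (Nat.pos_of_ne_zero hq)
      rcases Nat.eq_zero_or_pos (m % q) with h0 | h0
      · rw [h0]; simp
      · rw [Nat.mod_eq_of_lt (show q - m % q < q by omega)]
        rw [show m % q + (q - m % q) = q by omega, Nat.mod_self]
    obtain ⟨n, hn⟩ := Nat.dvd_of_mod_eq_zero h1
    exact ⟨n, by rw [hn, mul_comm]⟩
  let φ := iterateFrobeniusEquiv k p e
  let z : α → k[X] := fun i => contract q (x i * X ^ s)
  let y : α → k[X] := fun i => (z i).map (φ.symm : k →+* k)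
  have hzy : ∀ i, (y i).map (iterateFrobenius k p e) = z i := by
    intro i
    simp only [y]
    rw [Polynomial.map_map]
    have : (iterateFrobenius k p e).comp (φ.symm : k →+* k) = RingHom.id k := by
      ext a
      change iterateFrobenius k p e (φ.symm a) = a
      rw [← iterateFrobeniusEquiv_apply]
      exact φ.apply_symm_apply a
    rw [this, Polynomial.map_id]
  have hzdeg : ∀ i ∈ I, (z i).natDegree * q ≤ h + q := by
    intro i hi
    by_cases h0 : z i = 0
    · rw [h0, natDegree_zero, zero_mul]; exact Nat.zero_le _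
    · have h1 : (z i).coeff (z i).natDegree ≠ 0 := leadingCoeff_ne_zero.2 h0
      simp only [z] at h1
      rw [coeff_contract hq] at h1
      have h2 := le_natDegree_of_ne_zero h1
      have h3 : (x i * X ^ s).natDegree ≤ h + s := by
        refine natDegree_mul_le.trans ?_
        rw [natDegree_X_pow]
        have := hx i hi
        omega
      simp only [z]
      omega
  have hydeg : ∀ i, (y i).natDegree = (z i).natDegree := by
    intro i
    rw [← hzy i, natDegree_map_eq_of_injective (iterateFrobenius k p e).injective]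
  refine ⟨y, ?_, ⟨i0, hi0, ?_⟩, ?_⟩
  · intro i hi
    refine natDegree_pow_le.trans ?_
    rw [hydeg, mul_comm]
    exact hzdeg i hi
  · intro h0
    have h1 : z i0 = 0 := by rw [← hzy, h0, Polynomial.map_zero]
    have h2 := congrArg (fun P => coeff P n) h1
    simp only [z, coeff_zero] at h2
    rw [coeff_contract hq, ← hn, coeff_mul_X_pow] at h2
    exact hm h2
  · apply Polynomial.map_injective _ (iterateFrobenius k p e).injective
    rw [Polynomial.map_sum, Polynomial.map_zero]
    have h1 : contract q ((∑ i ∈ I, x i * c i ^ q) * X ^ s) = 0 := by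
      rw [hs, zero_mul]
      simp [contract]
    have hcsum : ∀ (J : Finset α) (g : α → k[X]), contract q (∑ i ∈ J, g i) =
        ∑ i ∈ J, contract q (g i) := by
      intro J g
      induction J using Finset.induction_on with
      | empty => simp [contract]
      | insert a J ha ih => rw [Finset.sum_insert ha, Finset.sum_insert ha, contract_add hq, ih]
    rw [Finset.sum_mul, hcsum] at h1
    rw [← h1]
    refine Finset.sum_congr rfl fun i _ => ?_
    rw [Polynomial.map_mul, hzy]
    have h2 : c i ^ q = expand k q ((c i).map (iterateFrobenius k p e)) := by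
      rw [← Polynomial.map_expand, hqdef, map_iterateFrobenius_expand]
    rw [h2, show x i * expand k q ((c i).map (iterateFrobenius k p e)) * X ^ s =
      (x i * X ^ s) * expand k q ((c i).map (iterateFrobenius k p e)) by ring,
      contract_mul_expand hq]

theorem PL' {α : Type*} (e : ℕ) (I : Finset α) (x c : α → RatFunc k) (h : ℕ)
    (hx : ∀ i ∈ I, hle (x i) h) (hne : ∃ i ∈ I, x i ≠ 0)
    (hs : ∑ i ∈ I, x i * c i ^ p ^ e = 0) :
    ∃ y : α → RatFunc k, (∀ i ∈ I, hle (y i ^ p ^ e) (I.card * h + p ^ e)) ∧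
      (∃ i ∈ I, y i ≠ 0) ∧ ∑ i ∈ I, y i * c i = 0 := by
  classical
  obtain ⟨g, hg, hgd, hgx⟩ := exists_common I x h hx
  choose! f hf1 hf2 using hgx
  obtain ⟨b, hb⟩ := IsLocalization.exist_integer_multiples_of_finset (nonZeroDivisors k[X])
    (I.image c)
  have hb' : ∀ i ∈ I, ∃ u : k[X], algebraMap k[X] (RatFunc k) u =
      algebraMap k[X] (RatFunc k) b * c i := by
    intro i hi
    obtain ⟨u, hu⟩ := hb (c i) (Finset.mem_image_of_mem _ hi)
    refine ⟨u, ?_⟩
    rw [hu, Algebra.smul_def]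
  choose! u hu using hb'
  have hinj : Function.Injective (algebraMap k[X] (RatFunc k)) := IsFractionRing.injective _ _
  have hb0 : algebraMap k[X] (RatFunc k) b ≠ 0 := am_ne (nonZeroDivisors.ne_zero b.2)
  obtain ⟨y, hy1, ⟨i1, hi1, hy2⟩, hy3⟩ := PL p e I f u (I.card * h) hf2
    (by
      obtain ⟨i, hi, hne⟩ := hne
      refine ⟨i, hi, fun h0 => ?_⟩
      have := hf1 i hi
      rw [h0, map_zero] at this
      rcases mul_eq_zero.1 this with h | h
      · exact hne h
      · exact am_ne hg h)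
    (by
      apply hinj
      rw [map_sum, map_zero]
      have h1 : ∑ i ∈ I, algebraMap k[X] (RatFunc k) (f i * u i ^ p ^ e) =
          algebraMap k[X] (RatFunc k) g * algebraMap k[X] (RatFunc k) b ^ p ^ e *
            ∑ i ∈ I, x i * c i ^ p ^ e := by
        rw [Finset.mul_sum]
        refine Finset.sum_congr rfl fun i hi => ?_
        rw [map_mul, map_pow, hu i hi, ← hf1 i hi]
        ring
      rw [h1, hs, mul_zero])
  refine ⟨fun i => algebraMap k[X] (RatFunc k) (y i), ?_, ⟨i1, hi1, am_ne hy2⟩, ?_⟩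
  · intro i hi
    refine ⟨y i ^ p ^ e, 1, one_ne_zero, by rw [map_one, mul_one, map_pow], hy1 i hi, by simp⟩
  · have h1 := congrArg (algebraMap k[X] (RatFunc k)) hy3
    rw [map_sum, map_zero] at h1
    have h2 : ∑ i ∈ I, algebraMap k[X] (RatFunc k) (y i * u i) =
        algebraMap k[X] (RatFunc k) b * ∑ i ∈ I, algebraMap k[X] (RatFunc k) (y i) * c i := by
      rw [Finset.mul_sum]
      refine Finset.sum_congr rfl fun i hi => ?_
      rw [map_mul, hu i hi]
      ring
    rw [h2] at h1
    rcases mul_eq_zero.1 h1 with h | h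
    · exact absurd h hb0
    · exact h

end PL

end Pool.Agent.Helper34.Str
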