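import Pool.Agent.Helper34.AddMason
import Pool.Agent.Helper34.Str.Rat

/-!
# Heights over the rational function field
-/

set_option autoImplicit false
set_option linter.unusedSectionVars false
set_option linter.style.haveILetI false

namespace Pool.Agent.Helper34.Str

open Pool.Agent.Helper33 Pool.Agent.Helper34.Add Finset Polynomial

section ht

variable {p : ℕ} {k L V : Type} [Field k] [Field L] [Algebra k L] [Algebra (RatFunc k) L]
  [IsScalarTower k (RatFunc k) L] (S : PlaceSys p k L V)

/-- the image of the variable -/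
noncomputable def tt (k L : Type) [Field k] [Field L] [Algebra (RatFunc k) L] : L :=
  algebraMap (RatFunc k) L RatFunc.X

theorem am_aeval (f : k[X]) :
    algebraMap (RatFunc k) L (algebraMap k[X] (RatFunc k) f) = aeval (tt k L) f := by
  induction f using Polynomial.induction_on' with
  | add P Q hP hQ => rw [map_add, map_add, map_add, hP, hQ]
  | monomial n a =>
    rw [aeval_monomial, ← C_mul_X_pow_eq_monomial, map_mul, map_mul, map_pow, map_pow,
      RatFunc.algebraMap_X, IsScalarTower.algebraMap_apply k (RatFunc k) L]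
    rfl

theorem ne_of_poly {f : k[X]} (hf : f ≠ 0) :
    algebraMap (RatFunc k) L (algebraMap k[X] (RatFunc k) f) ≠ 0 :=
  (_root_.map_ne_zero _).2 (am_ne hf)

variable (hconst : ∀ c : k, c ≠ 0 → ∀ v, (S.pl v).o (algebraMap k L c) = 0) {D : ℕ}
  (hdeg : ∀ T, hT S T (tt k L) ≤ D)

include hconst

theorem poly_le (f : k[X]) (v : V) :
    Le (S.pl v) (f.natDegree * max 0 (-((S.pl v).o (tt k L) : ℚ))) (aeval (tt k L) f) := by
  set m := max 0 (-((S.pl v).o (tt k L) : ℚ)) with hm
  have hm0 : 0 ≤ m := le_max_left _ _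
  rw [aeval_eq_sum_range]
  have key : ∀ J : Finset ℕ, (∀ i ∈ J, i ≤ f.natDegree) →
      Le (S.pl v) (f.natDegree * m) (∑ i ∈ J, f.coeff i • tt k L ^ i) := by
    intro J hJ
    induction J using Finset.induction_on with
    | empty => rw [Finset.sum_empty]; exact Le.zero _
    | insert a J ha ih =>
      rw [Finset.sum_insert ha]
      refine Le.add ?_ (ih fun i hi => hJ i (Finset.mem_insert_of_mem hi))
      have h1 : Le (S.pl v) 0 (algebraMap k L (f.coeff a)) := by
        by_cases hc : f.coeff a = 0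
        · rw [hc, map_zero]; exact Le.zero _
        · right; rw [hconst _ hc v]; simp
      have h2 : Le (S.pl v) m (tt k L) := Or.inr (le_max_right _ _)
      have h3 := h1.mul (h2.pow a)
      rw [Algebra.smul_def]
      refine h3.mono ?_
      rw [zero_add]
      refine mul_le_mul_of_nonneg_right ?_ hm0
      exact_mod_cast hJ a (Finset.mem_insert_self _ _)
  exact key _ fun i hi => by rw [mem_range] at hi; omega

include hdeg

theorem hT_poly (T : Finset V) (f : k[X]) (hf : f ≠ 0) :
    hT S T (aeval (tt k L) f) ≤ f.natDegree * D := by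
  have hne : aeval (tt k L) f ≠ 0 := by rw [← am_aeval]; exact ne_of_poly hf
  calc hT S T (aeval (tt k L) f)
      ≤ ∑ v ∈ T, f.natDegree * max 0 (-((S.pl v).o (tt k L) : ℚ)) := by
        refine Finset.sum_le_sum fun v _ => max_le ?_ ((poly_le S hconst f v).of_ne hne)
        exact mul_nonneg (Nat.cast_nonneg _) (le_max_left _ _)
    _ = f.natDegree * hT S T (tt k L) := by rw [hT, Finset.mul_sum]
    _ ≤ f.natDegree * D := mul_le_mul_of_nonneg_left (hdeg T) (Nat.cast_nonneg _)

theorem hT_poly' (T : Finset V) (f : k[X]) (hf : f ≠ 0) :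
    ∑ v ∈ T, max 0 ((S.pl v).o (aeval (tt k L) f) : ℚ) ≤ f.natDegree * D := by
  classical
  have hne : aeval (tt k L) f ≠ 0 := by rw [← am_aeval]; exact ne_of_poly hf
  obtain ⟨T', hT'⟩ := exists_Sup S _ hne
  have h1 := prod_formula S (T ∪ T') _ hne (hT'.mono S Finset.subset_union_right)
  have h2 := hT_poly S hconst hdeg (T ∪ T') f hf
  have h3 : ∑ v ∈ T ∪ T', max 0 ((S.pl v).o (aeval (tt k L) f) : ℚ) =
      hT S (T ∪ T') (aeval (tt k L) f) := by
    have h4 : ∑ v ∈ T ∪ T', (max 0 ((S.pl v).o (aeval (tt k L) f) : ℚ) -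
        max 0 (-((S.pl v).o (aeval (tt k L) f) : ℚ))) = 0 := by
      refine Eq.trans (Finset.sum_congr rfl fun v _ => ?_) h1
      rcases le_total 0 ((S.pl v).o (aeval (tt k L) f) : ℚ) with h | h
      · rw [max_eq_right h, max_eq_left (by linarith)]; ring
      · rw [max_eq_left h, max_eq_right (by linarith)]; ring
    rw [Finset.sum_sub_distrib] at h4
    unfold hT
    linarith
  calc ∑ v ∈ T, max 0 ((S.pl v).o (aeval (tt k L) f) : ℚ)
      ≤ ∑ v ∈ T ∪ T', max 0 ((S.pl v).o (aeval (tt k L) f) : ℚ) :=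
        Finset.sum_le_sum_of_subset_of_nonneg Finset.subset_union_left
          fun _ _ _ => le_max_left _ _
    _ ≤ _ := by rw [h3]; exact h2

theorem hT_hle (T : Finset V) {a : RatFunc k} {m : ℕ} (ha : hle a m) (ha0 : a ≠ 0) :
    hT S T (algebraMap (RatFunc k) L a) ≤ 2 * m * D := by
  obtain ⟨f, g, hg, hfg, hfm, hgm⟩ := ha
  have hf : f ≠ 0 := by
    rintro rfl
    rw [map_zero] at hfg
    rcases mul_eq_zero.1 hfg with h | h
    · exact ha0 h
    · exact am_ne hg h
  have hA : algebraMap (RatFunc k) L a ≠ 0 := (_root_.map_ne_zero _).2 ha0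
  have hF : aeval (tt k L) f ≠ 0 := by rw [← am_aeval]; exact ne_of_poly hf
  have hG : aeval (tt k L) g ≠ 0 := by rw [← am_aeval]; exact ne_of_poly hg
  have hrel : algebraMap (RatFunc k) L a * aeval (tt k L) g = aeval (tt k L) f := by
    rw [← am_aeval, ← am_aeval, ← map_mul, hfg]
  have h1 : ∀ v, (S.pl v).o (algebraMap (RatFunc k) L a) =
      (S.pl v).o (aeval (tt k L) f) - (S.pl v).o (aeval (tt k L) g) := by
    intro v
    rw [← hrel, (S.pl v).mul _ _ hA hG]; ring
  have h2 := hT_poly S hconst hdeg T f hf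
  have h3 := hT_poly' S hconst hdeg T g hg
  have h4 : hT S T (algebraMap (RatFunc k) L a) ≤ hT S T (aeval (tt k L) f) +
      ∑ v ∈ T, max 0 ((S.pl v).o (aeval (tt k L) g) : ℚ) := by
    unfold hT
    rw [← Finset.sum_add_distrib]
    refine Finset.sum_le_sum fun v _ => ?_
    rw [h1 v]
    push_cast
    have e1 := le_max_left 0 (-((S.pl v).o (aeval (tt k L) f) : ℚ))
    have e2 := le_max_right 0 (-((S.pl v).o (aeval (tt k L) f) : ℚ))
    have e3 := le_max_left 0 ((S.pl v).o (aeval (tt k L) g) : ℚ)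
    have e4 := le_max_right 0 ((S.pl v).o (aeval (tt k L) g) : ℚ)
    refine max_le (by linarith) (by linarith)
  have hD : (0 : ℚ) ≤ D := Nat.cast_nonneg _
  have h5 : (f.natDegree : ℚ) * D ≤ m * D :=
    mul_le_mul_of_nonneg_right (by exact_mod_cast hfm) hD
  have h6 : (g.natDegree : ℚ) * D ≤ m * D :=
    mul_le_mul_of_nonneg_right (by exact_mod_cast hgm) hD
  linarith

theorem hT_monic (T : Finset V) {z : L} (hz : z ≠ 0) (d m : ℕ) (a : Fin d → RatFunc k)
    (ha : ∀ j, hle (a j) m) (hrel : z ^ d = ∑ j, algebraMap (RatFunc k) L (a j) * z ^ (j : ℕ)) :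
    hT S T z ≤ 2 * D * d * m := by
  classical
  let A : Fin d → L := fun j => algebraMap (RatFunc k) L (a j)
  have hloc : ∀ v, max 0 (-((S.pl v).o z : ℚ)) ≤
      ∑ j ∈ univ.filter (fun j => a j ≠ 0), max 0 (-((S.pl v).o (A j) : ℚ)) := by
    intro v
    set R := ∑ j ∈ univ.filter (fun j => a j ≠ 0), max 0 (-((S.pl v).o (A j) : ℚ)) with hR
    have hR0 : 0 ≤ R := Finset.sum_nonneg fun _ _ => le_max_left _ _
    refine max_le hR0 ?_
    by_contra hcon
    push Not at hcon
    set w := -((S.pl v).o z : ℚ) with hw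
    have hw0 : 0 < w := lt_of_le_of_lt hR0 hcon
    -- each term is small
    have hterm : ∀ j : Fin d, Le (S.pl v) (R + ((d : ℚ) - 1) * w) (A j * z ^ (j : ℕ)) := by
      intro j
      by_cases hj : a j = 0
      · left
        simp only [A]
        rw [hj, map_zero, zero_mul]
      · have hA : A j ≠ 0 := (_root_.map_ne_zero _).2 hj
        have h1 : Le (S.pl v) R (A j) := by
          right
          refine (le_max_right 0 _).trans ?_
          exact Finset.single_le_sum (f := fun j => max 0 (-((S.pl v).o (A j) : ℚ)))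
            (fun _ _ => le_max_left _ _) (Finset.mem_filter.2 ⟨Finset.mem_univ _, hj⟩)
        have h2 := (h1.mul ((Le.self (v := S.pl v) z).pow (j : ℕ)))
        refine h2.mono ?_
        have h3 : ((j : ℕ) : ℚ) ≤ (d : ℚ) - 1 := by
          have := j.2
          have h4 : ((j : ℕ) : ℚ) + 1 ≤ d := by exact_mod_cast this
          linarith
        have := mul_le_mul_of_nonneg_right h3 hw0.le
        linarith
    have hsum : ∀ J : Finset (Fin d), Le (S.pl v) (R + ((d : ℚ) - 1) * w)
        (∑ j ∈ J, A j * z ^ (j : ℕ)) := by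
      intro J
      induction J using Finset.induction_on with
      | empty => rw [Finset.sum_empty]; exact Le.zero _
      | insert b J hb ih => rw [Finset.sum_insert hb]; exact (hterm b).add ih
    have h1 := hsum univ
    have h2 : ∑ j, A j * z ^ (j : ℕ) = z ^ d := hrel.symm
    rw [h2] at h1
    have h3 := h1.of_ne (pow_ne_zero d hz)
    rw [o_pow _ _ hz] at h3
    push_cast at h3
    have h4 : -((d : ℚ) * ((S.pl v).o z : ℚ)) = d * w := by rw [hw]; ring
    rw [h4] at h3
    linarith
  calc hT S T z ≤ ∑ v ∈ T, ∑ j ∈ univ.filter (fun j => a j ≠ 0), max 0 (-((S.pl v).o (A j) : ℚ)) :=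
        Finset.sum_le_sum fun v _ => hloc v
    _ = ∑ j ∈ univ.filter (fun j => a j ≠ 0), hT S T (A j) := by rw [Finset.sum_comm]; rfl
    _ ≤ ∑ j ∈ univ.filter (fun j => a j ≠ 0), (2 * m * D : ℚ) :=
        Finset.sum_le_sum fun j hj => hT_hle S hconst hdeg T (ha j) (Finset.mem_filter.1 hj).2
    _ = #(univ.filter (fun j => a j ≠ 0)) * (2 * m * D : ℚ) := by
        rw [Finset.sum_const, nsmul_eq_mul]
    _ ≤ d * (2 * m * D : ℚ) := by
        refine mul_le_mul_of_nonneg_right ?_ (by positivity)
        have : #(univ.filter (fun j : Fin d => a j ≠ 0)) ≤ d :=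
          (Finset.card_filter_le _ _).trans (by simp)
        exact_mod_cast this
    _ = 2 * D * d * m := by ring

end ht

end Pool.Agent.Helper34.Str
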