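import Pool.Agent.Helper16.FF9
import Pool.Agent.Helper34.Str.Rat

/-!
# Norms and supports
-/

set_option autoImplicit false
set_option linter.unusedSectionVars false
set_option linter.style.haveILetI false

namespace Pool.Agent.Helper34.Str

open Polynomial Pool.Agent.Helper16

section norm

variable (p : ℕ) [hp : Fact p.Prime] {F L Ω : Type*} [Field F] [CharP F p] [Field L] [Field Ω]
  [Algebra F L] [Algebra F Ω]

theorem sep_pow_mem [FiniteDimensional F L] (D : ℕ) (hD : Module.finrank F L ≤ D) (z : L) :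
    IsSeparable F (z ^ p ^ D) := by
  have hint : IsIntegral F z := Algebra.IsIntegral.isIntegral z
  have hirr := minpoly.irreducible hint
  obtain ⟨g, h1, n, h2⟩ := hirr.hasSeparableContraction p
  have hy : aeval (z ^ p ^ n) g = 0 := by
    have := congrArg (aeval z) h2
    rwa [expand_aeval, minpoly.aeval] at this
  have hsep : IsSeparable F (z ^ p ^ n) := h1.of_dvd (minpoly.dvd F _ hy)
  have hn : n ≤ D := by
    have h3 : (minpoly F z).natDegree ≤ D := (minpoly.natDegree_le z).trans hD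
    rw [← h2, natDegree_expand] at h3
    have h4 : 0 < g.natDegree := by
      have h5 := minpoly.natDegree_pos hint
      rw [← h2, natDegree_expand] at h5
      exact Nat.pos_of_mul_pos_right h5
    have h5 : n < p ^ n := Nat.lt_pow_self hp.out.one_lt
    nlinarith
  have h6 : z ^ p ^ D = (z ^ p ^ n) ^ p ^ (D - n) := by
    rw [← pow_mul, ← pow_add]; congr 2; omega
  rw [h6]
  rw [← mem_separableClosure_iff] at hsep ⊢
  exact pow_mem hsep _

theorem norm_mem [FiniteDimensional F L] [Normal F Ω] (D : ℕ) (hD : Module.finrank F L ≤ D)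
    [Fintype (L →ₐ[F] Ω)] (z : L) :
    ∃ γ : F, (∏ σ : L →ₐ[F] Ω, σ z) ^ p ^ D = algebraMap F Ω γ := by
  classical
  set x : Ω := (∏ σ : L →ₐ[F] Ω, σ z) ^ p ^ D with hx
  have hx' : x = ∏ σ : L →ₐ[F] Ω, σ (z ^ p ^ D) := by
    rw [hx, ← Finset.prod_pow]
    exact Finset.prod_congr rfl fun σ _ => (map_pow σ _ _).symm
  have hsep : IsSeparable F x := by
    rw [← mem_separableClosure_iff, hx']
    refine prod_mem fun σ _ => ?_
    rw [mem_separableClosure_iff]
    exact (sep_pow_mem p D hD z).map σ σ.injective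
  have hfix : ∀ τ : Ω ≃ₐ[F] Ω, τ x = x := by
    intro τ
    rw [hx', map_prod]
    let e : (L →ₐ[F] Ω) ≃ (L →ₐ[F] Ω) :=
      { toFun := fun σ => τ.toAlgHom.comp σ
        invFun := fun σ => τ.symm.toAlgHom.comp σ
        left_inv := fun σ => by ext y; simp
        right_inv := fun σ => by ext y; simp }
    exact Fintype.prod_equiv e _ _ fun σ => rfl
  have hmem : x ∈ (⊥ : Subalgebra F Ω) := by
    by_contra hcon
    rw [notMem_iff_exists_ne_and_isConjRoot hsep (Normal.splits' x)] at hcon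
    obtain ⟨y, hy, hc⟩ := hcon
    obtain ⟨τ, hτ⟩ := isConjRoot_iff_exists_algEquiv.1 hc
    apply hy
    have := hfix τ.symm
    rw [← hτ, AlgEquiv.symm_apply_apply] at this
    rw [← hτ]
    exact this.symm
  obtain ⟨γ, hγ⟩ := Algebra.mem_bot.1 hmem
  exact ⟨γ, hγ.symm⟩

end norm

section support

variable {k L : Type} {Ω : Type*} [Field k] [Field L] [Algebra k L] [Algebra (RatFunc k) L]
  [IsScalarTower k (RatFunc k) L] [Field Ω] [Algebra (RatFunc k) Ω]

theorem exists_vsub (u : k) : ∃ B : ValuationSubring Ω,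
    (∀ f : k[X], algebraMap (RatFunc k) Ω (algebraMap k[X] (RatFunc k) f) ∈ B) ∧
    (∀ f : k[X], f.IsRoot u →
      algebraMap (RatFunc k) Ω (algebraMap k[X] (RatFunc k) f) ∈ B.nonunits) ∧
    (∀ f : k[X], ¬ f.IsRoot u →
      algebraMap (RatFunc k) Ω (algebraMap k[X] (RatFunc k) f) ∉ B.nonunits) := by
  let g : k[X] →+* Ω := (algebraMap (RatFunc k) Ω).comp (algebraMap k[X] (RatFunc k))
  have hg : Function.Injective g :=
    (algebraMap (RatFunc k) Ω).injective.comp (IsFractionRing.injective k[X] (RatFunc k))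
  let A : Subring Ω := g.range
  let e : k[X] ≃+* A := RingEquiv.ofBijective g.rangeRestrict
    ⟨fun x y h => hg (congrArg Subtype.val h), g.rangeRestrict_surjective⟩
  let I : Ideal A := (Ideal.span {X - C u}).map (e : k[X] →+* A)
  have hI : I ≠ ⊤ := by
    intro h
    have h1 : Ideal.comap (e : k[X] →+* A) I = ⊤ := by rw [h]; rfl
    have h2 : Ideal.comap (e : k[X] →+* A) I = Ideal.span {X - C u} :=
      Ideal.comap_map_of_bijective (e : k[X] →+* A) e.bijective
    rw [h2, Ideal.span_singleton_eq_top] at h1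
    exact (Polynomial.not_isUnit_X_sub_C u) h1
  obtain ⟨B, hB1, hB2⟩ := Ideal.image_subset_nonunits_valuationSubring I hI
  have hmem : ∀ f : k[X], g f ∈ B := fun f => hB1 ⟨f, rfl⟩
  have hroot : ∀ f : k[X], f.IsRoot u → g f ∈ B.nonunits := by
    intro f hf
    apply hB2
    refine ⟨e f, ?_, rfl⟩
    refine Ideal.mem_map_of_mem _ ?_
    rw [Ideal.mem_span_singleton]
    exact dvd_iff_isRoot.2 hf
  refine ⟨B, hmem, hroot, ?_⟩
  intro f hf hcon
  change g f ∈ B.nonunits at hcon
  have h1 : g (f - C (f.eval u)) ∈ B.nonunits := hroot _ (by simp [IsRoot.def])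
  have h2 : g (C (f.eval u)) ∈ B.nonunits := by
    have : g (C (f.eval u)) = g f - g (f - C (f.eval u)) := by rw [← map_sub]; congr 1; ring
    rw [this]
    rw [ValuationSubring.mem_nonunits_iff] at hcon h1 ⊢
    exact lt_of_le_of_lt (B.valuation.map_sub _ _) (max_lt hcon h1)
  rw [ValuationSubring.mem_nonunits_iff] at h2
  have h3 : B.valuation (g (C (f.eval u)⁻¹)) ≤ 1 := (B.valuation_le_one_iff _).2 (hmem _)
  have h4 : g (C (f.eval u)) * g (C (f.eval u)⁻¹) = 1 := by
    rw [← map_mul, ← C_mul, mul_inv_cancel₀ hf, C_1, map_one]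
  have h5 := congrArg B.valuation h4
  rw [map_mul, map_one] at h5
  have h6 : B.valuation (g (C (f.eval u))) * B.valuation (g (C (f.eval u)⁻¹)) < 1 :=
    mul_lt_one_of_lt_of_le h2 h3
  rw [h5] at h6
  exact lt_irrefl _ h6

theorem place_of_vsub (hFF : IsFunctionField k L) (u : k) (B : ValuationSubring Ω)
    (hB1 : ∀ f : k[X], algebraMap (RatFunc k) Ω (algebraMap k[X] (RatFunc k) f) ∈ B)
    (hB2 : ∀ f : k[X], f.IsRoot u →
      algebraMap (RatFunc k) Ω (algebraMap k[X] (RatFunc k) f) ∈ B.nonunits)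
    (σ : L →ₐ[RatFunc k] Ω) (z : L) (hz : z ≠ 0)
    (hz1 : B.valuation (σ z) < 1 ∨ 1 < B.valuation (σ z)) :
    ∃ v : Place k L, v.val (algebraMap (RatFunc k) L RatFunc.X - algebraMap k L u) < 1 ∧
      v.ord z ≠ 0 := by
  let O : ValuationSubring L := B.comap σ.toRingHom
  have hO : ∀ x, x ∈ O ↔ σ x ∈ B := fun x => Iff.rfl
  have hk : ∀ a : k, algebraMap k L a ∈ O := by
    intro a
    rw [hO, IsScalarTower.algebraMap_apply k (RatFunc k) L, AlgHom.commutes]
    exact hB1 (C a)
  set w : L := algebraMap (RatFunc k) L RatFunc.X - algebraMap k L u with hw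
  have hwX : w = algebraMap (RatFunc k) L (algebraMap k[X] (RatFunc k) (X - C u)) := by
    rw [hw, map_sub, map_sub, RatFunc.algebraMap_X, IsScalarTower.algebraMap_apply k (RatFunc k) L]
    rfl
  have hw0 : w ≠ 0 := by
    rw [hwX]
    exact (_root_.map_ne_zero _).2 (am_ne (X_sub_C_ne_zero u))
  have hσw : B.valuation (σ w) < 1 := by
    rw [hwX, AlgHom.commutes, ← ValuationSubring.mem_nonunits_iff]
    exact hB2 _ (by simp [IsRoot.def])
  have hnotin : ∀ x : L, x ≠ 0 → B.valuation (σ x) < 1 → x⁻¹ ∉ O := by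
    intro x hx h1 h2
    rw [hO, ← B.valuation_le_one_iff, map_inv₀, map_inv₀] at h2
    have h3 : B.valuation (σ x) ≠ 0 := by
      rw [Ne, map_eq_zero, map_eq_zero]; exact hx
    have h4 := (one_lt_inv₀ (zero_lt_iff.2 h3)).2 h1
    exact absurd h2 (not_le.2 h4)
  obtain ⟨v, hv⟩ := hFF.exists_place O hk w⁻¹ (hnotin w hw0 hσw)
  have hval : ∀ x : L, x ≠ 0 → B.valuation (σ x) < 1 → v.val x < 1 := by
    intro x hx h1
    have h2 := hnotin x hx h1
    rw [← hv, map_inv₀, not_le] at h2
    have h3 : v.val x ≠ 0 := by rw [Ne, map_eq_zero]; exact hx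
    by_contra h4
    rw [not_lt] at h4
    exact absurd h2 (not_lt.2 (inv_le_one_of_one_le₀ h4))
  refine ⟨v, hval w hw0 hσw, ?_⟩
  rcases hz1 with h | h
  · have := (v.ord_pos_iff hz).2 (hval z hz h)
    omega
  · have h1 : B.valuation (σ z⁻¹) < 1 := by
      rw [map_inv₀, map_inv₀]
      exact inv_lt_one_of_one_lt₀ h
    have := (v.ord_pos_iff (inv_ne_zero hz)).2 (hval _ (inv_ne_zero hz) h1)
    rw [v.ord_inv] at this
    omega

theorem support (hFF : IsFunctionField k L) {ι : Type*} [Fintype ι]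
    (σ : ι → (L →ₐ[RatFunc k] Ω)) (z : L) (hz : z ≠ 0) (e : ℕ) (γ : RatFunc k)
    (hγ : (∏ s, σ s z) ^ e = algebraMap (RatFunc k) Ω γ) (u : k)
    (hu : γ.num.IsRoot u ∨ γ.denom.IsRoot u) :
    ∃ v : Place k L, v.val (algebraMap (RatFunc k) L RatFunc.X - algebraMap k L u) < 1 ∧
      v.ord z ≠ 0 := by
  classical
  obtain ⟨B, hB1, hB2, hB3⟩ := exists_vsub (Ω := Ω) u
  have hne : ∃ s, B.valuation (σ s z) < 1 ∨ 1 < B.valuation (σ s z) := by
    by_contra hcon
    push Not at hcon
    have h1 : ∀ s, B.valuation (σ s z) = 1 := fun s => le_antisymm (hcon s).2 (hcon s).1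
    have h2 : B.valuation (algebraMap (RatFunc k) Ω γ) = 1 := by
      rw [← hγ, map_pow, map_prod, Finset.prod_congr rfl fun s _ => h1 s]
      simp
    have h3 : γ * algebraMap k[X] (RatFunc k) γ.denom = algebraMap k[X] (RatFunc k) γ.num := by
      have h4 := RatFunc.num_div_denom γ
      rw [div_eq_iff (am_ne γ.denom_ne_zero)] at h4
      exact h4.symm
    have h4 := congrArg (fun x => B.valuation (algebraMap (RatFunc k) Ω x)) h3
    simp only [map_mul] at h4
    rw [h2, one_mul] at h4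
    have hcop := γ.isCoprime_num_denom
    have hnot : ¬ (γ.num.IsRoot u ∧ γ.denom.IsRoot u) := by
      rintro ⟨h5, h6⟩
      obtain ⟨a, b, hab⟩ := hcop
      have := congrArg (eval u) hab
      rw [eval_add, eval_mul, eval_mul, h5.eq_zero, h6.eq_zero, mul_zero, mul_zero, add_zero,
        eval_one] at this
      exact zero_ne_one this
    rcases hu with h5 | h5
    · have h6 : ¬ γ.denom.IsRoot u := fun h => hnot ⟨h5, h⟩
      have h7 := hB2 _ h5
      have h8 := hB3 _ h6
      rw [ValuationSubring.mem_nonunits_iff] at h7 h8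
      rw [h4] at h8
      exact h8 h7
    · have h6 : ¬ γ.num.IsRoot u := fun h => hnot ⟨h, h5⟩
      have h7 := hB2 _ h5
      have h8 := hB3 _ h6
      rw [ValuationSubring.mem_nonunits_iff] at h7 h8
      rw [h4] at h7
      exact h8 h7
  obtain ⟨s, hs⟩ := hne
  exact place_of_vsub hFF u B hB1 hB2 (σ s) z hz hs

end support

end Pool.Agent.Helper34.Str
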