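import Pool.Agent.Helper34.Str.KPO
import Pool.Agent.Helper34.Str.Norm
import Pool.Agent.Helper34.Str.Ht
import Pool.Agent.Helper34.AddPrim

/-!
# Proposition KP
-/

set_option autoImplicit false
set_option linter.unusedSectionVars false
set_option linter.style.haveILetI false

namespace Pool.Agent.Helper34.Str

open Pool.Agent.Helper33 Pool.Agent.Helper34.Add Pool.Agent.Helper16 Finset Polynomial
open IntermediateField

/-- the KP property -/
def KProp (p : ℕ) [Fact p.Prime] {k K V : Type} [Field k] [Field K] [Algebra k K] [CharP K p]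
    [Algebra (ZMod p) K] (S : PlaceSys p k K V) (r d : ℕ) (ε δ H1 : ℚ) : Prop :=
  ∀ (a : ℕ → K), a r ≠ 0 → ∀ y : K, y ≠ 0 → ∀ H : ℚ, H1 ≤ H → ∀ S₁ : Finset V, (#S₁ : ℚ) ≤ ε * H →
    (∀ c : Fin (d + 1) → ZMod p, c ≠ 0 → comb p r a (d + 1) y c ≠ 0) →
    (∀ v ∉ S₁, ∀ c : Fin (d + 1) → ZMod p, c ≠ 0 →
      (S.pl v).o (comb p r a (d + 1) y c) = (S.pl v).o y) →
    (∃ i : Fin (2 * r + 1), S.D ((Fe p r a ^ (i : ℕ)) y / y) ≠ 0) →
    ∀ (i : Fin (2 * r + 1)) (T : Finset V), hT S T ((Fe p r a ^ (i : ℕ)) y / y) ≤ δ * H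

/-- monotonicity of bad data -/
def Bad.mono {p : ℕ} [Fact p.Prime] {k : Type} [Field k] {Ω : Type} [Field Ω]
    [Algebra (RatFunc k) Ω] {ι : Type} [Fintype ι] {s0 : ι} {r e : ℕ} {δ c : ℝ} {n N : ℕ}
    (B : Bad p k Ω ι s0 r e δ c N) (h : n ≤ N) : Bad p k Ω ι s0 r e δ c n :=
  { z := B.z
    A := B.A
    H := B.H
    Lf := B.Lf
    hA := B.hA
    hz := B.hz
    hz1 := B.hz1
    hH := by
      have h1 := B.hH
      have h2 : (n : ℝ) ≤ N := by exact_mod_cast h
      linarith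
    hne := fun s Q hQ hd => B.hne s Q hQ (hd.trans h)
    hprod := by
      intro Q hQ hd
      obtain ⟨γ, f, g, Z, h1, h2, h3, h4, h5, h6, h7⟩ := B.hprod Q hQ (hd.trans h)
      refine ⟨γ, f, g, Z, h1, h2, h3, h4, h5, h6, le_trans ?_ h7⟩
      have h8 : (n : ℝ) ≤ N := by exact_mod_cast h
      exact mul_le_mul_of_nonneg_left (by linarith) (Nat.cast_nonneg _)
    hL := B.hL
    hLk := B.hLk
    h7a := B.h7a
    h7b := B.h7b }

section zz

variable (p : ℕ) [hp : Fact p.Prime] {K : Type} [Field K] [CharP K p] [Algebra (ZMod p) K]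

theorem Qc_of (d : ℕ) (Q : (ZMod p)[X]) (hQ : Q.natDegree ≤ d) :
    Qc p (d + 1) (fun i => Q.coeff i) = Q := by
  unfold Qc
  conv_rhs => rw [Q.as_sum_range_C_mul_X_pow' (show Q.natDegree < d + 1 by omega)]
  rw [Finset.sum_range]

theorem Qc_of_ne (d : ℕ) (Q : (ZMod p)[X]) (hQ : Q.natDegree ≤ d) (hQ0 : Q ≠ 0) :
    (fun i : Fin (d + 1) => Q.coeff i) ≠ 0 := by
  intro h
  apply hQ0
  rw [← Qc_of p d Q hQ, h]
  unfold Qc
  simp

/-- the normalised values -/
noncomputable def zf (r : ℕ) (a : ℕ → K) (y : K) (Q : (ZMod p)[X]) : K :=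
  aeval (Fe p r a) Q y / y

theorem zf_one (r : ℕ) (a : ℕ → K) {y : K} (hy : y ≠ 0) : zf p r a y 1 = 1 := by
  unfold zf
  rw [map_one, Module.End.one_apply, div_self hy]

theorem zf_X (r : ℕ) (a : ℕ → K) {y : K} (hy : y ≠ 0) (Q : (ZMod p)[X]) :
    zf p r a y (X * Q) = ∑ i : Fin (r + 1), (a i * y ^ (p ^ (i : ℕ) - 1)) *
      (zf p r a y Q) ^ p ^ (i : ℕ) := by
  have h1 : aeval (Fe p r a) (X * Q) y = y * addMap p r (fun i => a i * y ^ (p ^ i - 1))
      (zf p r a y Q) := by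
    rw [map_mul, aeval_X, Module.End.mul_apply, ← addMap_scale]
    unfold zf
    rw [mul_div_cancel₀ _ hy]
  unfold zf at h1 ⊢
  rw [h1, mul_div_cancel_left₀ _ hy, addMap_apply, Finset.sum_range]

theorem zf_pow (r : ℕ) (a : ℕ → K) (y : K) (i : ℕ) :
    zf p r a y (X ^ i) = (Fe p r a ^ i) y / y := by
  unfold zf
  rw [map_pow, aeval_X]

theorem zf_add (r : ℕ) (a : ℕ → K) (y : K) (Q R : (ZMod p)[X]) :
    zf p r a y (Q + R) = zf p r a y Q + zf p r a y R := by
  unfold zf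
  rw [map_add, LinearMap.add_apply, add_div]

end zz

section mk

variable (p : ℕ) [hp : Fact p.Prime] {k L Ω : Type} [Field k] [IsAlgClosed k] [CharP k p]
  [Field L] [Algebra k L]
  [CharP L p] [Algebra (ZMod p) L] [Algebra (RatFunc k) L] [IsScalarTower k (RatFunc k) L]
  [Field Ω] [Algebra (RatFunc k) Ω] [Normal (RatFunc k) Ω] [FiniteDimensional (RatFunc k) L]

/-- the residue of the variable at a place -/
noncomputable def rs (v : Place k L) : k :=
  open Classical in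
  if h : ∃ u : k, v.val (tt k L - algebraMap k L u) < 1 then h.choose else 0

theorem rs_eq (v : Place k L) (u : k) (h : v.val (tt k L - algebraMap k L u) < 1) :
    rs v = u := by
  classical
  have hex : ∃ u : k, v.val (tt k L - algebraMap k L u) < 1 := ⟨u, h⟩
  have h1 : rs v = hex.choose := by unfold rs; rw [dif_pos hex]
  have h2 := hex.choose_spec
  rw [h1]
  by_contra hne
  have h3 : v.val (algebraMap k L (u - hex.choose)) < 1 := by
    have : algebraMap k L (u - hex.choose) = (tt k L - algebraMap k L hex.choose) -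
        (tt k L - algebraMap k L u) := by rw [map_sub]; ring
    rw [this]
    exact lt_of_le_of_lt (v.val.map_sub _ _) (max_lt h2 h)
  rw [v.triv _ (sub_ne_zero.2 (Ne.symm hne))] at h3
  exact lt_irrefl _ h3

theorem charP_rat : CharP (RatFunc k) p :=
  charP_of_injective_algebraMap (algebraMap k (RatFunc k)).injective p

theorem mkBad (hFF : IsFunctionField k L) (D : ℕ) (hD : Module.finrank (RatFunc k) L ≤ D)
    (S : PlaceSys p k L (Place k L)) (hSo : ∀ v x, (S.pl v).o x = v.ord x)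
    (hdeg : ∀ T, hT S T (tt k L) ≤ D) {ι : Type} [Fintype ι] (s0 : ι)
    (e : ι ≃ (L →ₐ[RatFunc k] Ω)) (r : ℕ) (N : ℕ) (δ : ℚ) (hδ : 0 ≤ δ)
    (a : ℕ → L) (har : a r ≠ 0) (y : L) (hy : y ≠ 0) (H : ℚ) (hH : (N : ℚ) + 1 ≤ H)
    (S₁ : Finset (Place k L)) (hS₁ : (#S₁ : ℚ) * (N + 1) ≤ H)
    (hcomb : ∀ c : Fin (N + 1) → ZMod p, c ≠ 0 → comb p r a (N + 1) y c ≠ 0)
    (hord : ∀ v ∉ S₁, ∀ c : Fin (N + 1) → ZMod p, c ≠ 0 →
      (S.pl v).o (comb p r a (N + 1) y c) = (S.pl v).o y)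
    (hDD : ∃ i : Fin (2 * r + 1), S.D ((Fe p r a ^ (i : ℕ)) y / y) ≠ 0)
    (hbig : ∃ (i : Fin (2 * r + 1)) (T : Finset (Place k L)),
      δ * H < hT S T ((Fe p r a ^ (i : ℕ)) y / y)) :
    Nonempty (Bad p k Ω ι s0 r D (δ : ℝ) (2 * (D : ℝ)) N) := by
  classical
  haveI : CharP (RatFunc k) p := charP_rat p
  haveI : Fintype (L →ₐ[RatFunc k] Ω) := Fintype.ofEquiv _ e
  have hconst : ∀ c : k, c ≠ 0 → ∀ v, (S.pl v).o (algebraMap k L c) = 0 := by
    intro c _ v
    rw [hSo, v.ord_algebraMap]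
  have haev : ∀ Q : (ZMod p)[X], Q.natDegree ≤ N →
      aeval (Fe p r a) Q y = comb p r a (N + 1) y (fun i => Q.coeff i) := by
    intro Q hQ
    rw [← aeval_Qc, Qc_of p N Q hQ]
  have hz0 : ∀ Q : (ZMod p)[X], Q ≠ 0 → Q.natDegree ≤ N → zf p r a y Q ≠ 0 := by
    intro Q hQ hQd
    unfold zf
    rw [haev Q hQd]
    exact div_ne_zero (hcomb _ (Qc_of_ne p N Q hQd hQ)) hy
  have hzord : ∀ Q : (ZMod p)[X], Q ≠ 0 → Q.natDegree ≤ N → ∀ v ∉ S₁,
      v.ord (zf p r a y Q) = 0 := by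
    intro Q hQ hQd v hv
    have h1 := hcomb _ (Qc_of_ne p N Q hQd hQ)
    rw [← hSo]
    unfold zf
    rw [haev Q hQd, o_div _ _ _ h1 hy, hord v hv _ (Qc_of_ne p N Q hQd hQ), sub_self]
  refine ⟨{
    z := fun s => AddMonoidHom.mk' (fun Q => e s (zf p r a y Q)) (fun Q R => by
      rw [zf_add, map_add])
    A := fun s i => e s (a i * y ^ (p ^ (i : ℕ) - 1))
    H := (H : ℝ)
    Lf := (e s0).toRingHom.fieldRange
    hA := ?_
    hz := ?_
    hz1 := ?_
    hH := ?_
    hne := ?_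
    hprod := ?_
    hL := ?_
    hLk := ?_
    h7a := ?_
    h7b := ?_ }⟩
  · intro s
    rw [Fin.val_last]
    exact (_root_.map_ne_zero _).2 (mul_ne_zero har (pow_ne_zero _ hy))
  · intro s Q
    simp only [AddMonoidHom.mk'_apply]
    rw [zf_X p r a hy, map_sum]
    refine Finset.sum_congr rfl fun i _ => ?_
    rw [map_mul, map_pow]
  · intro s
    simp only [AddMonoidHom.mk'_apply]
    rw [zf_one p r a hy, map_one]
  · exact_mod_cast hH
  · intro s Q hQ hQd
    simp only [AddMonoidHom.mk'_apply]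
    exact (_root_.map_ne_zero _).2 (hz0 Q hQ hQd)
  · intro Q hQ hQd
    obtain ⟨γ, hγ⟩ := norm_mem p (F := RatFunc k) (L := L) (Ω := Ω) D hD (zf p r a y Q)
    have hγ' : (∏ s, (e s) (zf p r a y Q)) ^ p ^ D = algebraMap (RatFunc k) Ω γ := by
      rw [← hγ]
      congr 1
      exact Equiv.prod_comp e (fun σ => σ (zf p r a y Q))
    have hne0 : γ ≠ 0 := by
      rintro rfl
      rw [map_zero] at hγ'
      have h1 := (pow_eq_zero_iff (pow_pos hp.out.pos _).ne').1 hγ'
      rw [Finset.prod_eq_zero_iff] at h1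
      obtain ⟨s, -, hs⟩ := h1
      exact (_root_.map_ne_zero _).2 (hz0 Q hQ hQd) hs
    have hroot : ∀ u, (γ.num.IsRoot u ∨ γ.denom.IsRoot u) → u ∈ S₁.image rs := by
      intro u hu
      obtain ⟨v, hv1, hv2⟩ := support hFF (fun s => e s) (zf p r a y Q) (hz0 Q hQ hQd) (p ^ D) γ
        hγ' u hu
      have hvS : v ∈ S₁ := by
        by_contra hcon
        exact hv2 (hzord Q hQ hQd v hcon)
      exact Finset.mem_image.2 ⟨v, hvS, rs_eq v u hv1⟩
    refine ⟨γ, γ.num, γ.denom, S₁.image rs, RatFunc.num_ne_zero hne0, γ.denom_ne_zero, ?_, ?_,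
      fun u hu => hroot u (Or.inl hu), fun u hu => hroot u (Or.inr hu), ?_⟩
    · have h4 := RatFunc.num_div_denom γ
      rw [div_eq_iff (am_ne γ.denom_ne_zero)] at h4
      exact h4.symm
    · simp only [AddMonoidHom.mk'_apply]
      exact hγ'
    · have h1 : ((#(S₁.image rs) : ℕ) : ℚ) * (N + 1) ≤ H := by
        refine le_trans ?_ hS₁
        refine mul_le_mul_of_nonneg_right ?_ (by positivity)
        exact_mod_cast Finset.card_image_le
      exact_mod_cast h1
  · intro Q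
    exact ⟨zf p r a y Q, rfl⟩
  · intro b
    exact ⟨algebraMap (RatFunc k) L b, (e s0).commutes b⟩
  · obtain ⟨i, T, hT'⟩ := hbig
    refine ⟨i, fun d m b hb hrel => ?_⟩
    simp only [AddMonoidHom.mk'_apply] at hrel
    have hrel' : (zf p r a y (X ^ (i : ℕ))) ^ d =
        ∑ j, algebraMap (RatFunc k) L (b j) * (zf p r a y (X ^ (i : ℕ))) ^ (j : ℕ) := by
      apply (e s0).toRingHom.injective
      change e s0 _ = e s0 _
      rw [map_pow, hrel, map_sum]
      refine Finset.sum_congr rfl fun j _ => ?_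
      rw [map_mul, map_pow, AlgHom.commutes]
    rw [zf_pow] at hrel'
    have hne0 : (Fe p r a ^ (i : ℕ)) y / y ≠ 0 := by
      intro h0
      rw [h0] at hT'
      have h1 : hT S T (0 : L) = 0 := by
        unfold hT
        refine Finset.sum_eq_zero fun v _ => ?_
        rw [hSo, v.ord_zero]; simp
      rw [h1] at hT'
      have : 0 ≤ δ * H := mul_nonneg hδ (by linarith [(Nat.cast_nonneg N : (0 : ℚ) ≤ N)])
      linarith
    have h1 := hT_monic S hconst hdeg T hne0 d m b hb hrel'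
    have h2 : δ * H < 2 * D * d * m := lt_of_lt_of_le hT' h1
    exact_mod_cast h2
  · obtain ⟨i, hi⟩ := hDD
    refine ⟨i, ?_⟩
    rintro _ ⟨u, rfl⟩ h
    simp only [AddMonoidHom.mk'_apply] at h
    have h1 : u ^ p = zf p r a y (X ^ (i : ℕ)) := by
      apply (e s0).toRingHom.injective
      rw [map_pow]
      exact h
    apply hi
    rw [← zf_pow, ← h1]
    have := D_pow_p S u 1 le_rfl
    rwa [pow_one] at this

end mk

section KP

theorem KP (p : ℕ) [hp : Fact p.Prime] (k : Type) [Field k] [IsAlgClosed k] [CharP k p]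
    (D r : ℕ) (hr : 0 < r) (δ : ℚ) (hδ : 0 < δ) :
    ∃ (d : ℕ) (ε H1 : ℚ), 2 * r ≤ d ∧ 0 < ε ∧ 0 ≤ H1 ∧
      ∀ (L : Type) [Field L] [Algebra k L] [CharP L p] [Algebra (ZMod p) L]
        (_ : IsFunctionField k L) (t : L) (_ : Transcendental k t)
        (_ : 0 < Module.finrank k⟮t⟯ L) (_ : Module.finrank k⟮t⟯ L ≤ D)
        (S : PlaceSys p k L (Place k L)) (_ : ∀ v x, (S.pl v).o x = v.ord x)
        (_ : ∀ x : L, Transcendental k x → ∀ T, hT S T x ≤ Module.finrank k⟮x⟯ L),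
        KProp p S r d ε δ H1 := by
  classical
  let Ω : Type := AlgebraicClosure (RatFunc k)
  haveI : CharP (RatFunc k) p := charP_rat p
  haveI : CharP Ω p := charP_of_injective_algebraMap (algebraMap (RatFunc k) Ω).injective p
  have hδ' : (0 : ℝ) < (δ : ℝ) := by exact_mod_cast hδ
  have hn : ∀ m : ℕ, ∃ n, IsEmpty (Bad p k Ω (Fin (m + 1)) 0 r D (δ : ℝ) (2 * (D : ℝ)) n) := by
    intro m
    by_contra hcon
    push Not at hcon
    exact no_bad hr hδ' (by positivity) (fun n => (hcon n).some)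
  choose n hn using hn
  set N := max (2 * r) ((Finset.range D).sup n) with hN
  refine ⟨N, 1 / (N + 1), N + 1, le_max_left _ _, by positivity, by positivity, ?_⟩
  intro L _ _ _ _ hFF t ht hpos hD S hSo hdeg
  intro a har y hy H hH S₁ hS₁ hcomb hord hDD i T
  by_contra hcon
  push Not at hcon
  letI : Algebra (RatFunc k) L := ((algebraMap k⟮t⟯ L).comp
    (RatFunc.algEquivOfTranscendental t ht : RatFunc k →+* k⟮t⟯)).toAlgebra
  have halg : ∀ x, algebraMap (RatFunc k) L x = (RatFunc.algEquivOfTranscendental t ht x : L) :=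
    fun _ => rfl
  haveI : IsScalarTower k (RatFunc k) L := IsScalarTower.of_algebraMap_eq fun c => by
    rw [halg, AlgEquiv.commutes]
    rfl
  have htt : tt k L = t := by
    unfold tt
    rw [halg, RatFunc.algEquivOfTranscendental_X]
  have hfr : Module.finrank (RatFunc k) L = Module.finrank k⟮t⟯ L := by
    refine Algebra.finrank_eq_of_equiv_equiv
      (RatFunc.algEquivOfTranscendental t ht : RatFunc k ≃+* k⟮t⟯) (RingEquiv.refl L) ?_
    ext x
    rfl
  haveI : FiniteDimensional (RatFunc k) L := by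
    apply FiniteDimensional.of_finrank_pos
    rw [hfr]; exact hpos
  haveI : Finite (L →ₐ[RatFunc k] Ω) := inferInstance
  haveI : Nonempty (L →ₐ[RatFunc k] Ω) := ⟨IsAlgClosed.lift⟩
  have hcard1 : Nat.card (L →ₐ[RatFunc k] Ω) ≤ D := by
    refine (card_algHom_le_finrank (RatFunc k) L Ω).trans ?_
    rw [hfr]; exact hD
  have hcard0 : 0 < Nat.card (L →ₐ[RatFunc k] Ω) := Nat.card_pos
  obtain ⟨m, hm⟩ : ∃ m, Nat.card (L →ₐ[RatFunc k] Ω) = m + 1 := ⟨_, (Nat.succ_pred_eq_of_pos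
    hcard0).symm⟩
  have e : Fin (m + 1) ≃ (L →ₐ[RatFunc k] Ω) := (Finite.equivFinOfCardEq hm).symm
  have hmN : n m ≤ N := by
    refine (Finset.le_sup (f := n) (Finset.mem_range.2 ?_)).trans (le_max_right _ _)
    omega
  obtain ⟨B⟩ := mkBad p hFF D (by rw [hfr]; exact hD) S hSo (fun T => by
    rw [htt]
    refine (hdeg t ht T).trans ?_
    exact_mod_cast hD) (0 : Fin (m + 1)) e r N δ hδ.le a har y hy H hH S₁ (by
      have h1 : (#S₁ : ℚ) * (N + 1) ≤ (1 / (N + 1) * H) * (N + 1) :=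
        mul_le_mul_of_nonneg_right hS₁ (by positivity)
      refine h1.trans (le_of_eq ?_)
      field_simp) hcomb hord hDD ⟨i, T, hcon⟩
  exact (hn m).false (B.mono hmN)

end KP

end Pool.Agent.Helper34.Str
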