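import Pool.Agent.Helper34.Str.Ult

/-!
# No bad sequences
-/

set_option autoImplicit false
set_option linter.unusedSectionVars false
set_option linter.style.haveILetI false

namespace Pool.Agent.Helper34.Str

open Filter

universe u v

/-- a counterexample at level `n` -/
structure Bad (p : ℕ) [Fact p.Prime] (k : Type v) [Field k] (Ω : Type u) [Field Ω]
    [Algebra (RatFunc k) Ω] (ι : Type) [Fintype ι] (s0 : ι) (r e : ℕ) (δ c : ℝ) (n : ℕ) where
  /-- the maps -/
  z : ι → (Polynomial (ZMod p) →+ Ω)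
  /-- the coefficients -/
  A : ι → Fin (r + 1) → Ω
  /-- the height -/
  H : ℝ
  /-- the subfield -/
  Lf : Subfield Ω
  hA : ∀ s, A s (Fin.last r) ≠ 0
  hz : ∀ s Q, z s (Polynomial.X * Q) = ∑ i, A s i * (z s Q) ^ p ^ (i : ℕ)
  hz1 : ∀ s, z s 1 = 1
  hH : (n : ℝ) + 1 ≤ H
  hne : ∀ s Q, Q ≠ 0 → Q.natDegree ≤ n → z s Q ≠ 0
  hprod : ∀ Q, Q ≠ 0 → Q.natDegree ≤ n → ∃ (γ : RatFunc k) (f g : Polynomial k) (Z : Finset k),
    f ≠ 0 ∧ g ≠ 0 ∧ γ * algebraMap (Polynomial k) (RatFunc k) g =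
      algebraMap (Polynomial k) (RatFunc k) f ∧
    (∏ s, z s Q) ^ p ^ e = algebraMap (RatFunc k) Ω γ ∧
    (∀ u, f.IsRoot u → u ∈ Z) ∧ (∀ u, g.IsRoot u → u ∈ Z) ∧ (Z.card : ℝ) * ((n : ℝ) + 1) ≤ H
  hL : ∀ Q, z s0 Q ∈ Lf
  hLk : ∀ a : RatFunc k, algebraMap (RatFunc k) Ω a ∈ Lf
  h7a : ∃ i : Fin (2 * r + 1), ∀ (d m : ℕ) (a : Fin d → RatFunc k), (∀ j, hle (a j) m) →
    (z s0 (Polynomial.X ^ (i : ℕ))) ^ d =
      ∑ j, algebraMap (RatFunc k) Ω (a j) * (z s0 (Polynomial.X ^ (i : ℕ))) ^ (j : ℕ) →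
    δ * H < c * d * m
  h7b : ∃ i : Fin (2 * r + 1), ∀ u ∈ Lf, u ^ p ≠ z s0 (Polynomial.X ^ (i : ℕ))

section main

variable {p : ℕ} [hp : Fact p.Prime] {k : Type v} [Field k] [IsAlgClosed k] [CharP k p]
  {Ω : Type u} [Field Ω] [CharP Ω p] [Algebra (RatFunc k) Ω] {ι : Type} [Fintype ι] {s0 : ι}
  {r e : ℕ} {δ c : ℝ}

theorem exists_ex (p : ℕ) [hp : Fact p.Prime] :
    ∃ ex : ℕ → ℕ, (∀ n, p ^ ex n * p ^ ex n ≤ n + 1) ∧
      ∀ m, ∀ᶠ n in (hyperfilter ℕ : Filter ℕ), m ≤ ex n := by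
  have hp1 := hp.out.one_lt
  refine ⟨fun n => Nat.log p (n + 1) / 2, fun n => ?_, fun m => ?_⟩
  · rw [← pow_add]
    refine le_trans (Nat.pow_le_pow_right hp.out.pos ?_) (Nat.pow_log_le_self p (Nat.succ_ne_zero n))
    dsimp only
    omega
  · refine ev_of_ge (p ^ (2 * m)) fun n hn => ?_
    have : 2 * m ≤ Nat.log p (n + 1) := by
      refine Nat.le_log_of_pow_le hp1 (hn.trans (Nat.le_succ n))
    dsimp only
    omega

theorem no_bad (hr : 0 < r) (hδ : 0 < δ) (hc : 0 ≤ c)
    (B : ∀ n, Bad p k Ω ι s0 r e δ c n) : False := by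
  classical
  obtain ⟨ex, hex1, hex2⟩ := exists_ex p
  have hpp := hp.out
  let H : ℕ → ℝ := fun n => (B n).H
  have hH : ∀ n, 0 ≤ H n := fun n => le_trans (by positivity) (B n).hH
  have hqge : ∀ j : ℕ, ∀ᶠ n in (hyperfilter ℕ : Filter ℕ), (j : ℝ) + 1 ≤ (p : ℝ) ^ ex n := by
    intro j
    filter_upwards [hex2 (j + 1)] with n hn
    have h1 : j + 1 < p ^ (j + 1) := Nat.lt_pow_self hpp.one_lt
    have h2 : p ^ (j + 1) ≤ p ^ ex n := Nat.pow_le_pow_right hpp.pos hn
    have : j + 1 ≤ p ^ ex n := by omega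
    exact_mod_cast this
  have hsq : ∀ n, (p : ℝ) ^ ex n * (p : ℝ) ^ ex n ≤ n + 1 := by
    intro n
    exact_mod_cast hex1 n
  have hexsm : sm H (fun n => p ^ ex n) := by
    intro j
    filter_upwards [hqge j] with n hn
    push_cast
    have h1 : (0 : ℝ) ≤ (p : ℝ) ^ ex n := by positivity
    calc ((j : ℝ) + 1) * (p : ℝ) ^ ex n ≤ (p : ℝ) ^ ex n * (p : ℝ) ^ ex n :=
          mul_le_mul_of_nonneg_right hn h1
      _ ≤ n + 1 := hsq n
      _ ≤ H n := (B n).hH
  haveI : CharP (Ga Ω) p := charP_Ga p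
  have hLD : LD (K0 hH k Ω) (Cq p ex k Ω) := LD_ult p hH ex hexsm
  -- the algebraic closure
  let E : Type u := AlgebraicClosure (Ga Ω)
  let j : Ga Ω →+* E := algebraMap (Ga Ω) E
  haveI : CharP E p := charP_of_injective_ringHom j.injective p
  -- the maps
  let l0 : ι → (Polynomial (ZMod p) →+ Ga Ω) := fun s =>
    { toFun := fun Q => gm fun n => (B n).z s Q
      map_zero' := by
        rw [gm_eq_zero]
        exact Eventually.of_forall fun n => map_zero _
      map_add' := fun Q R => by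
        rw [← RingHom.map_add gm]
        congr 1
        funext n
        exact map_add _ _ _ }
  have hl0 : ∀ s Q, l0 s Q = gm fun n => (B n).z s Q := fun _ _ => rfl
  let l : ι → (Polynomial (ZMod p) →+ E) := fun s => j.toAddMonoidHom.comp (l0 s)
  have hl : ∀ s Q, l s Q = j (gm fun n => (B n).z s Q) := fun _ _ => rfl
  have hinj : ∀ s, Function.Injective (l s) := by
    intro s
    refine j.injective.comp ((injective_iff_map_eq_zero (l0 s)).2 fun Q hQ => ?_)
    by_contra hne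
    rw [hl0, gm_eq_zero] at hQ
    obtain ⟨n, h1, h2⟩ := (hQ.and (ev_of_ge Q.natDegree fun n hn => (B n).hne s Q hne hn)).exists
    exact h2 h1
  let A : ι → Fin (r + 1) → E := fun s i => j (gm fun n => (B n).A s i)
  let F : ι → Polynomial E := fun s =>
    ∑ i : Fin (r + 1), Polynomial.C (A s i) * Polynomial.X ^ p ^ (i : ℕ)
  have hF : ∀ s, AddP p (F s) := fun s =>
    AddP.sum _ _ fun i _ => (addP_X_pow _).C_mul _
  have hFe : ∀ s x, (F s).eval x = ∑ i, A s i * x ^ p ^ (i : ℕ) := by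
    intro s x
    simp only [F, Polynomial.eval_finsetSum, Polynomial.eval_mul, Polynomial.eval_C,
      Polynomial.eval_pow, Polynomial.eval_X]
  have hFd : ∀ s, 1 < (F s).natDegree := by
    intro s
    have hA : A s (Fin.last r) ≠ 0 := by
      simp only [A]
      rw [Ne, map_eq_zero, gm_eq_zero, ← Ultrafilter.eventually_not]
      exact Eventually.of_forall fun n => (B n).hA s
    have hco : (F s).coeff (p ^ r) = A s (Fin.last r) := by
      simp only [F, Polynomial.finsetSum_coeff, Polynomial.coeff_C_mul, Polynomial.coeff_X_pow]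
      rw [Finset.sum_eq_single (Fin.last r)]
      · simp
      · intro b _ hb
        rw [if_neg, mul_zero]
        intro h
        apply hb
        have := Nat.pow_right_injective hpp.two_le h
        exact Fin.ext (by rw [← this]; simp)
      · intro h; exact absurd (Finset.mem_univ _) h
    have h1 : p ^ r ≤ (F s).natDegree := Polynomial.le_natDegree_of_ne_zero (by rw [hco]; exact hA)
    exact lt_of_lt_of_le (Nat.one_lt_pow hr.ne' hpp.one_lt) h1
  have hlf : ∀ s w, l s (Polynomial.X * w) = (F s).eval (l s w) := by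
    intro s w
    rw [hFe, hl, hl]
    simp only [A]
    simp_rw [← map_pow j, ← map_mul j]
    rw [← map_sum j]
    congr 1
    simp_rw [← map_pow gm, ← map_mul gm]
    rw [← map_sum gm]
    congr 1
    funext n
    rw [(B n).hz s w, Finset.sum_apply]
    rfl
  have h1 : ∀ s, l s 1 = 1 := by
    intro s
    rw [hl, ← map_one j, ← map_one gm]
    congr 2
    funext n
    exact (B n).hz1 s
  have hprod : ∀ w, ∃ a ∈ (K0 hH k Ω).map j, ∃ c ∈ (Cq p ex k Ω).map j,
      (∏ s, l s w) ^ p ^ e = a * c := by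
    intro w
    by_cases hw : w = 0
    · refine ⟨0, Subfield.zero_mem _, 0, Subfield.zero_mem _, ?_⟩
      rw [hw, mul_zero]
      have : ∏ s, l s 0 = 0 := Finset.prod_eq_zero (Finset.mem_univ s0) (map_zero _)
      rw [this, zero_pow (pow_pos hpp.pos _).ne']
    · have hpt : ∀ n : ℕ, ∃ (a b : RatFunc k) (h : ℕ), hle a h ∧
          (h : ℝ) * ((n : ℝ) + 1) ≤ (p : ℝ) ^ ex n * H n ∧
          (w.natDegree ≤ n → (∏ s, (B n).z s w) ^ p ^ e =
            algebraMap (RatFunc k) Ω a * algebraMap (RatFunc k) Ω b ^ p ^ ex n) := by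
        intro n
        by_cases hn : w.natDegree ≤ n
        · obtain ⟨γ, f, g, Z, hf, hg, hγ, hpr, hZf, hZg, hZc⟩ := (B n).hprod w hw hn
          obtain ⟨a, b, hab, ha⟩ := exists_decomp_rat (p ^ ex n) (pow_pos hpp.pos _) Z γ f g hf hg
            hγ hZf hZg
          refine ⟨a, b, _, ha, ?_, fun _ => ?_⟩
          · push_cast
            have h0 : (0 : ℝ) ≤ (p : ℝ) ^ ex n := by positivity
            calc (p : ℝ) ^ ex n * (Z.card : ℝ) * ((n : ℝ) + 1) =
                  (p : ℝ) ^ ex n * ((Z.card : ℝ) * ((n : ℝ) + 1)) := by ring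
              _ ≤ _ := mul_le_mul_of_nonneg_left hZc h0
          · rw [hpr, hab, map_mul, map_pow]
        · refine ⟨0, 0, 0, hle_zero, ?_, fun h => absurd h hn⟩
          have := hH n
          simp only [Nat.cast_zero, zero_mul]
          positivity
      choose a b h ha hh hab using hpt
      refine ⟨j (gm fun n => algebraMap (RatFunc k) Ω (a n)), ⟨_, ⟨a, h, ha, ?_, rfl⟩, rfl⟩,
        j (gm fun n => algebraMap (RatFunc k) Ω (b n) ^ p ^ ex n), ⟨_, ⟨b, rfl⟩, rfl⟩, ?_⟩
      · intro i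
        filter_upwards [hqge i] with n hn
        have e1 := hh n
        have e2 := hsq n
        have e3 := (B n).hH
        have e4 : (0 : ℝ) < (p : ℝ) ^ ex n := by
          have := hpp.pos
          positivity
        have e5 : (0 : ℝ) ≤ (h n : ℝ) := Nat.cast_nonneg _
        have e6 : (p : ℝ) ^ ex n * (((i : ℝ) + 1) * (h n : ℝ)) ≤ (p : ℝ) ^ ex n * H n := by
          calc (p : ℝ) ^ ex n * (((i : ℝ) + 1) * (h n : ℝ)) =
                ((p : ℝ) ^ ex n * ((i : ℝ) + 1)) * (h n : ℝ) := by ring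
            _ ≤ ((p : ℝ) ^ ex n * (p : ℝ) ^ ex n) * (h n : ℝ) :=
                mul_le_mul_of_nonneg_right (mul_le_mul_of_nonneg_left hn e4.le) e5
            _ ≤ ((n : ℝ) + 1) * (h n : ℝ) := mul_le_mul_of_nonneg_right e2 e5
            _ ≤ _ := by rw [mul_comm]; exact e1
        exact le_of_mul_le_mul_left e6 e4
      · rw [← map_mul j, ← map_mul gm]
        simp_rw [hl]
        rw [← map_prod j, ← map_pow j]
        congr 1
        rw [← map_prod gm, ← map_pow gm, gm_eq]
        filter_upwards [ev_of_ge w.natDegree fun n hn => hn] with n hn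
        rw [Pi.mul_apply, ← hab n hn, Pi.pow_apply, Finset.prod_apply]
  haveI : Infinite (Polynomial (ZMod p)) := inferInstance
  -- apply theorem Z
  rcases thmZ p (LD.map' j hLD) (fun w => Polynomial.X * w) 1 l hinj F hF hFd hlf h1 e hprod s0 with
    hZ | hZ
  · -- heights small
    have hev : ∀ᶠ n in (hyperfilter ℕ : Filter ℕ), ∀ i : Fin (2 * r + 1),
        ∃ (d m : ℕ) (a : Fin d → RatFunc k), (∀ j, hle (a j) m) ∧
          ((B n).z s0 (Polynomial.X ^ (i : ℕ))) ^ d =
            ∑ j, algebraMap (RatFunc k) Ω (a j) * ((B n).z s0 (Polynomial.X ^ (i : ℕ))) ^ (j : ℕ) ∧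
          c * d * m ≤ δ * H n := by
      rw [eventually_all]
      intro i
      have hal : IsAlgebraic (K0 hH k Ω) (l0 s0 (Polynomial.X ^ (i : ℕ))) :=
        alg_of_map j (hZ (Polynomial.X ^ (i : ℕ)))
      obtain ⟨P, hP, hPx⟩ := hal.isIntegral
      set x : Ga Ω := l0 s0 (Polynomial.X ^ (i : ℕ)) with hx
      have hco : ∀ t : Fin P.natDegree, ((P.coeff t : K0 hH k Ω) : Ga Ω) ∈ K0 hH k Ω := fun t =>
        (P.coeff t).2
      choose a h ha hsm hae using hco
      obtain ⟨J, hJ⟩ := exists_nat_gt (c * P.natDegree / δ)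
      have hrel : x ^ P.natDegree = ∑ t : Fin P.natDegree, gm (fun n =>
          algebraMap (RatFunc k) Ω (-(a t n))) * x ^ (t : ℕ) := by
        have h2 : (Polynomial.eval₂ (algebraMap (K0 hH k Ω) (Ga Ω)) x P) = 0 := hPx
        rw [Polynomial.eval₂_eq_sum_range, Finset.sum_range_succ, hP.coeff_natDegree, map_one,
          one_mul] at h2
        rw [eq_neg_of_add_eq_zero_right h2, ← Fin.sum_univ_eq_sum_range
          (fun t => (algebraMap (K0 hH k Ω) (Ga Ω)) (P.coeff t) * x ^ t), ← Finset.sum_neg_distrib]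
        refine Finset.sum_congr rfl fun t _ => ?_
        have h3 : (algebraMap (K0 hH k Ω) (Ga Ω)) (P.coeff t) =
            gm fun n => algebraMap (RatFunc k) Ω (a t n) := hae t
        rw [h3, ← neg_mul, gm_neg]
        congr 2
        funext n
        rw [RingHom.map_neg]
      have hrel' : (gm fun n => ((B n).z s0 (Polynomial.X ^ (i : ℕ))) ^ P.natDegree) =
          gm fun n => ∑ t : Fin P.natDegree, algebraMap (RatFunc k) Ω (-(a t n)) *
            ((B n).z s0 (Polynomial.X ^ (i : ℕ))) ^ (t : ℕ) := by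
        have h2 : (gm fun n => ((B n).z s0 (Polynomial.X ^ (i : ℕ))) ^ P.natDegree) =
            x ^ P.natDegree := by
          rw [hx, hl0, ← map_pow gm]; rfl
        rw [h2, hrel]
        have h3 : (fun n => ∑ t : Fin P.natDegree, algebraMap (RatFunc k) Ω (-(a t n)) *
            ((B n).z s0 (Polynomial.X ^ (i : ℕ))) ^ (t : ℕ)) =
            ∑ t : Fin P.natDegree, (fun n => algebraMap (RatFunc k) Ω (-(a t n))) *
              (fun n => (B n).z s0 (Polynomial.X ^ (i : ℕ))) ^ (t : ℕ) := by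
          funext n
          rw [Finset.sum_apply]
          rfl
        rw [h3, map_sum gm]
        refine Finset.sum_congr rfl fun t _ => ?_
        rw [map_mul gm, map_pow gm, hx, hl0]
      rw [gm_eq] at hrel'
      filter_upwards [hrel', sm_sum hH Finset.univ h (fun t _ => hsm t) J] with n e1 e2
      refine ⟨P.natDegree, ∑ t, h t n, fun t => -(a t n), fun t => ?_, e1, ?_⟩
      · exact ((ha t n).neg).mono (Finset.single_le_sum (f := fun t => h t n)
          (fun _ _ => Nat.zero_le _) (Finset.mem_univ t))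
      · rw [div_lt_iff₀ hδ] at hJ
        have e3 : (0 : ℝ) ≤ ((∑ t, h t n : ℕ) : ℝ) := Nat.cast_nonneg _
        calc c * P.natDegree * ((∑ t, h t n : ℕ) : ℝ) ≤ ((J : ℝ) * δ) * ((∑ t, h t n : ℕ) : ℝ) :=
              mul_le_mul_of_nonneg_right hJ.le e3
          _ ≤ δ * (((J : ℝ) + 1) * ((∑ t, h t n : ℕ) : ℝ)) := by nlinarith
          _ ≤ δ * H n := mul_le_mul_of_nonneg_left e2 hδ.le
    obtain ⟨n, hn⟩ := hev.exists
    obtain ⟨i, hi⟩ := (B n).h7a
    obtain ⟨d, m, a, h2, h3, h4⟩ := hn i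
    exact absurd (hi d m a h2 h3) (not_lt.2 h4)
  · -- p-th powers
    have hev : ∀ᶠ n in (hyperfilter ℕ : Filter ℕ), ∀ i : Fin (2 * r + 1),
        ∃ u ∈ (B n).Lf, u ^ p = (B n).z s0 (Polynomial.X ^ (i : ℕ)) := by
      rw [eventually_all]
      intro i
      have hal : IsAlgebraic (Cq p ex k Ω) (l0 s0 (Polynomial.X ^ (i : ℕ))) :=
        alg_of_map j (hZ (Polynomial.X ^ (i : ℕ)))
      have hmem : l0 s0 (Polynomial.X ^ (i : ℕ)) ∈ Lst fun n => (B n).Lf :=
        ⟨fun n => (B n).z s0 (Polynomial.X ^ (i : ℕ)), fun n => (B n).hL _, rfl⟩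
      obtain ⟨_, ⟨u, hu, rfl⟩, hup⟩ := sep_pow p (L := Lst fun n => (B n).Lf) (C := Cq p ex k Ω) (by
        rintro m _ ⟨a, rfl⟩
        refine ⟨gm fun n => algebraMap (RatFunc k) Ω (a n) ^ p ^ (ex n - m),
          ⟨fun n => algebraMap (RatFunc k) Ω (a n) ^ p ^ (ex n - m), fun n =>
            Subfield.pow_mem _ ((B n).hLk _) _, rfl⟩, ?_⟩
        rw [← map_pow gm, gm_eq]
        filter_upwards [hex2 m] with n hn
        rw [Pi.pow_apply, ← pow_mul, ← pow_add]
        congr 2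
        omega) hmem hal
      rw [hl0, ← map_pow gm, gm_eq] at hup
      filter_upwards [hup] with n hn
      exact ⟨u n, hu n, hn⟩
    obtain ⟨n, hn⟩ := hev.exists
    obtain ⟨i, hi⟩ := (B n).h7b
    obtain ⟨u, hu, h⟩ := hn i
    exact hi u hu h

end main

end Pool.Agent.Helper34.Str
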