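import Pool.Agent.Helper34.Str.Core

/-!
# Main theorems over a place system with the KP property
-/

set_option autoImplicit false
set_option linter.unusedSectionVars false
set_option linter.style.haveILetI false

namespace Pool.Agent.Helper34.Str

open Pool.Agent.Helper33 Pool.Agent.Helper34.Add Finset Polynomial

section main1

variable (p : ℕ) [hp : Fact p.Prime] {k K V : Type} [Field k] [Field K] [Algebra k K]
  [CharP K p] [Algebra (ZMod p) K] (S : PlaceSys p k K V)

/-- the first bound -/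
noncomputable def b1 (r d M : ℕ) (H1 N : ℚ) : ℚ :=
  (2 * r * JcK p r M + r * (Qd p d).natDegree : ℕ) +
      3 * r * ((p : ℚ) ^ (2 * r) * HcK p d M H1 N + N)

/-- **Main theorem over a place system: torsion prime to the characteristic of the multiplier.** -/
theorem main1K (r d M : ℕ) (hr : 1 ≤ r) (hd : 2 * r ≤ d) (ε H1 : ℚ) (hH10 : 0 ≤ H1)
    (hM : 2 ≤ ε * M) (hK : KProp p S r d ε (dl p r) H1) (N : ℚ) :
    ∀ (a : ℕ → K), a r ≠ 0 →
      (∃ i ≤ r, a i ≠ 0 ∧ ∃ v : V, mu p r a i (S.pl v) ≠ 0) →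
      (∀ T : Finset V, ∑ v ∈ T, al a (S.pl v) ≤ N) →
      ∀ (W : Submodule (ZMod p) K), FiniteDimensional (ZMod p) W →
        (∀ w ∈ W, addMap p r a w ∈ W) →
        (∀ w ∈ W, ∃ P : (ZMod p)[X], aeval (Fe p r a) P w = 0 ∧ aeval (a 0) P ≠ 0) →
        Module.finrank (ZMod p) W ≤ ⌊b1 p r d M H1 N⌋₊ := by
  classical
  intro a har hNI hN W hfin hW hH1
  obtain ⟨i, hi, hai, v, hv⟩ := hNI
  have hp0 : p ≠ 0 := (Fact.out : p.Prime).ne_zero
  -- strong induction
  induction hn : (mu p r a i (S.pl v)).natAbs using Nat.strong_induction_on generalizing a W with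
  | _ n ih =>
    by_cases hprim : ∀ y ∈ W, y ≠ 0 → ∃ i ≤ r, S.D (a i * y ^ (p ^ i - 1)) ≠ 0
    · obtain ⟨L, Q', hLQ, hQ', hcop⟩ := exists_split p (a 0) (Qd p d) (Qd_ne_zero p d)
      obtain ⟨X, hX⟩ := finset_of_W p W
      obtain ⟨T, hT⟩ := exists_Sup_finset S (X ∪ ((range (r + 1)).image a ∪ {aeval (a 0) Q'}))
      have hTW : ∀ w ∈ W, w ≠ 0 → Sup S T w := fun w hw hw0 =>
        hT w (by simp [hX, hw]) hw0
      have hTa : ∀ i ≤ r, a i ≠ 0 → Sup S T (a i) := fun i hi hai =>
        hT _ (Finset.mem_union_right _ (Finset.mem_union_left _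
          (Finset.mem_image_of_mem a (mem_range.2 (by omega))))) hai
      have hTc : Sup S T (aeval (a 0) Q') := hT _ (by simp) hQ'
      have hL0 : L ≠ 0 := by
        rintro rfl
        rw [zero_mul] at hLQ
        exact Qd_ne_zero p d hLQ
      have hQ'0 : Q' ≠ 0 := by
        rintro rfl
        exact hQ' (map_zero _)
      have h1 := prim_boundK p S r d M hr hd ε H1 hH10 hM hK a har W hW T (hTa r le_rfl har) hTW Q'
        (by rw [hLQ, natDegree_mul hL0 hQ'0]; omega) hTc hQ' (by
          intro x hx n hn0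
          obtain ⟨P, hP, hP0⟩ := hH1 x hx
          refine ⟨n, ?_⟩
          obtain ⟨u, w, huw⟩ := (hcop P hP0).pow_left (m := n)
          have h2 : Q' ^ n = u * Qd p d ^ n + w * Q' ^ n * P := by
            calc Q' ^ n = Q' ^ n * (u * L ^ n + w * P) := by rw [huw, mul_one]
              _ = u * (L * Q') ^ n + w * Q' ^ n * P := by rw [mul_pow]; ring
              _ = u * Qd p d ^ n + w * Q' ^ n * P := by rw [← hLQ]
          rw [h2, map_add, map_mul, map_mul (aeval (Fe p r a)) (w * Q' ^ n) P, LinearMap.add_apply,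
            Module.End.mul_apply, Module.End.mul_apply, hP, hn0, map_zero, map_zero, add_zero])
        hprim
        (exists_bad p S r hr a har T hTa i hi hai v hv) N (hN T)
      exact Nat.le_floor h1
    · push Not at hprim
      obtain ⟨y, hyW, hy, hDy⟩ := hprim
      obtain ⟨b, hb⟩ := exists_untwist p S r a y hDy
      have hb0 : b 0 ^ p = a 0 := by
        have := hb 0 (Nat.zero_le _)
        rwa [pow_zero, Nat.sub_self, pow_zero, mul_one] at this
      have hWr : W ≤ LinearMap.range (twist p y) := W_le_range p S r a y hy hDy W hH1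
      haveI := finiteDimensional_untwist p y hy W
      rw [← finrank_untwist p y hy W hWr]
      have hbne : ∀ j ≤ r, a j ≠ 0 → b j ≠ 0 := by
        intro j hj haj h0
        have := hb j hj
        rw [h0, zero_pow hp0] at this
        exact mul_ne_zero haj (pow_ne_zero _ hy) this.symm
      have hmu := mu_untwist p r a b y hy hb i hi hai har (S.pl v)
      have hmub : mu p r b i (S.pl v) ≠ 0 := by
        intro h
        rw [h, mul_zero] at hmu
        exact hv hmu
      refine ih (mu p r b i (S.pl v)).natAbs ?_ b (hbne r le_rfl har) ?_ _ this ?_ ?_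
        (hbne i hi hai) hmub rfl
      · rw [← hn, hmu, Int.natAbs_mul, Int.natAbs_natCast]
        have h1 : 0 < (mu p r b i (S.pl v)).natAbs := Int.natAbs_pos.2 hmub
        have h2 := (Fact.out : p.Prime).two_le
        nlinarith
      · intro T
        exact (Finset.sum_le_sum fun v _ => al_untwist p r a b y hb (S.pl v)).trans (hN T)
      · intro x hx
        rw [Submodule.mem_comap] at hx ⊢
        rw [← addMap_untwist p r a b y hb x]
        exact hW _ hx
      · intro x hx
        rw [Submodule.mem_comap] at hx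
        obtain ⟨P, hP, hP0⟩ := hH1 _ hx
        refine ⟨P, ?_, ?_⟩
        · apply twist_injective p y hy
          rw [← aeval_untwist p r a b y hb, hP, map_zero]
        · intro h
          apply hP0
          rw [← hb0, aeval_pow_p, h, zero_pow hp0]

end main1

section spec

variable (p : ℕ) [hp : Fact p.Prime] {k K V : Type} [Field k] [Field K] [Algebra k K]
  [CharP K p] [Algebra (ZMod p) K] (S : PlaceSys p k K V)

/-- depth in the special case -/
def n2K (r d M : ℕ) : ℕ := M * p ^ (d + 1 + r)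

theorem n2K_spec (r d M : ℕ) : (M : ℚ) * p ^ (d + 1 + r) ≤ (p : ℚ) ^ n2K p r d M := by
  have h1 : n2K p r d M < p ^ n2K p r d M := Nat.lt_pow_self (Fact.out : p.Prime).one_lt
  have h2 : ((n2K p r d M : ℕ) : ℚ) < ((p ^ n2K p r d M : ℕ) : ℚ) := by exact_mod_cast h1
  have h3 : ((n2K p r d M : ℕ) : ℚ) = (M : ℚ) * p ^ (d + 1 + r) := by
    unfold n2K; push_cast; ring
  rw [h3] at h2
  push_cast at h2
  exact h2.le

/-- combinations keep long orbits -/
theorem comb_longK (r d : ℕ) (l : (ZMod p)[X]) (hirr : Irreducible l) (a : ℕ → K) (y : K) (n N : ℕ)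
    (hN : aeval (Fe p r a) (l ^ N) y = 0)
    (hy : aeval (Fe p r a) (l ^ (n + d)) y ≠ 0) (c : Fin (d + 1) → ZMod p) (hc : c ≠ 0) :
    aeval (Fe p r a) (l ^ n) (comb p r a (d + 1) y c) ≠ 0 := by
  intro h0
  apply hy
  have hQ := Qc_ne_zero p _ c hc
  obtain ⟨R, h1, h2⟩ :=
    (FiniteMultiplicity.of_not_isUnit hirr.not_isUnit hQ).exists_eq_pow_mul_and_not_dvd
  set j := multiplicity l (Qc p (d + 1) c) with hj
  have hR0 : R ≠ 0 := by
    rintro rfl
    exact h2 (dvd_zero _)
  have hjle : j ≤ d := by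
    have h3 := natDegree_Qc_le p d c
    rw [h1, natDegree_mul (pow_ne_zero _ hirr.ne_zero) hR0, natDegree_pow] at h3
    have h4 : 0 < l.natDegree := hirr.natDegree_pos
    nlinarith
  have hcop : IsCoprime (l ^ N) R := by
    refine IsCoprime.pow_left ?_
    rw [hirr.coprime_iff_not_dvd]
    exact h2
  obtain ⟨u, w, huw⟩ := hcop
  have h3 : l ^ (n + d) = l ^ (n + d) * u * l ^ N +
      l ^ (d - j) * w * (l ^ n * (l ^ j * R)) := by
    have e1 : l ^ (n + d) = l ^ (d - j) * (l ^ n * l ^ j) := by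
      rw [← pow_add, ← pow_add]; congr 1; omega
    calc l ^ (n + d) = l ^ (n + d) * (u * l ^ N + w * R) := by rw [huw, mul_one]
      _ = l ^ (n + d) * u * l ^ N + l ^ (n + d) * (w * R) := by ring
      _ = l ^ (n + d) * u * l ^ N + l ^ (d - j) * (l ^ n * l ^ j) * (w * R) := by
          rw [← e1]
      _ = _ := by ring
  rw [← h1] at h3
  rw [h3, map_add, LinearMap.add_apply, map_mul _ _ (l ^ N), Module.End.mul_apply, hN, map_zero,
    zero_add, map_mul _ _ (l ^ n * Qc p (d + 1) c), Module.End.mul_apply,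
    map_mul _ (l ^ n), Module.End.mul_apply, aeval_Qc, h0, map_zero]

/-- **Lemma A** -/
theorem lemmaAK (r d M : ℕ) (hr : 1 ≤ r) (hd : 2 * r ≤ d) (ε H1 : ℚ) (hH10 : 0 ≤ H1)
    (hM : 2 ≤ ε * M) (hK : KProp p S r d ε (dl p r) H1)
    (l : (ZMod p)[X]) (hirr : Irreducible l) (a : ℕ → K)
    (W : Submodule (ZMod p) K) (h : Hyp p S r l a W)
    (T : Finset V) (hTa : Sup S T (a r)) (hTW : ∀ w ∈ W, w ≠ 0 → Sup S T w)
    (y : K) (hyW : y ∈ W) (hy : aeval (Fe p r a) (l ^ (n2K p r d M + d)) y ≠ 0)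
    (hprim : ∃ i ≤ r, S.D (a i * y ^ (p ^ i - 1)) ≠ 0)
    (SJ : Finset V) (hSJ : (#SJ : ℚ) ≤ (∑ v ∈ T, eta p r a (S.pl v)) / M)
    (hsm : ∀ v ∈ T, v ∉ SJ → ∀ c : Fin (d + 1) → ZMod p,
      Le (S.pl v) (s0 p r a (S.pl v)) (comb p r a (d + 1) y c)) :
    ∑ v ∈ T, eta p r a (S.pl v) ≤ H1 := by
  classical
  haveI := h.fin
  obtain ⟨N, hN⟩ := h.nil y hyW
  have hlong := fun c hc => comb_longK p r d l hirr a y (n2K p r d M) N hN hy c hc
  have hc0 : ∀ c : Fin (d + 1) → ZMod p, c ≠ 0 → comb p r a (d + 1) y c ≠ 0 := by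
    intro c hc h0
    apply hlong c hc
    rw [h0, map_zero]
  have hcW : ∀ c : Fin (d + 1) → ZMod p, comb p r a (d + 1) y c ∈ W := by
    intro c
    rw [← aeval_Qc]
    exact aeval_mem p (Fe p r a) W h.stab _ y hyW
  have hli := hli_of' p r a y hd hc0
  have hy0 : y ≠ 0 := by
    rintro rfl
    exact hy (map_zero _)
  set H := ∑ v ∈ T, eta p r a (S.pl v) with hH
  have hH0 : 0 ≤ H := Finset.sum_nonneg fun v _ => eta_nonneg p r hr a h.har (S.pl v)
  set C : Finset (Fin (d + 1) → ZMod p) := Finset.univ.filter (fun c => c ≠ 0) with hC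
  set Sc : Finset V := C.biUnion (fun c => T.filter fun v =>
    -((S.pl v).o (comb p r a (d + 1) y c) : ℚ) < s0 p r a (S.pl v)) with hSc
  have hε : 0 < ε := by
    by_contra hcon
    push Not at hcon
    have : ε * M ≤ 0 := mul_nonpos_of_nonpos_of_nonneg hcon (Nat.cast_nonneg _)
    linarith
  have hMpos : (0 : ℚ) < M := by
    rcases (Nat.cast_nonneg M : (0 : ℚ) ≤ M).eq_or_lt with h0 | h0
    · rw [← h0, mul_zero] at hM; linarith
    · exact h0
  have hpp : (0 : ℚ) < p := by exact_mod_cast (Fact.out : p.Prime).pos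
  have hScard : (#Sc : ℚ) ≤ H / M := by
    have h1 : #Sc ≤ ∑ c ∈ C, #(T.filter fun v =>
        -((S.pl v).o (comb p r a (d + 1) y c) : ℚ) < s0 p r a (S.pl v)) := Finset.card_biUnion_le
    have h2 : ∀ c ∈ C, (p : ℚ) ^ n2K p r d M * #(T.filter fun v =>
        -((S.pl v).o (comb p r a (d + 1) y c) : ℚ) < s0 p r a (S.pl v)) ≤ (p : ℚ) ^ r * H := by
      intro c hc
      exact card_coll p S r hr a h.har h.hal W h.stab T hTa hTW l h.hl _ (hcW c) (n2K p r d M)
        (hlong c (Finset.mem_filter.1 hc).2)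
    have h3 : (p : ℚ) ^ n2K p r d M * #Sc ≤ p ^ (d + 1) * (p ^ r * H) := by
      calc (p : ℚ) ^ n2K p r d M * #Sc ≤ (p : ℚ) ^ n2K p r d M * ∑ c ∈ C, (#(T.filter fun v =>
            -((S.pl v).o (comb p r a (d + 1) y c) : ℚ) < s0 p r a (S.pl v)) : ℚ) := by
            refine mul_le_mul_of_nonneg_left ?_ (by positivity)
            exact_mod_cast h1
        _ = ∑ c ∈ C, (p : ℚ) ^ n2K p r d M * (#(T.filter fun v =>
            -((S.pl v).o (comb p r a (d + 1) y c) : ℚ) < s0 p r a (S.pl v)) : ℚ) := by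
            rw [Finset.mul_sum]
        _ ≤ ∑ c ∈ C, (p : ℚ) ^ r * H := Finset.sum_le_sum h2
        _ = #C * ((p : ℚ) ^ r * H) := by rw [Finset.sum_const, nsmul_eq_mul]
        _ ≤ p ^ (d + 1) * (p ^ r * H) := by
            refine mul_le_mul_of_nonneg_right ?_ (by positivity)
            have h4 : #C ≤ p ^ (d + 1) := by
              refine (Finset.card_filter_le _ _).trans ?_
              rw [Finset.card_univ, Fintype.card_fun, ZMod.card, Fintype.card_fin]
            exact_mod_cast h4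
    have h4 := n2K_spec p r d M
    rw [le_div_iff₀ hMpos]
    have h5 : (M : ℚ) * p ^ (d + 1 + r) * #Sc ≤ p ^ (d + 1) * (p ^ r * H) := by
      refine le_trans ?_ h3
      exact mul_le_mul_of_nonneg_right h4 (Nat.cast_nonneg _)
    have h6 : (p : ℚ) ^ (d + 1) * (p ^ r * H) = p ^ (d + 1 + r) * H := by
      rw [← mul_assoc, ← pow_add]
    rw [h6] at h5
    have h7 : (0 : ℚ) < (p : ℚ) ^ (d + 1 + r) := by positivity
    have h8 : (p : ℚ) ^ (d + 1 + r) * (#Sc * M) ≤ p ^ (d + 1 + r) * H := by linarith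
    exact le_of_mul_le_mul_left h8 h7
  obtain ⟨i, hi⟩ := exists_D p S r hr a y hy0 hli hprim
  have he0 : comb p r a (d + 1) y (Pi.single 0 1) = y := by
    rw [comb_single]; simp
  have hs0 : (Pi.single 0 1 : Fin (d + 1) → ZMod p) ≠ 0 := by
    intro h
    have := congrFun h 0
    simp at this
  by_contra hcon
  push Not at hcon
  have hcard : (#(SJ ∪ Sc) : ℚ) ≤ ε * H := by
    have h1 : (#(SJ ∪ Sc) : ℚ) ≤ #SJ + #Sc := by exact_mod_cast Finset.card_union_le _ _
    have h5 : H / M ≤ ε / 2 * H := by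
      rw [div_le_iff₀ hMpos]
      have : H * 2 ≤ H * (ε * M) := mul_le_mul_of_nonneg_left hM hH0
      linarith
    linarith
  have hcore := coreK p S r hr a h.har W h.stab T hTa hTW y hyW hy0 d hd hc0 (SJ ∪ Sc) (by
    intro v hv c hc
    by_cases hvT : v ∈ T
    · rw [Finset.mem_union, not_or] at hv
      have hex : ∀ c : Fin (d + 1) → ZMod p, c ≠ 0 →
          -((S.pl v).o (comb p r a (d + 1) y c) : ℚ) = s0 p r a (S.pl v) := by
        intro c hc
        refine le_antisymm ((hsm v hvT hv.1 c).of_ne (hc0 c hc)) ?_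
        by_contra hcon
        push Not at hcon
        apply hv.2
        rw [hSc, Finset.mem_biUnion]
        exact ⟨c, Finset.mem_filter.2 ⟨Finset.mem_univ _, hc⟩, Finset.mem_filter.2 ⟨hvT, hcon⟩⟩
      have h1 := hex c hc
      have h2 := hex _ hs0
      rw [he0] at h2
      have h3 : ((S.pl v).o (comb p r a (d + 1) y c) : ℚ) = (S.pl v).o y := by linarith
      exact_mod_cast h3
    · rw [hTW _ (hcW c) (hc0 c hc) v hvT, hTW y hyW hy0 v hvT]) ⟨i, hi⟩ ε H1 hK
    (by rw [← hH]; exact hcon.le) (by rw [← hH]; exact hcard)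
  have hal0 : ∑ v ∈ T, al a (S.pl v) = 0 := Finset.sum_eq_zero fun v _ => h.hal v
  rw [hal0, mul_zero, ← hH] at hcore
  linarith

/-- the dimension bound in case A -/
noncomputable def BAK (r d M D1 : ℕ) (H1 : ℚ) : ℚ :=
  (2 * r * JcK p r M + r * ((n2K p r d M + d) * D1) : ℕ) +
    3 * r * ((p : ℚ) ^ (2 * r) * H1)

theorem final_of_HK (r d M : ℕ) (hr : 1 ≤ r) (H1 : ℚ) (l : (ZMod p)[X]) (a : ℕ → K)
    (W : Submodule (ZMod p) K) (h : Hyp p S r l a W) (T : Finset V) (hTa : Sup S T (a r))
    (hTW : ∀ w ∈ W, w ≠ 0 → Sup S T w)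
    (hne : ∃ v ∈ T, 0 < eta p r a (S.pl v) ∨ 0 < al a (S.pl v)) (D1 : ℕ)
    (hH : ∑ v ∈ T, eta p r a (S.pl v) ≤ H1) :
    (Module.finrank (ZMod p) W : ℚ) ≤ BAK p r d M D1 H1 := by
  haveI := h.fin
  have h3 := final_bound p S r hr a h.har W h.stab T hTa hTW hne
  have hal0 : ∑ v ∈ T, al a (S.pl v) = 0 := Finset.sum_eq_zero fun v _ => h.hal v
  rw [hal0, add_zero] at h3
  refine h3.trans ?_
  unfold BAK
  have h4 : 3 * r * ((p : ℚ) ^ (2 * r) * ∑ v ∈ T, eta p r a (S.pl v)) ≤
      3 * r * ((p : ℚ) ^ (2 * r) * H1) := by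
    refine mul_le_mul_of_nonneg_left ?_ (by positivity)
    exact mul_le_mul_of_nonneg_left hH (by positivity)
  have h5 : (0 : ℚ) ≤ (2 * r * JcK p r M + r * ((n2K p r d M + d) * D1) : ℕ) := Nat.cast_nonneg _
  linarith

theorem caseAK (r d M : ℕ) (hr : 1 ≤ r) (hd : 2 * r ≤ d) (ε H1 : ℚ) (hH10 : 0 ≤ H1)
    (hM : 2 ≤ ε * M) (hK : KProp p S r d ε (dl p r) H1)
    (l : (ZMod p)[X]) (hirr : Irreducible l) (D1 : ℕ)
    (hD1 : l.natDegree ≤ D1) (a : ℕ → K)
    (W : Submodule (ZMod p) K) (h : Hyp p S r l a W) (i : ℕ) (v : V) (hNI : NI p S r a i v)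
    (hprim : ∀ y ∈ W, y ≠ 0 → ∃ i ≤ r, S.D (a i * y ^ (p ^ i - 1)) ≠ 0) :
    (Module.finrank (ZMod p) W : ℚ) ≤ BAK p r d M D1 H1 := by
  classical
  haveI := h.fin
  obtain ⟨T, hTa, hTW, hne⟩ := exists_T p S r hr l a W h i v hNI
  rcases le_or_gt (Module.finrank (ZMod p) W)
    (2 * r * JcK p r M + r * ((n2K p r d M + d) * D1)) with hsm | hbig
  · unfold BAK
    have h1 : (Module.finrank (ZMod p) W : ℚ) ≤
        (2 * r * JcK p r M + r * ((n2K p r d M + d) * D1) : ℕ) := by exact_mod_cast hsm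
    have h2 : (0 : ℚ) ≤ 3 * r * ((p : ℚ) ^ (2 * r) * H1) := by positivity
    linarith
  · set F := Fe p r a with hF
    set J := JcK p r M with hJ
    set Y := W.map (aeval F (PJ p J)) with hY
    have hYW : Y ≤ W := by
      rintro _ ⟨w, hw, rfl⟩
      exact aeval_mem p F W h.stab _ w hw
    haveI : FiniteDimensional (ZMod p) Y := Submodule.finiteDimensional_of_le hYW
    have hYst : ∀ (P : (ZMod p)[X]), ∀ y ∈ Y, aeval F P y ∈ Y := by
      rintro P _ ⟨w, hw, rfl⟩
      refine ⟨aeval F P w, aeval_mem p F W h.stab P w hw, ?_⟩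
      rw [← Module.End.mul_apply, ← Module.End.mul_apply, ← map_mul, ← map_mul, mul_comm]
    have hYs : ∀ v : V, eta p r a (S.pl v) ≤ M → ∀ y ∈ Y, Le (S.pl v) (s0 p r a (S.pl v)) y := by
      rintro v hη _ ⟨w, hw, rfl⟩
      refine Jtrick p r hr a h.har (S.pl v) (h.hal v) W h.stab (ncK p r M) ?_ w hw
      have h1 : ncK p r M < 2 ^ ncK p r M := Nat.lt_two_pow_self
      have h2 : (p : ℚ) ^ r * (2 * eta p r a (S.pl v)) ≤ ncK p r M := by
        unfold ncK
        push_cast
        have : (0 : ℚ) ≤ (p : ℚ) ^ r := by positivity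
        nlinarith
      calc (p : ℚ) ^ r * (2 * eta p r a (S.pl v)) ≤ ncK p r M := h2
        _ < 2 ^ ncK p r M := by exact_mod_cast h1
    have hYdim : r * ((n2K p r d M + d) * D1) < Module.finrank (ZMod p) Y := by
      have h1 := finrank_map_aeval p r hr a h.har (PJ p J) (PJ_ne_zero p J (Nat.factorial_pos _)) W
      have h2 : r * (PJ p J).natDegree ≤ 2 * r * J := by
        calc r * (PJ p J).natDegree ≤ r * (2 * J) := Nat.mul_le_mul_left _ (PJ_natDegree_le p J)
          _ = 2 * r * J := by ring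
      change Module.finrank (ZMod p) W ≤ Module.finrank (ZMod p) Y + _ at h1
      omega
    obtain ⟨y, hyY, hy⟩ : ∃ y ∈ Y, aeval F (l ^ (n2K p r d M + d)) y ≠ 0 := by
      by_contra hcon
      push Not at hcon
      have h1 := finrank_le_of_aeval_eq_zero p r hr a h.har (l ^ (n2K p r d M + d))
        (pow_ne_zero _ hirr.ne_zero) Y hcon
      rw [natDegree_pow] at h1
      have h2 : r * ((n2K p r d M + d) * l.natDegree) ≤ r * ((n2K p r d M + d) * D1) :=
        Nat.mul_le_mul_left _ (Nat.mul_le_mul_left _ hD1)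
      omega
    have hy0 : y ≠ 0 := by
      rintro rfl
      exact hy (map_zero _)
    have hMpos : (0 : ℚ) < M := by
      rcases (Nat.cast_nonneg M : (0 : ℚ) ≤ M).eq_or_lt with h0 | h0
      · rw [← h0, mul_zero] at hM; linarith
      · exact h0
    have hH := lemmaAK p S r d M hr hd ε H1 hH10 hM hK l hirr a W h T hTa hTW y (hYW hyY) hy
      (hprim y (hYW hyY) hy0)
      (T.filter fun v => (M : ℚ) < eta p r a (S.pl v))
      (card_eta p S r hr a h.har T M hMpos) (by
        intro v hvT hv c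
        refine hYs v ?_ _ ?_
        · by_contra hcon
          push Not at hcon
          exact hv (Finset.mem_filter.2 ⟨hvT, hcon⟩)
        · rw [← aeval_Qc]; exact hYst _ y hyY)
    exact final_of_HK p S r d M hr H1 l a W h T hTa hTW hne D1 hH

theorem caseB1K (r d M : ℕ) (hr : 1 ≤ r) (hd : 2 * r ≤ d) (ε H1 : ℚ) (hH10 : 0 ≤ H1)
    (hM : 2 ≤ ε * M) (hK : KProp p S r d ε (dl p r) H1)
    (l : (ZMod p)[X]) (hirr : Irreducible l) (D1 : ℕ)
    (hD1 : l.natDegree ≤ D1) (a : ℕ → K)
    (W : Submodule (ZMod p) K) (h : Hyp p S r l a W) (i : ℕ) (v : V) (hNI : NI p S r a i v)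
    (hbad : ∀ v : V, 0 < eta p r a (S.pl v) → (M : ℚ) ≤ eta p r a (S.pl v))
    (y₀ : K) (hy₀W : y₀ ∈ W) (hy₀ : ¬ Imp p S r a y₀) :
    (Module.finrank (ZMod p) W : ℚ) ≤ BAK p r d M D1 H1 := by
  classical
  haveI := h.fin
  obtain ⟨T, hTa, hTW, hne⟩ := exists_T p S r hr l a W h i v hNI
  rcases le_or_gt (Module.finrank (ZMod p) W)
    (2 * r * JcK p r M + r * ((n2K p r d M + d) * D1)) with hsm | hbig
  · unfold BAK
    have h1 : (Module.finrank (ZMod p) W : ℚ) ≤
        (2 * r * JcK p r M + r * ((n2K p r d M + d) * D1) : ℕ) := by exact_mod_cast hsm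
    have h2 : (0 : ℚ) ≤ 3 * r * ((p : ℚ) ^ (2 * r) * H1) := by positivity
    linarith
  · set F := Fe p r a with hF
    obtain ⟨z, hzW, hz⟩ : ∃ z ∈ W, aeval F (l ^ (n2K p r d M + d)) z ≠ 0 := by
      by_contra hcon
      push Not at hcon
      have h1 := finrank_le_of_aeval_eq_zero p r hr a h.har (l ^ (n2K p r d M + d))
        (pow_ne_zero _ hirr.ne_zero) W hcon
      rw [natDegree_pow] at h1
      have h2 : r * ((n2K p r d M + d) * l.natDegree) ≤ r * ((n2K p r d M + d) * D1) :=
        Nat.mul_le_mul_left _ (Nat.mul_le_mul_left _ hD1)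
      omega
    -- choose a primitive element with a long orbit
    obtain ⟨y, hyW, hyl, hyp⟩ :
        ∃ y ∈ W, aeval F (l ^ (n2K p r d M + d)) y ≠ 0 ∧ ¬ Imp p S r a y := by
      have hz0 : z ≠ 0 := by
        rintro rfl
        exact hz (map_zero _)
      by_cases hzi : Imp p S r a z
      · by_cases hy₀l : aeval F (l ^ (n2K p r d M + d)) y₀ = 0
        · refine ⟨y₀ + z, W.add_mem hy₀W hzW, ?_, ?_⟩
          · rw [map_add, hy₀l, zero_add]; exact hz
          · intro hi
            have h0 : y₀ + z ≠ 0 := by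
              intro h0
              have : aeval F (l ^ (n2K p r d M + d)) (y₀ + z) = 0 := by rw [h0, map_zero]
              rw [map_add, hy₀l, zero_add] at this
              exact hz this
            have h1 := Imp.mem_range p S r hr a h.har z (y₀ + z) hz0 h0 hzi hi
            have h2 : z ∈ LinearMap.range (twist p z) := ⟨1, by rw [twist_apply]; ring⟩
            have h3 : y₀ ∈ LinearMap.range (twist p z) := by
              have := Submodule.sub_mem _ h1 h2
              rwa [add_sub_cancel_right] at this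
            obtain ⟨u, hu⟩ := h3
            rw [twist_apply] at hu
            apply hy₀
            intro j hj
            have h4 : a j * y₀ ^ (p ^ j - 1) = (a j * z ^ (p ^ j - 1)) * (u ^ (p ^ j - 1)) ^ p := by
              rw [← hu]; ring
            rw [h4, S.D_mul, hzi j hj, mul_zero, add_zero]
            have := D_pow_p S (u ^ (p ^ j - 1)) 1 le_rfl
            rw [pow_one] at this
            rw [this, mul_zero]
        · exact ⟨y₀, hy₀W, hy₀l, hy₀⟩
      · exact ⟨z, hzW, hz, hzi⟩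
    have hMpos : (0 : ℚ) < M := by
      rcases (Nat.cast_nonneg M : (0 : ℚ) ≤ M).eq_or_lt with h0 | h0
      · rw [← h0, mul_zero] at hM; linarith
      · exact h0
    have hprim : ∃ i ≤ r, S.D (a i * y ^ (p ^ i - 1)) ≠ 0 := by
      unfold Imp at hyp
      push Not at hyp
      exact hyp
    have hcard : (#(T.filter fun v => 0 < eta p r a (S.pl v)) : ℚ) ≤
        (∑ v ∈ T, eta p r a (S.pl v)) / M := by
      rw [le_div_iff₀ hMpos]
      calc (#(T.filter fun v => 0 < eta p r a (S.pl v)) : ℚ) * M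
          = ∑ v ∈ T.filter (fun v => 0 < eta p r a (S.pl v)), (M : ℚ) := by
            rw [Finset.sum_const, nsmul_eq_mul]
        _ ≤ ∑ v ∈ T.filter (fun v => 0 < eta p r a (S.pl v)), eta p r a (S.pl v) :=
            Finset.sum_le_sum fun v hv => hbad v (Finset.mem_filter.1 hv).2
        _ ≤ _ := Finset.sum_le_sum_of_subset_of_nonneg (Finset.filter_subset _ _)
            fun v _ _ => eta_nonneg p r hr a h.har (S.pl v)
    have hH := lemmaAK p S r d M hr hd ε H1 hH10 hM hK l hirr a W h T hTa hTW y hyW hyl hprim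
      (T.filter fun v => 0 < eta p r a (S.pl v)) hcard (by
        intro v hvT hv c
        have h1 : eta p r a (S.pl v) = 0 := by
          refine le_antisymm ?_ (eta_nonneg p r hr a h.har (S.pl v))
          by_contra hcon
          push Not at hcon
          exact hv (Finset.mem_filter.2 ⟨hvT, hcon⟩)
        have h2 : comb p r a (d + 1) y c ∈ W := by
          rw [← aeval_Qc]
          exact aeval_mem p F W h.stab _ y hyW
        have h3 := W_bound p r hr a h.har (S.pl v) W h.stab _ h2
        refine h3.mono (le_of_eq ?_)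
        rw [h.hal v, h1]
        unfold Pool.Agent.Helper34.Add.eta at h1
        linarith)
    exact final_of_HK p S r d M hr H1 l a W h T hTa hTW hne D1 hH

theorem caseB2K (r d M : ℕ) (hr : 1 ≤ r) (hd : 2 * r ≤ d) (ε H1 : ℚ) (hH10 : 0 ≤ H1)
    (hM : 2 ≤ ε * M) (hK : KProp p S r d ε (dl p r) H1)
    (l : (ZMod p)[X]) (hirr : Irreducible l) (D1 : ℕ)
    (hD1 : l.natDegree ≤ D1) (i : ℕ) (v : V) (m : ℕ) (a : ℕ → K)
    (W : Submodule (ZMod p) K) (h : Hyp p S r l a W) (hNI : NI p S r a i v)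
    (hc : ¬ Chain p r (m + 1) a W) :
    (Module.finrank (ZMod p) W : ℚ) ≤ BAK p r d M D1 H1 + m * (r * D1) := by
  induction m generalizing a W with
  | zero =>
    simp only [Nat.cast_zero, zero_mul, add_zero]
    refine caseAK p S r d M hr hd ε H1 hH10 hM hK l hirr D1 hD1 a W h i v hNI ?_
    intro y hyW hy
    by_contra hcon
    push Not at hcon
    obtain ⟨b, hb⟩ := exists_untwist p S r a y hcon
    exact hc ⟨y, hyW, hy, b, hb, trivial⟩
  | succ m ih =>
    by_cases hprim : ∀ y ∈ W, y ≠ 0 → ∃ i ≤ r, S.D (a i * y ^ (p ^ i - 1)) ≠ 0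
    · have h1 := caseAK p S r d M hr hd ε H1 hH10 hM hK l hirr D1 hD1 a W h i v hNI hprim
      refine h1.trans ?_
      have : (0 : ℚ) ≤ ((m + 1 : ℕ) : ℚ) * (r * D1) := by positivity
      linarith
    · push Not at hprim
      obtain ⟨y, hyW, hy, hyi⟩ := hprim
      obtain ⟨b, hb⟩ := exists_untwist p S r a y hyi
      have h1 := ih b (W.comap (twist p y)) (h.untwist hy hb) (hNI.untwist p S h.har hy hb).1
        (fun hc' => hc ⟨y, hyW, hy, b, hb, hc'⟩)
      have h2 := finrank_le_untwist p S r hr l hirr D1 hD1 a W h y hy hyi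
      have h3 : (Module.finrank (ZMod p) W : ℚ) ≤
          Module.finrank (ZMod p) (W.comap (twist p y)) + r * D1 := by exact_mod_cast h2
      push_cast
      linarith

/-- the bound in the special case, for `deg l ≤ D1` -/
theorem spec_boundK (r d M : ℕ) (hr : 1 ≤ r) (hd : 2 * r ≤ d) (ε H1 : ℚ) (hH10 : 0 ≤ H1)
    (hM : 2 ≤ ε * M) (hK : KProp p S r d ε (dl p r) H1)
    (l : (ZMod p)[X]) (hirr : Irreducible l) (D1 : ℕ)
    (hD1 : l.natDegree ≤ D1) (i : ℕ) (v : V) (a : ℕ → K)
    (W : Submodule (ZMod p) K) (h : Hyp p S r l a W) (hNI : NI p S r a i v) :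
    (Module.finrank (ZMod p) W : ℚ) ≤ BAK p r d M D1 H1 + (M + 2 * r : ℕ) * (r * D1) := by
  have hBA : 0 ≤ BAK p r d M D1 H1 := by
    unfold BAK
    positivity
  induction hn : (mu p r a i (S.pl v)).natAbs using Nat.strong_induction_on generalizing a W with
  | _ n ih =>
    by_cases hc : Chain p r (M + 2 * r + 1) a W
    · by_cases hall : ∀ y ∈ W, y ≠ 0 → Imp p S r a y
      · by_cases hbot : W = ⊥
        · rw [hbot, finrank_bot]
          positivity
        · obtain ⟨y, hyW, hy⟩ := Submodule.exists_mem_ne_zero_of_ne_bot hbot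
          have hyi := hall y hyW hy
          obtain ⟨b, hb⟩ := exists_untwist p S r a y hyi
          have hWr : W ≤ LinearMap.range (twist p y) := by
            intro w hw
            by_cases hw0 : w = 0
            · rw [hw0]; exact Submodule.zero_mem _
            · exact Imp.mem_range p S r hr a h.har y w hy hw0 hyi (hall w hw hw0)
          rw [← finrank_untwist p y hy W hWr]
          have hu := hNI.untwist p S h.har hy hb
          exact ih _ (by rw [← hn]; exact hu.2) b _ (h.untwist hy hb) hu.1 rfl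
      · push Not at hall
        obtain ⟨y₀, hy₀W, hy₀0, hy₀⟩ := hall
        have h1 := caseB1K p S r d M hr hd ε H1 hH10 hM hK l hirr D1 hD1 a W h i v hNI (by
          intro u hu
          have h2 := eta_lower_div p r hr a h.har (S.pl u) (M + 2 * r + 1)
            (fun j hj haj => Chain.dvd p r _ a W h.har hc j hj haj (S.pl u)) hu
          have hp2 := two_le_p p
          have h3 : (M : ℚ) * p ^ (2 * r) ≤ (p : ℚ) ^ (M + 2 * r + 1) := by
            have h4 : (M : ℚ) ≤ (p : ℚ) ^ M := by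
              have h5 : M < p ^ M := Nat.lt_pow_self (Fact.out : p.Prime).one_lt
              exact_mod_cast h5.le
            have h5 : (p : ℚ) ^ (M + 2 * r + 1) = p * (p ^ M * p ^ (2 * r)) := by
              rw [← pow_add]; ring
            rw [h5]
            have h6 : (0 : ℚ) ≤ (p : ℚ) ^ (2 * r) := by positivity
            have h7 : (M : ℚ) * p ^ (2 * r) ≤ p ^ M * p ^ (2 * r) :=
              mul_le_mul_of_nonneg_right h4 h6
            have h8 : (0 : ℚ) ≤ (p : ℚ) ^ M * p ^ (2 * r) := by positivity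
            nlinarith
          have h7 : (0 : ℚ) < (p : ℚ) ^ (2 * r) := by
            have := (Fact.out : p.Prime).pos
            positivity
          have h8 : (p : ℚ) ^ (2 * r) * M ≤ (p : ℚ) ^ (2 * r) * eta p r a (S.pl u) := by
            linarith
          exact le_of_mul_le_mul_left h8 h7) y₀ hy₀W hy₀
        refine h1.trans ?_
        have : (0 : ℚ) ≤ ((M + 2 * r : ℕ) : ℚ) * (r * D1) := by positivity
        linarith
    · exact caseB2K p S r d M hr hd ε H1 hH10 hM hK l hirr D1 hD1 i v (M + 2 * r) a W h hNI hc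

/-- the degree of the minimal polynomial of the multiplier is bounded -/
noncomputable def D1K (r d M : ℕ) (H1 : ℚ) : ℕ := max (Qd p d).natDegree ⌊b1 p r d M H1 0⌋₊

theorem degree_boundK (r d M : ℕ) (hr : 1 ≤ r) (hd : 2 * r ≤ d) (ε H1 : ℚ) (hH10 : 0 ≤ H1)
    (hM : 2 ≤ ε * M) (hK : KProp p S r d ε (dl p r) H1) :
    ∀ (l : (ZMod p)[X]), Irreducible l →
    ∀ (i : ℕ) (v : V) (a : ℕ → K) (W : Submodule (ZMod p) K), Hyp p S r l a W →
      NI p S r a i v → W ≠ ⊥ → (∀ w ∈ W, aeval (Fe p r a) l w = 0) →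
      l.natDegree ≤ D1K p r d M H1 := by
  classical
  intro l hirr i v a W h hNI hbot hkill
  by_contra hcon
  push Not at hcon
  unfold D1K at hcon
  have hlQ : (Qd p d).natDegree < l.natDegree := lt_of_le_of_lt (le_max_left _ _) hcon
  have hlb : ⌊b1 p r d M H1 0⌋₊ < l.natDegree := lt_of_le_of_lt (le_max_right _ _) hcon
  have hcop : IsCoprime l (Qd p d) := by
    rw [hirr.coprime_iff_not_dvd]
    intro hd
    have := natDegree_le_of_dvd hd (Qd_ne_zero p d)
    omega
  have hp0 : p ≠ 0 := (Fact.out : p.Prime).ne_zero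
  induction hn : (mu p r a i (S.pl v)).natAbs using Nat.strong_induction_on generalizing a W with
  | _ n ih =>
    haveI := h.fin
    obtain ⟨w, hwW, hw⟩ := Submodule.exists_mem_ne_zero_of_ne_bot hbot
    by_cases hprim : ∀ y ∈ W, y ≠ 0 → ∃ i ≤ r, S.D (a i * y ^ (p ^ i - 1)) ≠ 0
    · have hQ0 : aeval (a 0) (Qd p d) ≠ 0 := by
        intro h0
        obtain ⟨u, t, hut⟩ := hcop
        have := congrArg (aeval (a 0)) hut
        rw [map_add, map_mul, map_mul, h.hl, h0, mul_zero, mul_zero, add_zero, map_one] at this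
        exact zero_ne_one this
      obtain ⟨X, hX⟩ := finset_of_W p W
      obtain ⟨T, hT⟩ := exists_Sup_finset S (X ∪ ((range (r + 1)).image a ∪ {aeval (a 0) (Qd p d)}))
      have hTW : ∀ w ∈ W, w ≠ 0 → Sup S T w := fun w hw hw0 =>
        hT w (by simp [hX, hw]) hw0
      have hTa : ∀ i ≤ r, a i ≠ 0 → Sup S T (a i) := fun i hi hai =>
        hT _ (Finset.mem_union_right _ (Finset.mem_union_left _
          (Finset.mem_image_of_mem a (mem_range.2 (by omega))))) hai
      have hTc : Sup S T (aeval (a 0) (Qd p d)) := hT _ (by simp) hQ0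
      have h1 := prim_boundK p S r d M hr hd ε H1 hH10 hM hK a h.har W h.stab T
        (hTa r le_rfl h.har) hTW (Qd p d)
        le_rfl hTc hQ0 (fun x _ n hn => ⟨n, hn⟩) hprim
        (exists_bad p S r hr a h.har T hTa i hNI.1 hNI.2.1 v hNI.2.2) 0
        (le_of_eq (Finset.sum_eq_zero fun v _ => h.hal v))
      have h2 := Nat.le_floor h1
      have h3 := natDegree_le_finrank p r l hirr a W h.stab w hwW hw (hkill w hwW)
      have h4 : Module.finrank (ZMod p) W ≤ ⌊b1 p r d M H1 0⌋₊ := h2
      omega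
    · push Not at hprim
      obtain ⟨y, hyW, hy, hyi⟩ := hprim
      obtain ⟨b, hb⟩ := exists_untwist p S r a y hyi
      have hu := hNI.untwist p S h.har hy hb
      refine ih _ (by rw [← hn]; exact hu.2) b _ (h.untwist hy hb) hu.1 ?_ ?_ rfl
      · intro h0
        have h1 : (1 : K) ∈ W.comap (twist p y) := by
          rw [Submodule.mem_comap, twist_apply, one_pow, mul_one]
          exact hyW
        rw [h0, Submodule.mem_bot] at h1
        exact one_ne_zero h1
      · intro x hx
        rw [Submodule.mem_comap] at hx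
        apply twist_injective p y hy
        rw [← aeval_untwist p r a b y hb, hkill _ hx, map_zero]

/-- the final bound -/
noncomputable def b2 (r d M : ℕ) (H1 N : ℚ) : ℕ :=
  ⌊b1 p r d M H1 N⌋₊ +
    ⌊BAK p r d M (D1K p r d M H1) H1 + (M + 2 * r : ℕ) * (r * (D1K p r d M H1))⌋₊

/-- **Main theorem over a place system.** -/
theorem main2K (r d M : ℕ) (hr : 1 ≤ r) (hd : 2 * r ≤ d) (ε H1 : ℚ) (hH10 : 0 ≤ H1)
    (hM : 2 ≤ ε * M) (hK : KProp p S r d ε (dl p r) H1) (N : ℚ) :
    ∀ (a : ℕ → K), a r ≠ 0 →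
      (∃ i ≤ r, a i ≠ 0 ∧ ∃ v : V, mu p r a i (S.pl v) ≠ 0) →
      (∀ T : Finset V, ∑ v ∈ T, al a (S.pl v) ≤ N) →
      ∀ (W : Submodule (ZMod p) K), FiniteDimensional (ZMod p) W →
        (∀ w ∈ W, addMap p r a w ∈ W) →
        Module.finrank (ZMod p) W ≤ b2 p r d M H1 N := by
  classical
  have hB1 := main1K p S r d M hr hd ε H1 hH10 hM hK N
  have hD1 := degree_boundK p S r d M hr hd ε H1 hH10 hM hK
  unfold b2
  set B1 := ⌊b1 p r d M H1 N⌋₊ with hB1d
  set D1 := D1K p r d M H1 with hD1d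
  set B3 : ℕ := ⌊BAK p r d M D1 H1 + (M + 2 * r : ℕ) * (r * D1)⌋₊ with hB3
  intro a har hNI hN W hfin hW
  by_cases halg : IsAlgebraic (ZMod p) (a 0)
  · -- special characteristic
    set l := minpoly (ZMod p) (a 0) with hl
    have hirr : Irreducible l := minpoly.irreducible halg.isIntegral
    have hla : aeval (a 0) l = 0 := minpoly.aeval _ _
    set F := Fe p r a with hF
    -- factor killers
    have hkill : ∀ w ∈ W, ∃ (e : ℕ) (R : (ZMod p)[X]), aeval F (l ^ e * R) w = 0 ∧ ¬ l ∣ R := by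
      intro w hw
      obtain ⟨P, hP0, hP⟩ := exists_killer p r a W hW w hw
      obtain ⟨R, h1, h2⟩ :=
        (FiniteMultiplicity.of_not_isUnit hirr.not_isUnit hP0).exists_eq_pow_mul_and_not_dvd
      exact ⟨_, R, by rw [← h1]; exact hP, h2⟩
    choose! e R hR hRl using hkill
    obtain ⟨Xs, hX⟩ := finset_of_W p W
    set n := Xs.sup e with hn
    have hen : ∀ w ∈ W, e w ≤ n := fun w hw => Finset.le_sup ((hX w).2 hw)
    have hRn : ∀ w ∈ W, aeval F (l ^ n * R w) w = 0 := by
      intro w hw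
      have h1 : l ^ n * R w = l ^ (n - e w) * (l ^ e w * R w) := by
        rw [← mul_assoc, ← pow_add]; congr 2
        have := hen w hw
        omega
      rw [h1, map_mul, Module.End.mul_apply, hR w hw, map_zero]
    -- the two parts
    set W' := W.map (aeval F (l ^ n)) with hW'
    set Wl := W ⊓ LinearMap.ker (aeval F (l ^ n)) with hWl
    have hW'W : W' ≤ W := by
      rintro _ ⟨w, hw, rfl⟩
      exact aeval_mem p F W hW _ w hw
    have hWlW : Wl ≤ W := inf_le_left
    haveI : FiniteDimensional (ZMod p) W' := Submodule.finiteDimensional_of_le hW'W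
    haveI : FiniteDimensional (ZMod p) Wl := Submodule.finiteDimensional_of_le hWlW
    have hcomm : ∀ (P Q : (ZMod p)[X]) (x : K), aeval F P (aeval F Q x) = aeval F Q (aeval F P x) := by
      intro P Q x
      rw [← Module.End.mul_apply, ← Module.End.mul_apply, ← map_mul, ← map_mul, mul_comm]
    have hFX : ∀ x, addMap p r a x = aeval F (X : (ZMod p)[X]) x := by
      intro x; rw [aeval_X]
    have hW'st : ∀ w ∈ W', addMap p r a w ∈ W' := by
      rintro _ ⟨w, hw, rfl⟩
      refine ⟨addMap p r a w, hW w hw, ?_⟩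
      rw [hFX, hFX, hcomm]
    have hWlst : ∀ w ∈ Wl, addMap p r a w ∈ Wl := by
      rintro w ⟨hw1, hw2⟩
      refine ⟨hW w hw1, ?_⟩
      have hw3 : aeval F (l ^ n) w = 0 := hw2
      change aeval F (l ^ n) (addMap p r a w) = 0
      rw [hFX, hcomm, hw3, map_zero]
    have hdim : Module.finrank (ZMod p) W ≤
        Module.finrank (ZMod p) W' + Module.finrank (ZMod p) Wl := by
      let q : W →ₗ[ZMod p] K := (aeval F (l ^ n)).domRestrict W
      have h1 := LinearMap.finrank_range_add_finrank_ker q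
      have hrange : Module.finrank (ZMod p) (LinearMap.range q) ≤ Module.finrank (ZMod p) W' := by
        refine Submodule.finrank_mono ?_
        rintro _ ⟨y, rfl⟩
        exact ⟨y, y.2, rfl⟩
      have hker : Module.finrank (ZMod p) (LinearMap.ker q) ≤ Module.finrank (ZMod p) Wl := by
        rw [(Submodule.equivMapOfInjective W.subtype W.injective_subtype
          (LinearMap.ker q)).finrank_eq]
        refine Submodule.finrank_mono ?_
        rintro _ ⟨y, hy, rfl⟩
        exact ⟨y.2, hy⟩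
      omega
    have hb1 : Module.finrank (ZMod p) W' ≤ B1 := by
      refine hB1 a har hNI hN W' inferInstance hW'st ?_
      rintro _ ⟨w, hw, rfl⟩
      refine ⟨R w, ?_, ?_⟩
      · rw [← Module.End.mul_apply, ← map_mul, mul_comm]
        exact hRn w hw
      · intro h0
        exact hRl w hw (minpoly.dvd _ _ h0)
    have hHyp : Hyp p S r l a Wl := by
      refine ⟨har, fun v => al_algebraic p a _ halg, hla, this, hWlst, ?_⟩
      rintro w ⟨-, hw2⟩
      exact ⟨n, hw2⟩
    obtain ⟨i, hi, hai, v, hv⟩ := hNI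
    have hNI' : NI p S r a i v := ⟨hi, hai, hv⟩
    have hb3 : Module.finrank (ZMod p) Wl ≤ B3 := by
      by_cases hbot : Wl = ⊥
      · rw [hbot, finrank_bot]; exact Nat.zero_le _
      · -- the `l`-torsion is nonzero
        set U := Wl ⊓ LinearMap.ker (aeval F l) with hU
        haveI : FiniteDimensional (ZMod p) U := Submodule.finiteDimensional_of_le inf_le_left
        have hUst : ∀ w ∈ U, addMap p r a w ∈ U := by
          rintro w ⟨hw1, hw2⟩
          refine ⟨hWlst w hw1, ?_⟩
          have hw3 : aeval F l w = 0 := hw2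
          change aeval F l (addMap p r a w) = 0
          rw [hFX, hcomm, hw3, map_zero]
        have hUne : U ≠ ⊥ := by
          obtain ⟨w, hwW, hw⟩ := Submodule.exists_mem_ne_zero_of_ne_bot hbot
          have hex : ∃ j, aeval F (l ^ j) w = 0 := ⟨n, hwW.2⟩
          have hj := Nat.find_spec hex
          have hj0 : Nat.find hex ≠ 0 := by
            intro h0
            rw [h0, pow_zero, map_one] at hj
            exact hw hj
          obtain ⟨j, hjj⟩ := Nat.exists_eq_succ_of_ne_zero hj0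
          have hmin := Nat.find_min hex (m := j) (by omega)
          intro h0
          apply hmin
          have hmem : aeval F (l ^ j) w ∈ U := by
            refine ⟨aeval_mem p F Wl hWlst _ w hwW, ?_⟩
            change aeval F l (aeval F (l ^ j) w) = 0
            rw [← Module.End.mul_apply, ← map_mul, ← pow_succ']
            rw [hjj] at hj
            exact hj
          rw [h0, Submodule.mem_bot] at hmem
          exact hmem
        have hdeg := hD1 l hirr i v a U
          ⟨har, fun v => al_algebraic p a _ halg, hla, this, hUst, fun w hw => ⟨1, by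
            rw [pow_one]; exact hw.2⟩⟩ hNI' hUne (fun w hw => hw.2)
        exact Nat.le_floor (spec_boundK p S r d M hr hd ε H1 hH10 hM hK l hirr D1 hdeg i v a Wl
          hHyp hNI')
    omega
  · -- generic characteristic
    have h1 := hB1 a har hNI hN W hfin hW (by
      intro w hw
      obtain ⟨P, hP0, hP⟩ := exists_killer p r a W hW w hw
      exact ⟨P, hP, fun h0 => halg ⟨P, hP0, h0⟩⟩)
    omega

end spec

end Pool.Agent.Helper34.Str
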