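import Mathlib

/-!
# Additive polynomials
-/

set_option autoImplicit false
set_option linter.unusedSectionVars false
set_option linter.style.haveILetI false

namespace Pool.Agent.Helper34.Str

open Polynomial

section addp

variable (p : ℕ) [hp : Fact p.Prime] {E : Type*} [Field E] [CharP E p]

/-- additive polynomial: only exponents `p^j` occur -/
def AddP (P : E[X]) : Prop := ∀ n, P.coeff n ≠ 0 → ∃ j, n = p ^ j

variable {p}

theorem AddP.zero : AddP p (0 : E[X]) := by
  intro n hn; simp at hn

theorem AddP.add {P Q : E[X]} (hP : AddP p P) (hQ : AddP p Q) : AddP p (P + Q) := by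
  intro n hn
  by_cases h : P.coeff n = 0
  · refine hQ n fun h' => hn ?_
    rw [coeff_add, h, h', add_zero]
  · exact hP n h

theorem AddP.neg {P : E[X]} (hP : AddP p P) : AddP p (-P) := by
  intro n hn
  refine hP n fun h => hn ?_
  rw [coeff_neg, h, neg_zero]

theorem AddP.sub {P Q : E[X]} (hP : AddP p P) (hQ : AddP p Q) : AddP p (P - Q) := by
  rw [sub_eq_add_neg]; exact hP.add hQ.neg

theorem AddP.C_mul {P : E[X]} (c : E) (hP : AddP p P) : AddP p (C c * P) := by
  intro n hn
  refine hP n fun h => hn ?_
  rw [coeff_C_mul, h, mul_zero]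

theorem addP_X_pow (j : ℕ) : AddP p (X ^ p ^ j : E[X]) := by
  intro n hn
  rw [coeff_X_pow] at hn
  exact ⟨j, by by_contra h; exact hn (if_neg h)⟩

theorem addP_X : AddP p (X : E[X]) := by
  have := addP_X_pow (p := p) (E := E) 0
  simpa using this

theorem AddP.sum {ι : Type*} (T : Finset ι) (g : ι → E[X]) (h : ∀ i ∈ T, AddP p (g i)) :
    AddP p (∑ i ∈ T, g i) := by
  classical
  induction T using Finset.induction_on with
  | empty => simpa using AddP.zero
  | insert a T ha ih =>
    rw [Finset.sum_insert ha]
    exact (h a (Finset.mem_insert_self _ _)).add (ih fun i hi => h i (Finset.mem_insert_of_mem hi))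

theorem AddP.exp {P : E[X]} (hP : AddP p P) : AddP p (Polynomial.expand E p P) := by
  intro n hn
  rw [coeff_expand (Fact.out : p.Prime).pos] at hn
  split_ifs at hn with h
  · obtain ⟨j, hj⟩ := hP _ hn
    refine ⟨j + 1, ?_⟩
    obtain ⟨m, rfl⟩ := h
    rw [Nat.mul_div_cancel_left _ (Fact.out : p.Prime).pos] at hj
    rw [hj, pow_succ']
  · exact absurd rfl hn

theorem AddP.mp {E' : Type*} [Field E'] (g : E →+* E') {P : E[X]} (hP : AddP p P) :
    AddP p (P.map g) := by
  intro n hn
  refine hP n fun h => hn ?_
  rw [coeff_map, h, map_zero]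

theorem AddP.pow_p {P : E[X]} (hP : AddP p P) : AddP p (P ^ p) := by
  rw [← map_frobenius_expand p P]
  exact hP.exp.mp (frobenius E p)

theorem AddP.pow_pow {P : E[X]} (hP : AddP p P) (j : ℕ) : AddP p (P ^ p ^ j) := by
  induction j with
  | zero => simpa using hP
  | succ j ih => rw [pow_succ, pow_mul]; exact ih.pow_p

theorem AddP.comp {P Q : E[X]} (hP : AddP p P) (hQ : AddP p Q) : AddP p (P.comp Q) := by
  rw [Polynomial.comp, eval₂_eq_sum, Polynomial.sum_def]
  refine AddP.sum _ _ fun n hn => ?_
  rw [mem_support_iff] at hn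
  obtain ⟨j, rfl⟩ := hP n hn
  exact (hQ.pow_pow j).C_mul _

theorem AddP.ev_add {P : E[X]} (hP : AddP p P) (x y : E) :
    P.eval (x + y) = P.eval x + P.eval y := by
  rw [eval_eq_sum, eval_eq_sum, eval_eq_sum, Polynomial.sum_def, Polynomial.sum_def,
    Polynomial.sum_def, ← Finset.sum_add_distrib]
  refine Finset.sum_congr rfl fun n hn => ?_
  rw [mem_support_iff] at hn
  obtain ⟨j, rfl⟩ := hP n hn
  rw [add_pow_char_pow, mul_add]

theorem AddP.ev_zero {P : E[X]} (hP : AddP p P) : P.eval 0 = 0 := by
  have := hP.ev_add 0 0
  simp only [add_zero] at this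
  exact left_eq_add.1 this

theorem AddP.ev_neg {P : E[X]} (hP : AddP p P) (x : E) : P.eval (-x) = -P.eval x := by
  have := hP.ev_add x (-x)
  rw [add_neg_cancel, hP.ev_zero] at this
  linear_combination -this

theorem AddP.ev_sub {P : E[X]} (hP : AddP p P) (x y : E) :
    P.eval (x - y) = P.eval x - P.eval y := by
  rw [sub_eq_add_neg, hP.ev_add, hP.ev_neg]; ring

theorem AddP.deg {P : E[X]} (hP : AddP p P) (h : P ≠ 0) : ∃ j, P.natDegree = p ^ j :=
  hP _ (leadingCoeff_ne_zero.2 h)

theorem AddP.deg_pos {P : E[X]} (hP : AddP p P) (h : P ≠ 0) : 0 < P.natDegree := by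
  obtain ⟨j, hj⟩ := hP.deg h
  rw [hj]; exact pow_pos (Fact.out : p.Prime).pos j

/-- functional additivity gives an additive polynomial -/
theorem AddP.of_eval [IsAlgClosed E] (P : E[X])
    (h : ∀ x y, P.eval (x + y) = P.eval x + P.eval y) : AddP p P := by
  haveI : Infinite E := IsAlgClosed.instInfinite
  have hpp : p ≠ 0 := (Fact.out : p.Prime).ne_zero
  induction hn : P.natDegree using Nat.strong_induction_on generalizing P with
  | _ n ih =>
    have h1 : ∀ y, P.comp (X + C y) = P + C (P.eval y) := by
      intro y
      apply Polynomial.funext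
      intro x
      rw [eval_comp, eval_add, eval_X, eval_C, h, eval_add, eval_C]
    have h2 : ∀ y, (derivative P).eval y = (derivative P).eval 0 := by
      intro y
      have := congrArg derivative (h1 y)
      rw [derivative_comp, derivative_add, derivative_X, derivative_C, add_zero, one_mul,
        derivative_add, derivative_C, add_zero] at this
      have := congrArg (eval 0) this
      rwa [eval_comp, eval_add, eval_X, eval_C, zero_add] at this
    set c := (derivative P).eval 0 with hc
    have h3 : derivative P = C c := by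
      apply Polynomial.funext
      intro y
      rw [h2, eval_C]
    set Q := P - C c * X with hQ
    have hQd : derivative Q = 0 := by
      rw [hQ, derivative_sub, h3, derivative_C_mul, derivative_X, mul_one, sub_self]
    have hQe : Polynomial.expand E p (contract p Q) = Q := expand_contract p hQd hpp
    have hQadd : ∀ x y, Q.eval (x + y) = Q.eval x + Q.eval y := by
      intro x y
      rw [hQ]
      simp only [eval_sub, eval_mul, eval_C, eval_X, h]
      ring
    have hRadd : ∀ x y, (contract p Q).eval (x + y) =
        (contract p Q).eval x + (contract p Q).eval y := by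
      intro x y
      obtain ⟨u, hu⟩ := IsAlgClosed.exists_pow_nat_eq x (Nat.pos_of_ne_zero hpp)
      obtain ⟨v, hv⟩ := IsAlgClosed.exists_pow_nat_eq y (Nat.pos_of_ne_zero hpp)
      rw [← hu, ← hv, ← add_pow_char, ← expand_eval, ← expand_eval, ← expand_eval, hQe, hQadd]
    have hPQ : P = Q + C c * X := by rw [hQ]; ring
    have hX : AddP p (C c * X : E[X]) := addP_X.C_mul c
    by_cases hd : Q.natDegree = 0
    · have h4 : Q = 0 := by
        rw [eq_C_of_natDegree_eq_zero hd]
        have h5 : Q.eval 0 = 0 := by
          have := hQadd 0 0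
          simp only [add_zero] at this
          exact left_eq_add.1 this
        rw [coeff_zero_eq_eval_zero, h5, C_0]
      rw [hPQ, h4, zero_add]
      exact hX
    · have hlt : (contract p Q).natDegree < n := by
        have h5 : Q.natDegree = (contract p Q).natDegree * p := by
          conv_lhs => rw [← hQe]
          rw [natDegree_expand]
        have h6 : Q.natDegree ≤ n := by
          rw [hQ, ← hn]
          refine (natDegree_sub_le _ _).trans (max_le le_rfl ?_)
          have h7 : 1 ≤ P.natDegree := by
            by_contra h8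
            have h9 : P.natDegree = 0 := by omega
            have h10 : derivative P = 0 := by
              rw [eq_C_of_natDegree_eq_zero h9, derivative_C]
            rw [h10] at h3
            have hc0 : c = 0 := by
              have := congrArg (eval 0) h3
              simpa using this.symm
            apply hd
            rw [hQ, hc0, C_0, zero_mul, sub_zero, h9]
          refine (natDegree_C_mul_le _ _).trans ?_
          rw [natDegree_X]; exact h7
        have h7 := (Fact.out : p.Prime).two_le
        have h8 : 0 < (contract p Q).natDegree := by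
          rcases Nat.eq_zero_or_pos (contract p Q).natDegree with h | h
          · rw [h, zero_mul] at h5; exact absurd h5 hd
          · exact h
        nlinarith
      have h8 := ih _ hlt (contract p Q) hRadd rfl
      rw [hPQ, ← hQe]
      exact h8.exp.add hX

theorem eval_injOn_of_infinite {P Q : E[X]} (s : Set E) (hs : s.Infinite)
    (h : ∀ x ∈ s, P.eval x = Q.eval x) : P = Q := by
  classical
  rw [← sub_eq_zero]
  by_contra hne
  apply hs
  refine (P - Q).roots.toFinset.finite_toSet.subset fun x hx => ?_
  rw [Finset.mem_coe, Multiset.mem_toFinset, mem_roots hne, IsRoot.def, eval_sub, h x hx, sub_self]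

theorem AddP.comp_ne_zero {P Q : E[X]} (hQ : AddP p Q) (hP0 : P ≠ 0)
    (hQ0 : Q ≠ 0) : P.comp Q ≠ 0 := by
  intro h
  rcases comp_eq_zero_iff.1 h with h | h
  · exact hP0 h
  · have := hQ.deg_pos hQ0
    rw [h.2, natDegree_C] at this
    omega

/-- right division -/
theorem AddP.exists_div (A : E[X]) (hA : AddP p A) (hA0 : A ≠ 0) (B : E[X]) (hB : AddP p B) :
    ∃ G R : E[X], AddP p G ∧ AddP p R ∧ B = G.comp A + R ∧ (R = 0 ∨ R.natDegree < A.natDegree) := by
  induction hn : B.natDegree using Nat.strong_induction_on generalizing B with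
  | _ n ih =>
    by_cases hB0 : B = 0
    · exact ⟨0, 0, AddP.zero, AddP.zero, by rw [hB0]; simp, Or.inl rfl⟩
    by_cases hlt : B.natDegree < A.natDegree
    · exact ⟨0, B, AddP.zero, hB, by simp, Or.inr hlt⟩
    push Not at hlt
    obtain ⟨m, hm⟩ := hA.deg hA0
    obtain ⟨l, hl⟩ := hB.deg hB0
    have hp1 := (Fact.out : p.Prime).one_lt
    have hml : m ≤ l := by
      rw [hm, hl] at hlt
      exact (Nat.pow_le_pow_iff_right hp1).1 hlt
    set c := B.leadingCoeff / A.leadingCoeff ^ p ^ (l - m) with hc
    have hc0 : c ≠ 0 := div_ne_zero (leadingCoeff_ne_zero.2 hB0)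
      (pow_ne_zero _ (leadingCoeff_ne_zero.2 hA0))
    set M : E[X] := C c * X ^ p ^ (l - m) with hM
    have hMa : AddP p M := (addP_X_pow _).C_mul c
    have hMA : M.comp A = C c * A ^ p ^ (l - m) := by
      rw [hM, mul_comp, C_comp, pow_comp, X_comp]
    have hdeg : (M.comp A).natDegree = B.natDegree := by
      rw [natDegree_comp, hM, natDegree_C_mul_X_pow _ _ hc0, hm, hl, ← pow_add]
      congr 1; omega
    have hlead : (M.comp A).leadingCoeff = B.leadingCoeff := by
      rw [hMA, leadingCoeff_mul, leadingCoeff_C, leadingCoeff_pow, hc]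
      rw [div_mul_cancel₀]
      exact pow_ne_zero _ (leadingCoeff_ne_zero.2 hA0)
    have hMA0 : M.comp A ≠ 0 := by
      intro h
      rw [h, leadingCoeff_zero] at hlead
      exact hB0 (leadingCoeff_eq_zero.1 hlead.symm)
    have hB' : AddP p (B - M.comp A) := hB.sub (hMa.comp hA)
    have hlt' : (B - M.comp A).natDegree < n := by
      have hpos := hB.deg_pos hB0
      rw [← hn]
      by_cases h0 : B - M.comp A = 0
      · rw [h0, natDegree_zero]; exact hpos
      · refine natDegree_lt_natDegree h0 ?_
        refine degree_sub_lt_left ?_ hB0 hlead.symm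
        rw [degree_eq_natDegree hB0, degree_eq_natDegree hMA0, hdeg]
    obtain ⟨G, R, hG, hR, h1, h2⟩ := ih _ hlt' _ hB' rfl
    refine ⟨G + M, R, hG.add hMa, hR, ?_, h2⟩
    rw [add_comp]
    linear_combination h1

end addp

end Pool.Agent.Helper34.Str
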