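import Pool.Agent.Helper34.Str.Main
import Pool.Agent.Helper34.Str.FF
import Pool.Agent.Helper34.AddThm

/-!
# Strong uniform boundedness for affine-additive polynomials
-/

set_option autoImplicit false
set_option linter.unusedSectionVars false
set_option linter.style.haveILetI false

namespace Pool.Agent.Helper34.Str

open Pool.Agent.Helper33 Pool.Agent.Helper34.Add Pool.Agent.Helper16 Finset Polynomial
open IntermediateField

section tower

variable {k K L : Type} [Field k] [Field K] [Field L] [Algebra k K] [Algebra k L] [Algebra K L]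
  [IsScalarTower k K L]

theorem tower_finrank (x : K) (hx : Transcendental k x)
    (ht : Transcendental k (algebraMap K L x)) :
    Module.finrank k⟮algebraMap K L x⟯ L = Module.finrank k⟮x⟯ K * Module.finrank K L := by
  rw [Module.finrank_mul_finrank k⟮x⟯ K L]
  symm
  let i : k⟮x⟯ ≃ₐ[k] k⟮algebraMap K L x⟯ :=
    (RatFunc.algEquivOfTranscendental x hx).symm.trans
      (RatFunc.algEquivOfTranscendental (algebraMap K L x) ht)
  refine Algebra.finrank_eq_of_equiv_equiv (i : k⟮x⟯ ≃+* k⟮algebraMap K L x⟯)
    (RingEquiv.refl L) ?_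
  ext z
  obtain ⟨u, rfl⟩ := (RatFunc.algEquivOfTranscendental x hx).surjective z
  have h1 : i (RatFunc.algEquivOfTranscendental x hx u) =
      RatFunc.algEquivOfTranscendental (algebraMap K L x) ht u := by
    change RatFunc.algEquivOfTranscendental (algebraMap K L x) ht
      ((RatFunc.algEquivOfTranscendental x hx).symm (RatFunc.algEquivOfTranscendental x hx u)) = _
    rw [AlgEquiv.symm_apply_apply]
  change ((i (RatFunc.algEquivOfTranscendental x hx u) : k⟮algebraMap K L x⟯) : L) =
    algebraMap K L ((RatFunc.algEquivOfTranscendental x hx u : k⟮x⟯) : K)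
  rw [h1, RatFunc.algEquivOfTranscendental_apply, RatFunc.algEquivOfTranscendental_apply,
    map_div₀, aeval_algebraMap_apply, aeval_algebraMap_apply]

theorem ff_tower (hK : IsFunctionField k K) [FiniteDimensional K L] : IsFunctionField k L := by
  haveI := hK.1
  refine ⟨Algebra.EssFiniteType.comp k K L, ?_⟩
  have h1 := _root_.trdeg_add_eq k K (A := L)
  rw [← h1, hK.2]
  have h2 : Algebra.trdeg K L = 0 := _root_.trdeg_eq_zero
  rw [h2, add_zero]

end tower

section per

/-- the bound for one function field, from the KP property of its constant field extension -/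
theorem per_field (p : ℕ) [Fact p.Prime] (k : Type) [Field k] [CharP k p]
    (r d M : ℕ) (hr : 1 ≤ r) (hd : 2 * r ≤ d) (ε H1 : ℚ) (hH10 : 0 ≤ H1) (hM : 2 ≤ ε * M) (Dt : ℕ)
    (hKP : ∀ (L' : Type) [Field L'] [Algebra (AlgebraicClosure k) L'] [CharP L' p]
        [Algebra (ZMod p) L']
        (_ : IsFunctionField (AlgebraicClosure k) L') (t : L')
        (_ : Transcendental (AlgebraicClosure k) t)
        (_ : 0 < Module.finrank (IntermediateField.adjoin (AlgebraicClosure k) {t}) L')
        (_ : Module.finrank (IntermediateField.adjoin (AlgebraicClosure k) {t}) L' ≤ Dt)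
        (S : PlaceSys p (AlgebraicClosure k) L' (Place (AlgebraicClosure k) L'))
        (_ : ∀ v x, (S.pl v).o x = v.ord x)
        (_ : ∀ x : L', Transcendental (AlgebraicClosure k) x → ∀ T, hT S T x ≤
          Module.finrank (IntermediateField.adjoin (AlgebraicClosure k) {x}) L'),
        KProp p S r d ε (dl p r) H1)
    (K : Type) [Field K] [Algebra k K] (hN : IsFunctionField k K)
    (x₀ : K) (hx₀ : Transcendental k x₀) (hDt : Module.finrank k⟮x₀⟯ K ≤ Dt) (N : ℕ)
    (a : ℕ → K) (b : K) (har : a r ≠ 0)
    (hmult : IsAlgebraic k (a 0) ∨ Module.finrank (IntermediateField.adjoin k {a 0}) K ≤ N)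
    (hniso : ¬ IsotrivialPoly k (affPoly p r a b)) :
    (PrePer (affPoly p r a b)).encard ≤ (p ^ b2 p r d M H1 N : ℕ) := by
  classical
  haveI : CharP K p := charP_of_injective_algebraMap (algebraMap k K).injective p
  haveI := hN.1
  have hfg : (⊤ : IntermediateField k K).FG := IntermediateField.fg_top_iff.2 hN.1
  haveI := hN.finiteDimensional x₀ hx₀
  have hx₀alg : Algebra.IsAlgebraic (IntermediateField.adjoin k {x₀}) K := inferInstance
  let k' := AlgebraicClosure k
  let L := AlgebraicClosure K
  let j : k' →ₐ[k] L := IsAlgClosed.lift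
  letI : Algebra k' L := j.toRingHom.toAlgebra
  haveI : IsScalarTower k k' L := IsScalarTower.of_algebraMap_eq fun x => (j.commutes x).symm
  let K' : IntermediateField k' L := IntermediateField.adjoin k' (Set.range (algebraMap K L))
  let ι : K →+* K' := (algebraMap K L).codRestrict K'.toSubfield.toSubring
    (fun x => IntermediateField.subset_adjoin _ _ ⟨x, rfl⟩)
  letI : Algebra K K' := ι.toAlgebra
  have hι : ∀ x : K, ((algebraMap K K' x : K') : L) = algebraMap K L x := fun x => rfl
  haveI : IsScalarTower k K K' := IsScalarTower.of_algebraMap_eq fun x => by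
    apply Subtype.ext
    rw [hι, ← IsScalarTower.algebraMap_apply k K L]
    rfl
  haveI : IsScalarTower k k' K' := IsScalarTower.of_algebraMap_eq fun x => by
    apply Subtype.ext
    exact IsScalarTower.algebraMap_apply k k' L x
  have hgen : IntermediateField.adjoin k' (Set.range (algebraMap K K')) = ⊤ := by
    apply IntermediateField.lift_injective K'
    rw [IntermediateField.lift_adjoin, IntermediateField.lift_top]
    change _ = IntermediateField.adjoin k' (Set.range (algebraMap K L))
    congr 1
    ext z
    constructor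
    · rintro ⟨_, ⟨x, rfl⟩, rfl⟩; exact ⟨x, rfl⟩
    · rintro ⟨x, rfl⟩; exact ⟨_, ⟨x, rfl⟩, rfl⟩
  haveI : CharP k' p := charP_of_injective_algebraMap (algebraMap k k').injective p
  haveI : CharP K' p := charP_of_injective_algebraMap (algebraMap k' K').injective p
  letI : Algebra (ZMod p) K' := ZMod.algebra K' p
  letI : Algebra (ZMod p) K := ZMod.algebra K p
  have htrans : ∀ x : K, Transcendental k x → Transcendental k' (algebraMap K K' x) := by
    intro x hx halg
    have h1 : IsAlgebraic k (algebraMap K K' x) := halg.restrictScalars k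
    exact hx ((isAlgebraic_algebraMap_iff (algebraMap K K').injective).1 h1)
  have hfg' : (⊤ : IntermediateField k' K').FG := base_fg (k := k) (K := K) hfg hgen
  have htr' : ∃ x : K', Transcendental k' x ∧
      Algebra.IsAlgebraic (IntermediateField.adjoin k' {x}) K' :=
    ⟨algebraMap K K' x₀, htrans x₀ hx₀, base_alg x₀ hx₀alg hgen⟩
  obtain ⟨S, hSo, hdeg, halg⟩ := exists_placeSys_ord p k' K' hfg' htr'
  have hN' : IsFunctionField k' K' := Pool.Agent.Helper45.FF.isFunctionField_of hfg' htr'
  haveI := hN'.finiteDimensional (algebraMap K K' x₀) (htrans x₀ hx₀)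
  have hK : KProp p S r d ε (dl p r) H1 :=
    hKP K' hN' (algebraMap K K' x₀) (htrans x₀ hx₀) Module.finrank_pos
      ((base_finrank (k := k) (k' := k') (K' := K') x₀ hgen).trans hDt) S hSo hdeg
  have hinj : Function.Injective (algebraMap K K') := (algebraMap K K').injective
  set a' : ℕ → K' := fun i => algebraMap K K' (a i) with ha'
  set b' : K' := algebraMap K K' b with hb'
  have har' : a' r ≠ 0 := by
    simp only [ha']
    rw [Ne, map_eq_zero_iff _ hinj]
    exact har
  have hset := preper_of_dim p r a' b' _ (main2K p S r d M hr hd ε H1 hH10 hM hK N a' har' ?_ ?_)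
  · -- transfer
    have hstep : ∀ (n : ℕ) (x : K), algebraMap K K' ((fun z => (affPoly p r a b).eval z)^[n] x) =
        (affMap p r a' b')^[n] (algebraMap K K' x) := by
      intro n x
      induction n with
      | zero => rfl
      | succ n ih =>
        rw [Function.iterate_succ_apply', Function.iterate_succ_apply', ← ih]
        set z := (fun z => (affPoly p r a b).eval z)^[n] x
        simp only [affMap, addMap_apply, affPoly, ha', hb', eval_add, eval_C, eval_finsetSum,
          eval_mul, eval_pow, eval_X, map_add, map_sum, map_mul, map_pow]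
    refine le_trans ?_ hset
    rw [← hinj.encard_image]
    refine Set.encard_le_encard ?_
    rintro _ ⟨x, ⟨m, n, hmn, h⟩, rfl⟩
    refine ⟨m, n, hmn, ?_⟩
    rw [← hstep, ← hstep, h]
  · -- non-isotriviality
    by_contra hcon
    push Not at hcon
    apply hniso
    refine isotrivial_of_const p k K r hr a b har ?_
    intro i hi hai
    have hai' : a' i ≠ 0 := by
      simp only [ha']
      rw [Ne, map_eq_zero_iff _ hinj]
      exact hai
    obtain ⟨c, hc⟩ := const_of_mu p S r a' i har' hai' (hcon i hi hai')
    have h1 : algebraMap K L (a i ^ (p ^ r - 1) / a r ^ (p ^ i - 1)) = algebraMap k' L c := by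
      have h2 := congrArg (algebraMap K' L) hc
      have h3 : algebraMap K' L (algebraMap k' K' c) = algebraMap k' L c := rfl
      rw [h3] at h2
      rw [h2]
      simp only [ha', map_div₀, map_pow]
      rfl
    change IsAlgebraic k (algebraMap K L (a i ^ (p ^ r - 1) / a r ^ (p ^ i - 1)))
    rw [h1]
    exact (Algebra.IsAlgebraic.isAlgebraic (R := k) c).algebraMap
  · -- poles of the multiplier
    intro T
    by_cases h0 : a 0 = 0
    · have : ∀ v ∈ T, al a' (S.pl v) = 0 := by
        intro v _
        unfold al
        rw [if_pos]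
        simp only [ha']; rw [h0, map_zero]
      rw [Finset.sum_eq_zero this]
      exact Nat.cast_nonneg _
    have h0' : a' 0 ≠ 0 := by
      simp only [ha']
      rw [Ne, map_eq_zero_iff _ hinj]
      exact h0
    by_cases hal : IsAlgebraic k (a 0)
    · have h1 : IsAlgebraic k' (a' 0) := by
        have h2 : IsAlgebraic k (a' 0) := hal.algebraMap
        exact h2.tower_top k'
      have : ∀ v ∈ T, al a' (S.pl v) = 0 := by
        intro v _
        unfold al
        rw [if_neg h0', halg _ h1 v h0']
        simp
      rw [Finset.sum_eq_zero this]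
      exact Nat.cast_nonneg _
    · have h1 : Module.finrank (IntermediateField.adjoin k {a 0}) K ≤ N := by
        rcases hmult with h | h
        · exact absurd h hal
        · exact h
      haveI : FiniteDimensional (IntermediateField.adjoin k {a 0}) K :=
        hN.finiteDimensional (a 0) hal
      have h2 := base_finrank (k := k) (k' := k') (K' := K') (a 0) hgen
      have h3 := hdeg (a' 0) (htrans (a 0) hal) T
      have h4 : ∀ v ∈ T, al a' (S.pl v) = max 0 (-((S.pl v).o (a' 0) : ℚ)) := by
        intro v _
        unfold al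
        rw [if_neg h0']
      rw [Finset.sum_congr rfl h4]
      refine h3.trans ?_
      exact_mod_cast h2.trans h1

/-- **Strong uniform boundedness for affine-additive polynomials with multiplier of bounded
height.** -/
theorem additive_subp (p : ℕ) [Fact p.Prime] (k K : Type) [Field k] [CharP k p] [Field K]
    [Algebra k K] (hfg : (⊤ : IntermediateField k K).FG)
    (htr : ∃ x : K, Transcendental k x ∧ Algebra.IsAlgebraic (IntermediateField.adjoin k {x}) K)
    (r N D : ℕ) (hr : 1 ≤ r) :
    ∃ B : ℕ, ∀ (L : Type) [Field L] [Algebra k L] [Algebra K L] [IsScalarTower k K L]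
      [FiniteDimensional K L], Module.finrank K L ≤ D →
      ∀ (a : ℕ → L) (b : L), a r ≠ 0 →
      (IsAlgebraic k (a 0) ∨ Module.finrank (IntermediateField.adjoin k {a 0}) L ≤ N) →
      ¬ IsotrivialPoly k (affPoly p r a b) →
      (PrePer (affPoly p r a b)).encard ≤ B := by
  classical
  have hN : IsFunctionField k K := Pool.Agent.Helper45.FF.isFunctionField_of hfg htr
  obtain ⟨x₀, hx₀, -⟩ := htr
  haveI : CharP (AlgebraicClosure k) p :=
    charP_of_injective_algebraMap (algebraMap k (AlgebraicClosure k)).injective p
  obtain ⟨d, ε, H1, hd, hε, hH10, hKP⟩ := KP p (AlgebraicClosure k)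
    (Module.finrank k⟮x₀⟯ K * D) r (by omega) (dl p r) (dl_pos p r)
  obtain ⟨M, hM⟩ := exists_nat_ge (2 / ε)
  rw [div_le_iff₀ hε] at hM
  refine ⟨p ^ b2 p r d M H1 N, ?_⟩
  intro L _ _ _ _ _ hD a b har hmult hniso
  have ht : Transcendental k (algebraMap K L x₀) := by
    rw [transcendental_algebraMap_iff (algebraMap K L).injective]
    exact hx₀
  exact per_field p k r d M hr hd ε H1 hH10 (by rw [mul_comm]; exact hM) _ hKP L (ff_tower hN)
    (algebraMap K L x₀) ht (by
      rw [tower_finrank x₀ hx₀ ht]
      exact Nat.mul_le_mul_left _ hD) N a b har hmult hniso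

end per

end Pool.Agent.Helper34.Str
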