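import Pool.Agent.Helper34.Str.Artin

/-!
# Lemma U: equal products of additive maps
-/

set_option autoImplicit false
set_option linter.unusedSectionVars false
set_option linter.style.haveILetI false

namespace Pool.Agent.Helper34.Str

open Polynomial

section U

variable (p : ℕ) [hp : Fact p.Prime] {J E W : Type*} [Fintype J] [Field E] [CharP E p]
  [IsAlgClosed E] [AddCommGroup W]

/-- Frobenius independence of a finite subfamily -/
def FI (bb : J → (W →+ E)) (S : Finset J) : Prop :=
  ∀ β : J → E[X], (∀ i, AddP p (β i)) → (∀ w, ∑ i ∈ S, (β i).eval (bb i w) = 0) →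
    ∀ i ∈ S, β i = 0

theorem exists_basis (bb : J → (W →+ E)) (j0 : J) (hinf : (Set.range (bb j0)).Infinite) :
    ∃ S : Finset J, j0 ∈ S ∧ FI p bb S ∧ ∀ t, ∃ α : E[X], AddP p α ∧ α ≠ 0 ∧
      ∃ β : J → E[X], (∀ i, AddP p (β i)) ∧
        ∀ w, α.eval (bb t w) = ∑ i ∈ S, (β i).eval (bb i w) := by
  classical
  let T : Finset (Finset J) := Finset.univ.filter fun S => j0 ∈ S ∧ FI p bb S
  have hT : T.Nonempty := by
    refine ⟨{j0}, Finset.mem_filter.2 ⟨Finset.mem_univ _, Finset.mem_singleton_self _, ?_⟩⟩
    intro β _ h i hi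
    rw [Finset.mem_singleton] at hi
    subst hi
    simp only [Finset.sum_singleton] at h
    refine eval_injOn_of_infinite (Set.range (bb i)) hinf ?_
    rintro _ ⟨w, rfl⟩
    rw [h w, eval_zero]
  obtain ⟨S, hS, hmax⟩ := Finset.exists_max_image T Finset.card hT
  obtain ⟨-, hS0, hS1⟩ := Finset.mem_filter.1 hS
  refine ⟨S, hS0, hS1, fun t => ?_⟩
  by_cases ht : t ∈ S
  · refine ⟨X, addP_X, X_ne_zero, fun i => if i = t then X else 0, ?_, ?_⟩
    · intro i
      dsimp only
      split_ifs
      · exact addP_X
      · exact AddP.zero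
    · intro w
      rw [Finset.sum_eq_single t]
      · simp
      · intro b _ hb
        simp [hb]
      · intro h
        exact absurd ht h
  · have h1 : ¬ FI p bb (insert t S) := by
      intro h
      have h2 := hmax (insert t S) (Finset.mem_filter.2 ⟨Finset.mem_univ _,
        Finset.mem_insert_of_mem hS0, h⟩)
      rw [Finset.card_insert_of_notMem ht] at h2
      omega
    simp only [FI, not_forall] at h1
    obtain ⟨β, hβ, hrel, i, hi, hne⟩ := h1
    have hrel' : ∀ w, (β t).eval (bb t w) = ∑ i ∈ S, (-(β i)).eval (bb i w) := by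
      intro w
      have := hrel w
      rw [Finset.sum_insert ht] at this
      simp only [eval_neg, Finset.sum_neg_distrib]
      linear_combination this
    refine ⟨β t, hβ t, ?_, fun i => -(β i), fun i => (hβ i).neg, hrel'⟩
    intro h0
    rcases Finset.mem_insert.1 hi with hi | hi
    · rw [hi] at hne; exact hne h0
    · refine hne (hS1 β hβ ?_ i hi)
      intro w
      have := hrel w
      rwa [Finset.sum_insert ht, h0, eval_zero, zero_add] at this

theorem lemmaU {ι κ : Type*} [Fintype ι] [Fintype κ] (Xf : ι → (W →+ E)) (Yf : κ → (W →+ E))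
    (h : ∀ w, ∏ i, Xf i w = ∏ j, Yf j w) (i0 : ι) (hinf : (Set.range (Xf i0)).Infinite) :
    ∃ j, ∃ α β : E[X], AddP p α ∧ AddP p β ∧ α ≠ 0 ∧
      ∀ w, α.eval (Yf j w) = β.eval (Xf i0 w) := by
  classical
  obtain ⟨S, h0, hFI, hdep⟩ := exists_basis p (Sum.elim Xf Yf) (Sum.inl i0) hinf
  set bb : ι ⊕ κ → (W →+ E) := Sum.elim Xf Yf with hbb
  let s0 : S := ⟨Sum.inl i0, h0⟩
  let Φ : MvPolynomial S E →ₐ[E] (W → E) := MvPolynomial.aeval fun s w => bb s w
  have hΦ : ∀ (P : MvPolynomial S E) (w : W), Φ P w = MvPolynomial.eval (fun s : S => bb s w) P := by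
    intro P w
    induction P using MvPolynomial.induction_on with
    | C a => simp [Φ]
    | add P Q hP hQ => rw [map_add, map_add, Pi.add_apply, hP, hQ]
    | mul_X P i hP => rw [map_mul, map_mul, Pi.mul_apply, hP]; simp [Φ]
  have hinj : Function.Injective Φ := by
    rw [injective_iff_map_eq_zero]
    intro P hP
    by_contra hne
    obtain ⟨β, hβ, ⟨i, hi⟩, hrel⟩ := artin p (fun s : S => bb s) P hne (fun w => by
      rw [← hΦ, hP]; rfl)
    refine hi ?_
    have := hFI (fun j => if hj : j ∈ S then β ⟨j, hj⟩ else 0) ?_ ?_ i i.2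
    · simpa using this
    · intro j
      split_ifs
      · exact hβ _
      · exact AddP.zero
    · intro w
      rw [← hrel w, ← Finset.sum_coe_sort S]
      exact Finset.sum_congr rfl fun j _ => by simp
  letI : Algebra (MvPolynomial S E) (W → E) := Φ.toRingHom.toAlgebra
  have halg : ∀ P, algebraMap (MvPolynomial S E) (W → E) P = Φ P := fun _ => rfl
  -- relations in the ring
  have hrelT : ∀ (α : E[X]) (t : ι ⊕ κ) (β : ι ⊕ κ → E[X]),
      (∀ w, α.eval (bb t w) = ∑ i ∈ S, (β i).eval (bb i w)) →
      Polynomial.aeval (fun w => bb t w) α =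
        Φ (∑ s : S, Polynomial.aeval (MvPolynomial.X s : MvPolynomial S E) (β s)) := by
    intro α t β hrel
    have hpi : ∀ (g : W → E) (P : E[X]) (w : W), Polynomial.aeval g P w = P.eval (g w) := by
      intro g P w
      induction P using Polynomial.induction_on' with
      | add P Q hP hQ => rw [map_add, Pi.add_apply, hP, hQ, eval_add]
      | monomial n a => simp [Polynomial.aeval_monomial]
    funext w
    rw [hpi, hrel, map_sum, Finset.sum_apply, ← Finset.sum_coe_sort S]
    refine Finset.sum_congr rfl fun s _ => ?_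
    have : Φ (Polynomial.aeval (MvPolynomial.X s : MvPolynomial S E) (β s)) =
        Polynomial.aeval (fun w => bb s w) (β s) := by
      rw [← Polynomial.aeval_algHom_apply]
      congr 1
      simp [Φ]
    rw [this, hpi]
  have hint : ∀ t, IsIntegral (MvPolynomial S E) (fun w => bb t w) := by
    intro t
    obtain ⟨α, hα, hα0, β, hβ, hrel⟩ := hdep t
    have hl := leadingCoeff_ne_zero.2 hα0
    have hmon : ((α * C α.leadingCoeff⁻¹).map (algebraMap E (MvPolynomial S E))).Monic :=
      (monic_mul_leadingCoeff_inv hα0).map _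
    have hdeg : ((α * C α.leadingCoeff⁻¹).map (algebraMap E (MvPolynomial S E))).natDegree ≠ 0 := by
      rw [(monic_mul_leadingCoeff_inv hα0).natDegree_map, natDegree_mul_leadingCoeff_inv _ hα0]
      have := hα.deg_pos hα0
      omega
    refine IsIntegral.of_aeval_monic hmon hdeg ?_
    have key : (Polynomial.aeval (fun w => bb t w))
        ((α * C α.leadingCoeff⁻¹).map (algebraMap E (MvPolynomial S E))) =
        algebraMap (MvPolynomial S E) (W → E)
          ((∑ s : S, Polynomial.aeval (MvPolynomial.X s : MvPolynomial S E) (β s)) *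
            MvPolynomial.C α.leadingCoeff⁻¹) := by
      rw [halg, map_mul, ← hrelT α t β hrel, Polynomial.aeval_def, Polynomial.eval₂_map]
      have : (algebraMap (MvPolynomial S E) (W → E)).comp (algebraMap E (MvPolynomial S E)) =
          algebraMap E (W → E) := by
        ext a w
        change Φ (MvPolynomial.C a) w = _
        rw [hΦ, MvPolynomial.eval_C]; rfl
      rw [this, eval₂_mul, eval₂_C, Polynomial.aeval_def]
      congr 1
      funext w
      rw [hΦ, MvPolynomial.eval_C]; rfl
    rw [key]
    exact isIntegral_algebraMap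
  let B := integralClosure (MvPolynomial S E) (W → E)
  let xx : ι ⊕ κ → B := fun t => ⟨fun w => bb t w, hint t⟩
  let P : Ideal (MvPolynomial S E) := Ideal.span {MvPolynomial.X s0}
  have hXprime : Prime (MvPolynomial.X s0 : MvPolynomial S E) := MvPolynomial.X_prime
  haveI hPprime : P.IsPrime := (Ideal.span_singleton_prime hXprime.ne_zero).2 hXprime
  obtain ⟨Q, -, hQprime, hQcomap⟩ := Ideal.exists_ideal_over_prime_of_isIntegral
    (S := B) P (⊥ : Ideal B) (by
      intro x hx
      rw [Ideal.mem_comap, Ideal.mem_bot] at hx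
      have h1 : algebraMap (MvPolynomial S E) (W → E) x = 0 := by
        have := congrArg (algebraMap B (W → E)) hx
        rwa [map_zero, ← IsScalarTower.algebraMap_apply] at this
      rw [halg] at h1
      have : x = 0 := hinj (by rw [h1, map_zero])
      rw [this]
      exact P.zero_mem)
  have hX0 : xx (Sum.inl i0) ∈ Q := by
    have h1 : (MvPolynomial.X s0 : MvPolynomial S E) ∈ Ideal.comap (algebraMap _ B) Q := by
      rw [hQcomap]
      exact Ideal.subset_span rfl
    rw [Ideal.mem_comap] at h1
    have h2 : algebraMap (MvPolynomial S E) B (MvPolynomial.X s0) = xx (Sum.inl i0) := by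
      apply Subtype.ext
      change Φ (MvPolynomial.X s0) = fun w => bb (Sum.inl i0) w
      simp [Φ, s0]
    rwa [h2] at h1
  have hprod : ∏ i, xx (Sum.inl i) = ∏ j, xx (Sum.inr j) := by
    apply Subtype.ext
    have e1 : ((∏ i, xx (Sum.inl i) : B) : W → E) =
        ∏ i, (xx (Sum.inl i) : W → E) := map_prod B.val _ _
    have e2 : ((∏ j, xx (Sum.inr j) : B) : W → E) =
        ∏ j, (xx (Sum.inr j) : W → E) := map_prod B.val _ _
    rw [e1, e2]
    funext w
    rw [Finset.prod_apply, Finset.prod_apply]
    exact h w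
  have hmem : ∏ j, xx (Sum.inr j) ∈ Q := by
    rw [← hprod]
    exact Ideal.mem_of_dvd Q (Finset.dvd_prod_of_mem _ (Finset.mem_univ i0)) hX0
  obtain ⟨j, -, hj⟩ := (Ideal.IsPrime.prod_mem_iff).1 hmem
  obtain ⟨α, hα, hα0, β, hβ, hrel⟩ := hdep (Sum.inr j)
  set T : MvPolynomial S E := ∑ s : S, Polynomial.aeval (MvPolynomial.X s : MvPolynomial S E) (β s)
    with hT
  have hTmem : T ∈ P := by
    rw [← hQcomap, Ideal.mem_comap]
    letI : Algebra E B := ((algebraMap (MvPolynomial S E) B).comp
      (algebraMap E (MvPolynomial S E))).toAlgebra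
    have h1 : algebraMap (MvPolynomial S E) B T = Polynomial.aeval (xx (Sum.inr j)) α := by
      apply Subtype.ext
      change Φ T = _
      rw [hT, ← hrelT α _ β hrel]
      have h2 : ((Polynomial.aeval (xx (Sum.inr j)) α : B) : W → E) =
          Polynomial.eval₂ ((algebraMap B (W → E)).comp (algebraMap E B))
            (algebraMap B (W → E) (xx (Sum.inr j))) α := by
        rw [← Polynomial.hom_eval₂]; rfl
      rw [h2, Polynomial.aeval_def]
      congr 1
      ext a w
      change _ = Φ (MvPolynomial.C a) w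
      rw [hΦ, MvPolynomial.eval_C]; rfl
    rw [h1]
    have h3 : α.coeff 0 = 0 := by
      rw [coeff_zero_eq_eval_zero, hα.ev_zero]
    obtain ⟨α', hα'⟩ := Polynomial.X_dvd_iff.2 h3
    rw [hα', map_mul, Polynomial.aeval_X]
    exact Q.mul_mem_right _ hj
  have hβ0 : ∀ s : S, s ≠ s0 → β s = 0 := by
    intro s hs
    obtain ⟨R, hR⟩ := Ideal.mem_span_singleton.1 hTmem
    let ψ : MvPolynomial S E →ₐ[E] E[X] :=
      MvPolynomial.aeval fun s' => if s' = s then (X : E[X]) else 0
    have h1 : ψ T = 0 := by
      rw [hR, map_mul]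
      have : ψ (MvPolynomial.X s0) = 0 := by
        simp only [ψ, MvPolynomial.aeval_X]
        rw [if_neg (Ne.symm hs)]
      rw [this, zero_mul]
    have h2 : ψ T = β s := by
      rw [hT, map_sum, Finset.sum_eq_single s]
      · rw [← Polynomial.aeval_algHom_apply]
        simp only [ψ, MvPolynomial.aeval_X, if_true]
        simp
      · intro s' _ hs'
        rw [← Polynomial.aeval_algHom_apply]
        simp only [ψ, MvPolynomial.aeval_X]
        rw [if_neg hs']
        have h4 : (β s').coeff 0 = 0 := by
          rw [coeff_zero_eq_eval_zero, (hβ _).ev_zero]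
        obtain ⟨β', hβ'⟩ := Polynomial.X_dvd_iff.2 h4
        rw [hβ', map_mul, Polynomial.aeval_X, zero_mul]
      · intro hh
        exact absurd (Finset.mem_univ _) hh
    rw [← h2, h1]
  refine ⟨j, α, β (Sum.inl i0), hα, hβ _, hα0, fun w => ?_⟩
  have h1 := hrel w
  rw [← Finset.sum_coe_sort S, Finset.sum_eq_single s0] at h1
  · exact h1
  · intro s _ hs
    rw [hβ0 s hs, eval_zero]
  · intro hh
    exact absurd (Finset.mem_univ _) hh

end U

end Pool.Agent.Helper34.Str
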