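import Pool.Agent.Helper34.Str.Z
import Pool.Agent.Helper34.Str.Rat

/-!
# The ultraproduct argument
-/

set_option autoImplicit false
set_option linter.unusedSectionVars false
set_option linter.style.haveILetI false

namespace Pool.Agent.Helper34.Str

open Filter

universe u

section sep

open Polynomial IntermediateField in
theorem sep_pow (p : ℕ) [hp : Fact p.Prime] {G : Type*} [Field G] [CharP G p] {C L : Subfield G}
    (hCL : ∀ m : ℕ, ∀ c ∈ C, ∃ u ∈ L, u ^ p ^ m = c) {x : G} (hx : x ∈ L)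
    (halg : IsAlgebraic C x) : ∃ u ∈ L, u ^ p = x := by
  haveI : CharP C p := ((algebraMap C G).charP_iff_charP p).2 inferInstance
  obtain ⟨g, h1, n, h2⟩ := (minpoly.irreducible halg.isIntegral).hasSeparableContraction p
  have hy : aeval (x ^ p ^ n) g = 0 := by
    have := congrArg (aeval x) h2
    rwa [expand_aeval, minpoly.aeval] at this
  have hsep : IsSeparable C (x ^ p ^ n) := h1.of_dvd (minpoly.dvd C _ hy)
  have hadj := adjoin_simple_eq_adjoin_pow_expChar_pow_of_isSeparable C G hsep p (n + 1)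
  let N : IntermediateField C G :=
    { L.map (iterateFrobenius G p (n + 1)) with
      algebraMap_mem' := by
        intro c
        obtain ⟨u, hu, h⟩ := hCL (n + 1) c c.2
        exact ⟨u, hu, h⟩ }
  have hle : C⟮(x ^ p ^ n) ^ p ^ (n + 1)⟯ ≤ N := by
    rw [adjoin_simple_le_iff]
    exact ⟨x ^ p ^ n, L.pow_mem hx _, rfl⟩
  have hmem : x ^ p ^ n ∈ N := by
    apply hle
    rw [← hadj]
    exact mem_adjoin_simple_self C _
  obtain ⟨u, hu, h⟩ := hmem
  refine ⟨u, hu, ?_⟩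
  apply iterateFrobenius_inj G p n
  rw [iterateFrobenius_def, iterateFrobenius_def, ← h, ← pow_mul, ← pow_succ']
  rfl

end sep

section LDmap

variable {G E : Type*} [Field G] [Field E] (j : G →+* E) {K0 C : Subfield G}

theorem alg_of_map {K : Subfield G} {x : G} (h : IsAlgebraic (K.map j) (j x)) :
    IsAlgebraic K x := by
  rw [alg_iff] at h ⊢
  obtain ⟨P, hP, h1, h2⟩ := h
  rw [ov_iff] at hP
  obtain ⟨Q, hQ⟩ : ∃ Q : Polynomial G, Q.map j = P := by
    have : P ∈ Polynomial.lifts j := by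
      rw [Polynomial.lifts_iff_coeff_lifts]
      intro n
      obtain ⟨y, _, hy⟩ := hP n
      exact ⟨y, hy⟩
    exact (Polynomial.mem_lifts _).1 this
  subst hQ
  refine ⟨Q, ov_iff.2 fun n => ?_, ?_, ?_⟩
  · obtain ⟨y, hyK, hy⟩ := hP n
    rw [Polynomial.coeff_map] at hy
    rw [← j.injective hy]
    exact hyK
  · rintro rfl; simp at h1
  · rw [Polynomial.eval_map, Polynomial.eval₂_at_apply] at h2
    exact j.injective (by rw [h2, map_zero])

end LDmap

theorem LD.map' {G E : Type u} [Field G] [Field E] (j : G →+* E) {K0 C : Subfield G}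
    (h : LD K0 C) : LD (K0.map j) (C.map j) := by
  intro n x c hx hc hne hs
  choose x' hx' hxe using hx
  choose c' hc' hce using hc
  obtain ⟨y, h1, ⟨i, h2⟩, h3⟩ := h n x' c' hx' hc' (by
    obtain ⟨i, hi⟩ := hne
    refine ⟨i, ?_⟩
    rintro h0
    rw [← hxe i, h0, map_zero] at hi
    exact hi rfl) (by
    apply j.injective
    rw [map_sum, map_zero, ← hs]
    refine Finset.sum_congr rfl fun i _ => ?_
    rw [map_mul, hxe, hce])
  refine ⟨fun i => j (y i), fun i => ?_, ⟨i, ?_⟩, ?_⟩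
  · exact ⟨⟨y i, (h1 i).1, rfl⟩, ⟨y i, (h1 i).2, rfl⟩⟩
  · exact (map_ne_zero j).2 h2
  · have := congrArg j h3
    rw [map_sum, map_zero] at this
    rw [← this]
    refine Finset.sum_congr rfl fun i _ => ?_
    rw [map_mul, hce]

section ult

/-- the ultrapower -/
abbrev Ga (Ω : Type u) : Type u := Germ ((hyperfilter ℕ : Ultrafilter ℕ) : Filter ℕ) Ω

/-- germ of a sequence -/
noncomputable abbrev gm {Ω : Type u} [Field Ω] : (ℕ → Ω) →+* Ga Ω :=
  Germ.coeRingHom _

variable {Ω : Type u} [Field Ω]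

theorem gm_eq {x y : ℕ → Ω} : gm x = gm y ↔ ∀ᶠ n in (hyperfilter ℕ : Filter ℕ), x n = y n :=
  Germ.coe_eq

theorem gm_eq_zero {x : ℕ → Ω} : gm x = 0 ↔ ∀ᶠ n in (hyperfilter ℕ : Filter ℕ), x n = 0 := by
  rw [← map_zero gm, gm_eq]
  rfl

theorem gm_surj (x : Ga Ω) : ∃ y : ℕ → Ω, gm y = x := by
  obtain ⟨y, hy⟩ := Quotient.exists_rep x
  exact ⟨y, hy⟩

theorem gm_inv (x : ℕ → Ω) : (gm x)⁻¹ = gm fun n => (x n)⁻¹ := rfl

theorem gm_neg (x : ℕ → Ω) : -(gm x) = gm fun n => -(x n) := rfl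

theorem ev_of_ge {P : ℕ → Prop} (N : ℕ) (h : ∀ n, N ≤ n → P n) :
    ∀ᶠ n in (hyperfilter ℕ : Filter ℕ), P n := by
  have : ∀ᶠ n in atTop, P n := eventually_atTop.2 ⟨N, h⟩
  rw [← Nat.cofinite_eq_atTop] at this
  exact Filter.hyperfilter_le_cofinite this

theorem charP_Ga (p : ℕ) [CharP Ω p] : CharP (Ga Ω) p := by
  have h : Function.Injective (gm.comp (Pi.constRingHom ℕ Ω)) := RingHom.injective _
  exact charP_of_injective_ringHom h p

variable {k : Type*} [Field k] [Algebra (RatFunc k) Ω] (H : ℕ → ℝ)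

/-- `h = o(H)` -/
def sm (h : ℕ → ℕ) : Prop :=
  ∀ j : ℕ, ∀ᶠ n in (hyperfilter ℕ : Filter ℕ), ((j : ℝ) + 1) * (h n : ℝ) ≤ H n

variable {H}

theorem sm_add {h1 h2 : ℕ → ℕ} (a1 : sm H h1) (a2 : sm H h2) : sm H (fun n => h1 n + h2 n) := by
  intro j
  filter_upwards [a1 (2 * j + 1), a2 (2 * j + 1)] with n e1 e2
  push_cast at *
  nlinarith

theorem sm_zero (hH : ∀ n, 0 ≤ H n) : sm H (fun _ => 0) := by
  intro j
  refine Eventually.of_forall fun n => ?_
  simpa using hH n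

theorem sm_sum (hH : ∀ n, 0 ≤ H n) {ι : Type*} (I : Finset ι) (h : ι → ℕ → ℕ)
    (a : ∀ i ∈ I, sm H (h i)) : sm H (fun n => ∑ i ∈ I, h i n) := by
  classical
  induction I using Finset.induction_on with
  | empty => simpa using sm_zero hH
  | insert b I hb ih =>
    simp only [Finset.sum_insert hb]
    exact sm_add (a b (Finset.mem_insert_self _ _)) (ih fun i hi => a i
      (Finset.mem_insert_of_mem hi))

theorem sm_mul (hH : ∀ n, 0 ≤ H n) (N : ℕ) {h : ℕ → ℕ} (a : sm H h) :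
    sm H (fun n => N * h n) := by
  have := sm_sum hH (Finset.range N) (fun _ => h) (fun _ _ => a)
  simpa using this

/-- elements of small height -/
def K0 (hH : ∀ n, 0 ≤ H n) (k Ω) [Field k] [Field Ω] [Algebra (RatFunc k) Ω] :
    Subfield (Ga Ω) where
  carrier := {x | ∃ (a : ℕ → RatFunc k) (h : ℕ → ℕ), (∀ n, hle (a n) (h n)) ∧ sm H h ∧
    x = gm fun n => algebraMap (RatFunc k) Ω (a n)}
  mul_mem' := by
    rintro _ _ ⟨a, h, h1, h2, rfl⟩ ⟨a', h', h1', h2', rfl⟩
    refine ⟨fun n => a n * a' n, _, fun n => (h1 n).mul (h1' n), sm_add h2 h2', ?_⟩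
    rw [← RingHom.map_mul gm]
    congr 1
    funext n
    exact (RingHom.map_mul (algebraMap (RatFunc k) Ω) _ _).symm
  one_mem' := ⟨fun _ => 1, fun _ => 0, fun _ => hle_one, sm_zero hH, by
    rw [← RingHom.map_one gm]; congr 1; funext n
    exact (RingHom.map_one (algebraMap (RatFunc k) Ω)).symm⟩
  add_mem' := by
    rintro _ _ ⟨a, h, h1, h2, rfl⟩ ⟨a', h', h1', h2', rfl⟩
    refine ⟨fun n => a n + a' n, _, fun n => (h1 n).add (h1' n), sm_add h2 h2', ?_⟩
    rw [← RingHom.map_add gm]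
    congr 1
    funext n
    exact (RingHom.map_add (algebraMap (RatFunc k) Ω) _ _).symm
  zero_mem' := ⟨fun _ => 0, fun _ => 0, fun _ => hle_zero, sm_zero hH, by
    rw [← RingHom.map_zero gm]; congr 1; funext n
    exact (RingHom.map_zero (algebraMap (RatFunc k) Ω)).symm⟩
  neg_mem' := by
    rintro _ ⟨a, h, h1, h2, rfl⟩
    refine ⟨fun n => - a n, h, fun n => (h1 n).neg, h2, ?_⟩
    rw [gm_neg]
    congr 1
    funext n
    exact (RingHom.map_neg (algebraMap (RatFunc k) Ω) _).symm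
  inv_mem' := by
    rintro _ ⟨a, h, h1, h2, rfl⟩
    refine ⟨fun n => (a n)⁻¹, h, fun n => (h1 n).inv, h2, ?_⟩
    rw [gm_inv]
    congr 1
    funext n
    exact (map_inv₀ (algebraMap (RatFunc k) Ω) _).symm

theorem neg_pow_pp (p : ℕ) [Fact p.Prime] [CharP Ω p] (x : Ω) (e : ℕ) :
    (-x) ^ p ^ e = - x ^ p ^ e := by
  have h1 := add_pow_char_pow (R := Ω) (p := p) (n := e) x (-x)
  rw [add_neg_cancel, zero_pow (pow_pos (Fact.out : p.Prime).pos _).ne'] at h1
  exact (neg_eq_of_add_eq_zero_right h1.symm).symm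

/-- large Frobenius powers -/
def Cq (p : ℕ) [Fact p.Prime] (ex : ℕ → ℕ) (k Ω) [Field k] [Field Ω] [Algebra (RatFunc k) Ω]
    [CharP Ω p] : Subfield (Ga Ω) where
  carrier := {x | ∃ (a : ℕ → RatFunc k),
    x = gm fun n => algebraMap (RatFunc k) Ω (a n) ^ p ^ ex n}
  mul_mem' := by
    rintro _ _ ⟨a, rfl⟩ ⟨a', rfl⟩
    refine ⟨fun n => a n * a' n, ?_⟩
    rw [← RingHom.map_mul gm]
    congr 1
    funext n
    rw [Pi.mul_apply, RingHom.map_mul, mul_pow]
  one_mem' := ⟨fun _ => 1, by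
    rw [← RingHom.map_one gm]; congr 1; funext n
    rw [RingHom.map_one, one_pow]; rfl⟩
  add_mem' := by
    rintro _ _ ⟨a, rfl⟩ ⟨a', rfl⟩
    refine ⟨fun n => a n + a' n, ?_⟩
    rw [← RingHom.map_add gm]
    congr 1
    funext n
    rw [Pi.add_apply, RingHom.map_add, add_pow_char_pow]
  zero_mem' := ⟨fun _ => 0, by
    rw [← RingHom.map_zero gm]; congr 1; funext n
    rw [RingHom.map_zero, zero_pow (pow_pos (Fact.out : p.Prime).pos _).ne']; rfl⟩
  neg_mem' := by
    rintro _ ⟨a, rfl⟩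
    refine ⟨fun n => - a n, ?_⟩
    rw [gm_neg]
    congr 1
    funext n
    rw [RingHom.map_neg, neg_pow_pp]
  inv_mem' := by
    rintro _ ⟨a, rfl⟩
    refine ⟨fun n => (a n)⁻¹, ?_⟩
    rw [gm_inv]
    congr 1
    funext n
    rw [map_inv₀ (algebraMap (RatFunc k) Ω), inv_pow]

/-- ultraproduct of subfields -/
def Lst (Lf : ℕ → Subfield Ω) : Subfield (Ga Ω) where
  carrier := {x | ∃ a : ℕ → Ω, (∀ n, a n ∈ Lf n) ∧ x = gm a}
  mul_mem' := by
    rintro _ _ ⟨a, h, rfl⟩ ⟨a', h', rfl⟩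
    exact ⟨a * a', fun n => (Lf n).mul_mem (h n) (h' n), (map_mul _ _ _).symm⟩
  one_mem' := ⟨1, fun n => (Lf n).one_mem, (map_one _).symm⟩
  add_mem' := by
    rintro _ _ ⟨a, h, rfl⟩ ⟨a', h', rfl⟩
    exact ⟨a + a', fun n => (Lf n).add_mem (h n) (h' n), (map_add _ _ _).symm⟩
  zero_mem' := ⟨0, fun n => (Lf n).zero_mem, (map_zero _).symm⟩
  neg_mem' := by
    rintro _ ⟨a, h, rfl⟩
    exact ⟨-a, fun n => (Lf n).neg_mem (h n), (map_neg _ _).symm⟩
  inv_mem' := by
    rintro _ ⟨a, h, rfl⟩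
    exact ⟨fun n => (a n)⁻¹, fun n => (Lf n).inv_mem (h n), gm_inv a⟩

end ult

section LDult

variable (p : ℕ) [hp : Fact p.Prime] {Ω : Type u} [Field Ω] [CharP Ω p] {k : Type*} [Field k]
  [CharP k p] [PerfectRing k p] [Algebra (RatFunc k) Ω] {H : ℕ → ℝ} (hH : ∀ n, 0 ≤ H n)

theorem LD_ult (ex : ℕ → ℕ) (hex : sm H (fun n => p ^ ex n)) :
    LD (K0 hH k Ω) (Cq p ex k Ω) := by
  classical
  intro N x c hx hc hne hs
  choose a h ha hsm hxa using hx
  choose b hcb using hc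
  have hinj : Function.Injective (algebraMap (RatFunc k) Ω) := (algebraMap (RatFunc k) Ω).injective
  -- the relation eventually
  have hrel : ∀ᶠ n in (hyperfilter ℕ : Filter ℕ), ∑ i, a i n * b i n ^ p ^ ex n = 0 := by
    have h1 : gm (fun n => ∑ i, algebraMap (RatFunc k) Ω (a i n) *
        algebraMap (RatFunc k) Ω (b i n) ^ p ^ ex n) = 0 := by
      rw [← hs]
      have : (fun n => ∑ i, algebraMap (RatFunc k) Ω (a i n) *
        algebraMap (RatFunc k) Ω (b i n) ^ p ^ ex n) =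
        ∑ i, (fun n => algebraMap (RatFunc k) Ω (a i n)) *
          (fun n => algebraMap (RatFunc k) Ω (b i n) ^ p ^ ex n) := by
        funext n
        rw [Finset.sum_apply]
        rfl
      rw [this, map_sum]
      refine Finset.sum_congr rfl fun i _ => ?_
      rw [map_mul, hxa i, hcb i]
    rw [gm_eq_zero] at h1
    filter_upwards [h1] with n hn
    apply hinj
    rw [map_sum, map_zero, ← hn]
    refine Finset.sum_congr rfl fun i _ => ?_
    rw [map_mul, map_pow]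
  obtain ⟨i0, hi0⟩ := hne
  have hne0 : ∀ᶠ n in (hyperfilter ℕ : Filter ℕ), a i0 n ≠ 0 := by
    rw [hxa i0, Ne, gm_eq_zero, ← Ultrafilter.eventually_not] at hi0
    filter_upwards [hi0] with n hn h0
    exact hn (by rw [h0, map_zero])
  let hs' : ℕ → ℕ := fun n => ∑ i, h i n
  have hpt : ∀ n, ∃ y : Fin N → RatFunc k, (∀ i, hle (y i ^ p ^ ex n) (N * hs' n + p ^ ex n)) ∧
      ((∑ i, a i n * b i n ^ p ^ ex n = 0 ∧ a i0 n ≠ 0) → (∃ i, y i ≠ 0) ∧
        ∑ i, y i * b i n = 0) := by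
    intro n
    by_cases hcase : ∑ i, a i n * b i n ^ p ^ ex n = 0 ∧ a i0 n ≠ 0
    · obtain ⟨y, h1, ⟨i1, -, h2⟩, h3⟩ := PL' p (ex n) Finset.univ (fun i => a i n)
        (fun i => b i n) (hs' n) (fun i _ => (ha i n).mono
          (Finset.single_le_sum (f := fun i => h i n) (fun _ _ => Nat.zero_le _)
            (Finset.mem_univ i)))
        ⟨i0, Finset.mem_univ _, hcase.2⟩ hcase.1
      rw [Finset.card_univ, Fintype.card_fin] at h1
      exact ⟨y, fun i => h1 i (Finset.mem_univ _), fun _ => ⟨⟨i1, h2⟩, h3⟩⟩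
    · refine ⟨fun _ => 0, fun i => ?_, fun h => absurd h hcase⟩
      rw [zero_pow (pow_pos (Fact.out : p.Prime).pos _).ne']
      exact hle_zero.mono (Nat.zero_le _)
  choose y hy1 hy2 using hpt
  have hev : ∀ᶠ n in (hyperfilter ℕ : Filter ℕ), (∃ i, y n i ≠ 0) ∧ ∑ i, y n i * b i n = 0 := by
    filter_upwards [hrel, hne0] with n e1 e2
    exact hy2 n ⟨e1, e2⟩
  refine ⟨fun i => gm fun n => algebraMap (RatFunc k) Ω (y n i) ^ p ^ ex n, ?_, ?_, ?_⟩
  · intro i
    refine ⟨⟨fun n => y n i ^ p ^ ex n, fun n => N * hs' n + p ^ ex n, fun n => hy1 n i, ?_, ?_⟩,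
      ⟨fun n => y n i, rfl⟩⟩
    · exact sm_add (sm_mul hH N (sm_sum hH _ _ fun i _ => hsm i)) hex
    · dsimp only
      congr 1
      funext n
      rw [map_pow]
  · by_contra hcon
    push Not at hcon
    have h1 : ∀ᶠ n in (hyperfilter ℕ : Filter ℕ), ∀ i, y n i = 0 := by
      rw [eventually_all]
      intro i
      have := hcon i
      rw [gm_eq_zero] at this
      filter_upwards [this] with n hn
      have h2 := (pow_eq_zero_iff (pow_pos (Fact.out : p.Prime).pos _).ne').1 hn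
      exact hinj (by rw [h2, map_zero])
    obtain ⟨n, hn1, ⟨i, hn2⟩, -⟩ := (h1.and hev).exists
    exact hn2 (hn1 i)
  · have h1 : ∑ i, gm (fun n => algebraMap (RatFunc k) Ω (y n i) ^ p ^ ex n) * c i =
        gm (fun n => ∑ i, algebraMap (RatFunc k) Ω (y n i) ^ p ^ ex n *
          algebraMap (RatFunc k) Ω (b i n) ^ p ^ ex n) := by
      have : (fun n => ∑ i, algebraMap (RatFunc k) Ω (y n i) ^ p ^ ex n *
          algebraMap (RatFunc k) Ω (b i n) ^ p ^ ex n) =
          ∑ i, (fun n => algebraMap (RatFunc k) Ω (y n i) ^ p ^ ex n) *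
            (fun n => algebraMap (RatFunc k) Ω (b i n) ^ p ^ ex n) := by
        funext n
        rw [Finset.sum_apply]
        rfl
      rw [this, map_sum]
      refine Finset.sum_congr rfl fun i _ => ?_
      rw [map_mul, hcb i]
    rw [h1, gm_eq_zero]
    filter_upwards [hev] with n hn
    have h2 : ∑ i, algebraMap (RatFunc k) Ω (y n i) ^ p ^ ex n *
          algebraMap (RatFunc k) Ω (b i n) ^ p ^ ex n =
        (∑ i, algebraMap (RatFunc k) Ω (y n i) * algebraMap (RatFunc k) Ω (b i n)) ^ p ^ ex n := by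
      rw [sum_pow_char_pow]
      exact Finset.sum_congr rfl fun i _ => (mul_pow _ _ _).symm
    rw [h2]
    have h3 : ∑ i, algebraMap (RatFunc k) Ω (y n i) * algebraMap (RatFunc k) Ω (b i n) = 0 := by
      rw [← map_zero (algebraMap (RatFunc k) Ω), ← hn.2, map_sum]
      exact Finset.sum_congr rfl fun i _ => (map_mul _ _ _).symm
    rw [h3, zero_pow (pow_pos (Fact.out : p.Prime).pos _).ne']

end LDult

end Pool.Agent.Helper34.Str
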