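import Pool.Agent.Helper34.Str.Poly

/-!
# Lemma V: Frobenius dependent equivariant additive maps
-/

set_option autoImplicit false
set_option linter.unusedSectionVars false
set_option linter.style.haveILetI false

namespace Pool.Agent.Helper34.Str

open Polynomial

section Ov

variable {E : Type*} [Field E] (E' : Subfield E)

/-- coefficients in the subfield -/
def Ov (P : E[X]) : Prop := P ∈ Polynomial.lifts E'.subtype

variable {E'}

theorem ov_C {a : E} (ha : a ∈ E') : Ov E' (C a) :=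
  C_mem_lifts E'.subtype ⟨a, ha⟩

theorem ov_X : Ov E' (X : E[X]) := X_mem_lifts _

theorem Ov.mul {P Q : E[X]} (hP : Ov E' P) (hQ : Ov E' Q) : Ov E' (P * Q) :=
  Subsemiring.mul_mem _ hP hQ

theorem Ov.add {P Q : E[X]} (hP : Ov E' P) (hQ : Ov E' Q) : Ov E' (P + Q) :=
  Subsemiring.add_mem _ hP hQ

theorem Ov.sub {P Q : E[X]} (hP : Ov E' P) (hQ : Ov E' Q) : Ov E' (P - Q) := by
  have : P - Q = P + C (-1) * Q := by
    rw [C_neg, C_1]; ring
  rw [this]
  exact hP.add ((ov_C (E'.neg_mem E'.one_mem)).mul hQ)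

theorem Ov.comp {P Q : E[X]} (hP : Ov E' P) (hQ : Ov E' Q) : Ov E' (P.comp Q) := by
  obtain ⟨P0, rfl⟩ := (mem_lifts _).1 hP
  obtain ⟨Q0, rfl⟩ := (mem_lifts _).1 hQ
  exact (mem_lifts _).2 ⟨P0.comp Q0, by rw [Polynomial.map_comp]⟩

theorem Ov.eval_mem {P : E[X]} (hP : Ov E' P) {x : E} (hx : x ∈ E') : P.eval x ∈ E' := by
  obtain ⟨P0, rfl⟩ := (mem_lifts _).1 hP
  have : eval x (map E'.subtype P0) = E'.subtype (P0.eval ⟨x, hx⟩) := by
    rw [eval_map, ← eval₂_at_apply]; rfl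
  rw [this]
  exact (P0.eval ⟨x, hx⟩).2

theorem Ov.iterate {P : E[X]} (hP : Ov E' P) (n : ℕ) : Ov E' (P.comp^[n] X) := by
  induction n with
  | zero => exact ov_X
  | succ n ih => rw [Function.iterate_succ_apply']; exact hP.comp ih

theorem eval_iter (P : E[X]) (n : ℕ) (x : E) :
    (P.comp^[n] X).eval x = (fun z => P.eval z)^[n] x := by
  rw [iterate_comp_eval, eval_X]

theorem iter_deg (P : E[X]) (n : ℕ) : (P.comp^[n] X).natDegree = P.natDegree ^ n := by
  rw [natDegree_iterate_comp, natDegree_X, mul_one]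

theorem iter_sub_deg (P : E[X]) (hP : 1 < P.natDegree) {i j : ℕ} (hij : i < j) :
    (P.comp^[j] X - P.comp^[i] X).natDegree = P.natDegree ^ j := by
  rw [natDegree_sub_eq_left_of_natDegree_lt, iter_deg]
  rw [iter_deg, iter_deg]
  exact Nat.pow_lt_pow_right hP hij

/-- interpolation -/
theorem ov_of_infinite (P : E[X]) (s : Set E) (hs : s.Infinite) (hsE : s ⊆ E')
    (h : ∀ x ∈ s, P.eval x ∈ E') : Ov E' P := by
  induction hn : P.natDegree generalizing P s with
  | zero =>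
    obtain ⟨x, hx⟩ := hs.nonempty
    rw [eq_C_of_natDegree_eq_zero hn] at h ⊢
    have := h x hx
    rw [eval_C] at this
    exact ov_C this
  | succ n ih =>
    obtain ⟨a, ha⟩ := hs.nonempty
    have h1 := modByMonic_add_div P (X - C a)
    rw [modByMonic_X_sub_C_eq_C_eval] at h1
    have h2 : Ov E' (P /ₘ (X - C a)) := by
      refine ih _ (s \ {a}) (hs.diff (Set.finite_singleton a))
        (Set.diff_subset.trans hsE) ?_ ?_
      · intro x hx
        have h3 := congrArg (eval x) h1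
        rw [eval_add, eval_C, eval_mul, eval_sub, eval_X, eval_C] at h3
        have hxa : x - a ≠ 0 := sub_ne_zero.2 hx.2
        have h4 : (P /ₘ (X - C a)).eval x = (P.eval x - P.eval a) / (x - a) := by
          rw [eq_div_iff hxa, ← h3]; ring
        rw [h4]
        exact E'.div_mem (E'.sub_mem (h x hx.1) (h a ha)) (E'.sub_mem (hsE hx.1) (hsE ha))
      · rw [natDegree_divByMonic _ (monic_X_sub_C a), natDegree_X_sub_C, hn]
        omega
    rw [← h1]
    exact (ov_C (h a ha)).add ((ov_X.sub (ov_C (hsE ha))).mul h2)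

theorem root_mem (hac : ∀ x : E, IsAlgebraic E' x → x ∈ E') {P : E[X]} (hP : Ov E' P)
    (hd : 0 < P.natDegree) {x : E} (hx : P.eval x ∈ E') : x ∈ E' := by
  apply hac
  obtain ⟨Q, hQ⟩ := (mem_lifts _).1 (hP.sub (ov_C hx))
  refine ⟨Q, ?_, ?_⟩
  · rintro rfl
    rw [Polynomial.map_zero] at hQ
    have := congrArg natDegree hQ
    rw [natDegree_zero, natDegree_sub_C] at this
    omega
  · rw [aeval_def, eval₂_eq_eval_map]
    have : algebraMap E' E = E'.subtype := rfl
    rw [this, hQ, eval_sub, eval_C, sub_self]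

theorem infinite_image {P : E[X]} (hd : 0 < P.natDegree) {s : Set E} (hs : s.Infinite) :
    (P.eval '' s).Infinite := by
  intro hfin
  apply hs
  have : s ⊆ ⋃ y ∈ P.eval '' s, {x | P.eval x = y} := by
    intro x hx
    simp only [Set.mem_iUnion]
    exact ⟨P.eval x, ⟨x, hx, rfl⟩, rfl⟩
  refine Set.Finite.subset (Set.Finite.biUnion hfin fun y _ => ?_) this
  classical
  have hne : P - C y ≠ 0 := by
    intro h
    have := congrArg natDegree h
    rw [natDegree_zero, natDegree_sub_C] at this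
    omega
  refine (P - C y).roots.toFinset.finite_toSet.subset fun x hx => ?_
  rw [Finset.mem_coe, Multiset.mem_toFinset, mem_roots hne, IsRoot.def, eval_sub, eval_C, hx,
    sub_self]

/-- preperiodic points of a polynomial over `E'` lie in `E'` -/
theorem ker_mem (hac : ∀ x : E, IsAlgebraic E' x → x ∈ E') {A F : E[X]} (hA : A ≠ 0)
    (hF : Ov E' F) (hd : 1 < F.natDegree) (hst : ∀ x, A.eval x = 0 → A.eval (F.eval x) = 0)
    {x : E} (hx : A.eval x = 0) : x ∈ E' := by
  classical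
  have h1 : ∀ n, (fun z => F.eval z)^[n] x ∈ A.roots.toFinset := by
    intro n
    rw [Multiset.mem_toFinset, mem_roots hA, IsRoot.def]
    induction n with
    | zero => exact hx
    | succ n ih => rw [Function.iterate_succ_apply']; exact hst _ ih
  obtain ⟨i, j, hij, he⟩ := Finite.exists_ne_map_eq_of_infinite
    (fun n => (⟨_, h1 n⟩ : A.roots.toFinset))
  have he' : (fun z => F.eval z)^[i] x = (fun z => F.eval z)^[j] x := congrArg Subtype.val he
  wlog hlt : i < j generalizing i j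
  · exact this j i hij.symm he.symm he'.symm (lt_of_le_of_ne (not_lt.1 hlt) hij.symm)
  refine root_mem hac ((hF.iterate j).sub (hF.iterate i)) ?_ (x := x) ?_
  · rw [iter_sub_deg F hd hlt]
    exact pow_pos (by omega) _
  · rw [eval_sub, eval_iter, eval_iter, he', sub_self]
    exact E'.zero_mem

theorem split_ov [IsAlgClosed E] {A : E[X]} (h : ∀ x, A.eval x = 0 → x ∈ E') :
    ∃ A1 : E[X], Ov E' A1 ∧ A = C A.leadingCoeff * A1 := by
  by_cases hA : A = 0
  · exact ⟨X, ov_X, by rw [hA]; simp⟩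
  refine ⟨(A.roots.map fun a => X - C a).prod, ?_, (IsAlgClosed.splits A).eq_prod_roots⟩
  refine Submonoid.multiset_prod_mem (Polynomial.lifts E'.subtype).toSubmonoid _ fun P hP => ?_
  obtain ⟨a, ha, rfl⟩ := Multiset.mem_map.1 hP
  rw [mem_roots hA, IsRoot.def] at ha
  exact ov_X.sub (ov_C (h a ha))

end Ov

section V

variable (p : ℕ) [hp : Fact p.Prime] {E W : Type*} [Field E] [CharP E p] [IsAlgClosed E]
  [AddCommGroup W] [Infinite W]

theorem AddP.iterate {F : E[X]} (hF : AddP p F) (n : ℕ) : AddP p (F.comp^[n] X) := by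
  induction n with
  | zero => exact addP_X
  | succ n ih => rw [Function.iterate_succ_apply']; exact hF.comp ih

theorem lemmaV {E' : Subfield E} (hac : ∀ x : E, IsAlgebraic E' x → x ∈ E')
    (l l' : W →+ E) (hl : Function.Injective l) (hl' : Function.Injective l') (f : W → W)
    {F F' : E[X]} (hF : AddP p F) (hF' : AddP p F') (hFd : 1 < F.natDegree)
    (hFd' : 1 < F'.natDegree)
    (hlf : ∀ w, l (f w) = F.eval (l w)) (hlf' : ∀ w, l' (f w) = F'.eval (l' w))
    (hF'o : Ov E' F') (hl'o : ∀ w, l' w ∈ E')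
    (hex : ∃ α β : E[X], AddP p α ∧ AddP p β ∧ β ≠ 0 ∧ ∀ w, α.eval (l' w) = β.eval (l w)) :
    ∃ c : E, c ≠ 0 ∧ ∀ w, ∃ y ∈ E', l w = c * y := by
  classical
  have hpp := (Fact.out : p.Prime)
  have hlinf : (Set.range l).Infinite := Set.infinite_range_of_injective hl
  have hlinf' : (Set.range l').Infinite := Set.infinite_range_of_injective hl'
  -- minimal pair
  obtain ⟨α, β, hα, hβ, hβ0, hrel, hmin⟩ : ∃ α β : E[X], AddP p α ∧ AddP p β ∧ β ≠ 0 ∧
      (∀ w, α.eval (l' w) = β.eval (l w)) ∧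
      ∀ α' β' : E[X], AddP p α' → AddP p β' → (∀ w, α'.eval (l' w) = β'.eval (l w)) →
        β'.natDegree < β.natDegree → β' = 0 := by
    let S : Set ℕ := {n | ∃ α β : E[X], AddP p α ∧ AddP p β ∧ β ≠ 0 ∧
      (∀ w, α.eval (l' w) = β.eval (l w)) ∧ β.natDegree = n}
    have hS : S.Nonempty := by
      obtain ⟨α, β, h1, h2, h3, h4⟩ := hex
      exact ⟨_, α, β, h1, h2, h3, h4, rfl⟩
    obtain ⟨α, β, h1, h2, h3, h4, h5⟩ := Nat.sInf_mem hS
    refine ⟨α, β, h1, h2, h3, h4, fun α' β' h1' h2' h3' h4' => ?_⟩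
    by_contra hne
    have := Nat.sInf_le (s := S) ⟨α', β', h1', h2', hne, h3', rfl⟩
    omega
  have hβd := hβ.deg_pos hβ0
  have hα0 : α ≠ 0 := by
    intro h
    have := infinite_image hβd hlinf
    refine this ((Set.finite_singleton (0 : E)).subset ?_)
    rintro _ ⟨_, ⟨w, rfl⟩, rfl⟩
    change β.eval (l w) ∈ _
    rw [← hrel, h, eval_zero]; rfl
  have hαd := hα.deg_pos hα0
  -- step 2
  obtain ⟨G, ρ, hG, hρ, hdiv, hρd⟩ := AddP.exists_div β hβ hβ0 (β.comp F) (hβ.comp hF)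
  have hρ0 : ρ = 0 := by
    rcases hρd with h | h
    · exact h
    · refine hmin (α.comp F' - G.comp α) ρ ((hα.comp hF').sub (hG.comp hα)) hρ ?_ h
      intro w
      have h1 := congrArg (eval (l w)) hdiv
      rw [eval_comp, eval_add, eval_comp, ← hlf, ← hrel, ← hrel, hlf'] at h1
      rw [eval_sub, eval_comp, eval_comp, h1]; ring
  rw [hρ0, add_zero] at hdiv
  have hβF : ∀ x, β.eval (F.eval x) = G.eval (β.eval x) := by
    intro x
    rw [← eval_comp, hdiv, eval_comp]
  have hαF : ∀ x, α.eval (F'.eval x) = G.eval (α.eval x) := by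
    have h1 : α.comp F' = G.comp α := by
      refine eval_injOn_of_infinite _ hlinf' ?_
      rintro _ ⟨w, rfl⟩
      rw [eval_comp, eval_comp, ← hlf', hrel, hrel, hlf, hβF]
    intro x
    rw [← eval_comp, h1, eval_comp]
  -- step 3, 4
  have hkerα : ∀ x, α.eval x = 0 → x ∈ E' := by
    intro x hx
    refine ker_mem hac hα0 hF'o hFd' ?_ hx
    intro y hy
    rw [hαF, hy, hG.ev_zero]
  obtain ⟨α1, hα1, hαe⟩ := split_ov hkerα
  set c1 := α.leadingCoeff with hc1
  have hc10 : c1 ≠ 0 := leadingCoeff_ne_zero.2 hα0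
  have hα1d : 0 < α1.natDegree := by
    rw [hαe, natDegree_C_mul hc10] at hαd
    exact hαd
  have hα1e : ∀ x, α1.eval x = c1⁻¹ * α.eval x := by
    intro x
    conv_rhs => rw [hαe]
    rw [eval_mul, eval_C, inv_mul_cancel_left₀ hc10]
  -- step 5
  set G' : E[X] := C c1⁻¹ * G.comp (C c1 * X) with hG'
  have hG'e : ∀ x, G'.eval x = c1⁻¹ * G.eval (c1 * x) := by
    intro x
    rw [hG', eval_mul, eval_C, eval_comp, eval_mul, eval_C, eval_X]
  have hG'o : Ov E' G' := by
    refine ov_of_infinite G' (α1.eval '' Set.range l') (infinite_image hα1d hlinf') ?_ ?_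
    · rintro _ ⟨_, ⟨w, rfl⟩, rfl⟩
      exact hα1.eval_mem (hl'o w)
    · rintro _ ⟨_, ⟨w, rfl⟩, rfl⟩
      have : G'.eval (α1.eval (l' w)) = α1.eval (F'.eval (l' w)) := by
        rw [hG'e, hα1e, hα1e, mul_inv_cancel_left₀ hc10, hαF]
      rw [this]
      exact hα1.eval_mem (hF'o.eval_mem (hl'o w))
  have hG'd : 1 < G'.natDegree := by
    have h1 : G'.natDegree = G.natDegree := by
      rw [hG', natDegree_C_mul (inv_ne_zero hc10), natDegree_comp, natDegree_C_mul hc10,
        natDegree_X, mul_one]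
    have h2 := congrArg natDegree hdiv
    rw [natDegree_comp, natDegree_comp, mul_comm] at h2
    have h3 := Nat.eq_of_mul_eq_mul_right hβd h2
    rw [h1, ← h3]
    exact hFd
  -- step 6
  set β1 : E[X] := C c1⁻¹ * β with hβ1
  have hβ1a : AddP p β1 := hβ.C_mul _
  have hβ10 : β1 ≠ 0 := mul_ne_zero (C_ne_zero.2 (inv_ne_zero hc10)) hβ0
  have hβ1d := hβ1a.deg_pos hβ10
  have hβ1e : ∀ x, β1.eval x = c1⁻¹ * β.eval x := by
    intro x; rw [hβ1, eval_mul, eval_C]
  have hβ1o : ∀ w, β1.eval (l w) ∈ E' := by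
    intro w
    rw [hβ1e, ← hrel, ← hα1e]
    exact hα1.eval_mem (hl'o w)
  have hβ1F : ∀ x, β1.eval (F.eval x) = G'.eval (β1.eval x) := by
    intro x
    rw [hβ1e, hβ1e, hG'e, mul_inv_cancel_left₀ hc10, hβF]
  -- step 7
  have hG0 : G.eval 0 = 0 := hG.ev_zero
  have hst : ∀ x, β1.eval x = 0 → β1.eval (F.eval x) = 0 := by
    intro x hx
    rw [hβ1F, hx, hG'e, mul_zero, hG0, mul_zero]
  obtain ⟨i, j, hij, hper⟩ : ∃ i j : ℕ, i < j ∧ ∀ x, β1.eval x = 0 →
      (fun z => F.eval z)^[i] x = (fun z => F.eval z)^[j] x := by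
    let R := {x // x ∈ β1.roots.toFinset}
    have hR : ∀ x, x ∈ β1.roots.toFinset ↔ β1.eval x = 0 := by
      intro x
      rw [Multiset.mem_toFinset, mem_roots hβ10, IsRoot.def]
    let g : ℕ → (R → R) := fun n x => ⟨(fun z => F.eval z)^[n] x, by
      rw [hR]
      induction n with
      | zero => exact (hR _).1 x.2
      | succ n ih => rw [Function.iterate_succ_apply']; exact hst _ ih⟩
    obtain ⟨i, j, hij, he⟩ := Finite.exists_ne_map_eq_of_infinite g
    have he' : ∀ x, β1.eval x = 0 → (fun z => F.eval z)^[i] x = (fun z => F.eval z)^[j] x := by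
      intro x hx
      exact congrArg Subtype.val (congrFun he ⟨x, (hR x).2 hx⟩)
    rcases lt_or_gt_of_ne hij with h | h
    · exact ⟨i, j, h, he'⟩
    · exact ⟨j, i, h, fun x hx => (he' x hx).symm⟩
  set Δ : E[X] := F.comp^[j] X - F.comp^[i] X with hΔ
  have hΔa : AddP p Δ := (hF.iterate p j).sub (hF.iterate p i)
  have hΔe : ∀ x, Δ.eval x = (fun z => F.eval z)^[j] x - (fun z => F.eval z)^[i] x := by
    intro x; rw [hΔ, eval_sub, eval_iter, eval_iter]
  have hΔd : 0 < Δ.natDegree := by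
    rw [hΔ, iter_sub_deg F hFd hij]
    exact pow_pos (by omega) _
  have hΔ0 : Δ ≠ 0 := by
    rintro h; rw [h, natDegree_zero] at hΔd; omega
  have hΔF : ∀ x, Δ.eval (F.eval x) = F.eval (Δ.eval x) := by
    intro x
    rw [hΔe, hΔe, hF.ev_sub, ← Function.iterate_succ_apply, ← Function.iterate_succ_apply,
      Function.iterate_succ_apply', Function.iterate_succ_apply']
  obtain ⟨e, he⟩ : ∃ e, β1.natDegree ≤ p ^ e := ⟨_, (Nat.lt_pow_self hpp.one_lt).le⟩
  have hq : p ^ e ≠ 0 := (pow_pos hpp.pos e).ne'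
  have hdvd : β1 ∣ Δ ^ p ^ e := by
    refine (IsAlgClosed.splits β1).dvd_of_roots_le_roots hβ10 ?_
    rw [Multiset.le_iff_count]
    intro a
    by_cases ha : a ∈ β1.roots
    · have h1 : a ∈ Δ.roots := by
        rw [mem_roots hΔ0, IsRoot.def, hΔe, hper a ((mem_roots hβ10).1 ha), sub_self]
      rw [roots_pow, Multiset.count_nsmul]
      have h2 : 1 ≤ Multiset.count a Δ.roots := Multiset.one_le_count_iff_mem.2 h1
      have h3 : Multiset.count a β1.roots ≤ β1.natDegree :=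
        (Multiset.count_le_card _ _).trans (card_roots' _)
      nlinarith
    · rw [Multiset.count_eq_zero_of_notMem ha]
      exact Nat.zero_le _
  obtain ⟨γ, ρ', hγ, hρ', hdiv', hρd'⟩ := AddP.exists_div β1 hβ1a hβ10 (Δ ^ p ^ e)
    (hΔa.pow_pow e)
  have hρ0' : ρ' = 0 := by
    rcases hρd' with h | h
    · exact h
    · refine eq_zero_of_dvd_of_natDegree_lt ?_ h
      have h1 : β1 ∣ γ.comp β1 := by
        obtain ⟨γ', hγ'⟩ := X_dvd_iff.2 (show γ.coeff 0 = 0 by
          rw [coeff_zero_eq_eval_zero, hγ.ev_zero])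
        rw [hγ', mul_comp, X_comp]
        exact dvd_mul_right _ _
      have h2 : ρ' = Δ ^ p ^ e - γ.comp β1 := by rw [hdiv']; ring
      rw [h2]
      exact dvd_sub hdvd h1
  rw [hρ0', add_zero] at hdiv'
  have hγe : ∀ x, (Δ.eval x) ^ p ^ e = γ.eval (β1.eval x) := by
    intro x
    rw [← eval_pow, hdiv', eval_comp]
  have hγ0 : γ ≠ 0 := by
    rintro h
    rw [h, zero_comp] at hdiv'
    exact hΔ0 (pow_eq_zero_iff hq |>.1 hdiv')
  -- step 8
  have hsurj : ∀ x, ∃ z, β1.eval z = x := by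
    intro x
    obtain ⟨z, hz⟩ := IsAlgClosed.exists_root (β1 - C x) (by
      rw [degree_sub_C (natDegree_pos_iff_degree_pos.1 hβ1d)]
      exact (natDegree_pos_iff_degree_pos.1 hβ1d).ne')
    refine ⟨z, ?_⟩
    rw [IsRoot.def, eval_sub, eval_C] at hz
    exact sub_eq_zero.1 hz
  have hkerγ : ∀ x, γ.eval x = 0 → x ∈ E' := by
    intro x hx
    refine ker_mem hac hγ0 hG'o hG'd ?_ hx
    intro y hy
    obtain ⟨z, rfl⟩ := hsurj y
    rw [← hγe] at hy
    have h1 : Δ.eval z = 0 := (pow_eq_zero_iff hq).1 hy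
    rw [← hβ1F, ← hγe, hΔF, h1, hF.ev_zero, zero_pow hq]
  obtain ⟨γ1, hγ1, hγe1⟩ := split_ov hkerγ
  obtain ⟨c3, hc3⟩ := IsAlgClosed.exists_pow_nat_eq γ.leadingCoeff (Nat.pos_of_ne_zero hq)
  have hc30 : c3 ≠ 0 := by
    rintro rfl
    rw [zero_pow hq] at hc3
    exact hγ0 (leadingCoeff_eq_zero.1 hc3.symm)
  have hΔl : ∀ w, c3⁻¹ * Δ.eval (l w) ∈ E' := by
    intro w
    refine root_mem hac (P := X ^ p ^ e) ?_ ?_ ?_
    · exact Subsemiring.pow_mem _ ov_X _
    · rw [natDegree_X_pow]; exact Nat.pos_of_ne_zero hq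
    · rw [eval_pow, eval_X, mul_pow, hγe, inv_pow, hc3]
      have h1 : γ.eval (β1.eval (l w)) = γ.leadingCoeff * γ1.eval (β1.eval (l w)) := by
        conv_lhs => rw [hγe1]
        rw [eval_mul, eval_C]
      rw [h1, inv_mul_cancel_left₀ (leadingCoeff_ne_zero.2 hγ0)]
      exact hγ1.eval_mem (hβ1o w)
  -- step 9
  set F2 : E[X] := C c3⁻¹ * F.comp (C c3 * X) with hF2
  have hF2e : ∀ x, F2.eval x = c3⁻¹ * F.eval (c3 * x) := by
    intro x
    rw [hF2, eval_mul, eval_C, eval_comp, eval_mul, eval_C, eval_X]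
  have hF2d : 1 < F2.natDegree := by
    rw [hF2, natDegree_C_mul (inv_ne_zero hc30), natDegree_comp, natDegree_C_mul hc30,
        natDegree_X, mul_one]
    exact hFd
  have hF2o : Ov E' F2 := by
    refine ov_of_infinite F2 ((C c3⁻¹ * Δ).eval '' Set.range l) (infinite_image ?_ hlinf) ?_ ?_
    · rw [natDegree_C_mul (inv_ne_zero hc30)]; exact hΔd
    · rintro _ ⟨_, ⟨w, rfl⟩, rfl⟩
      dsimp only
      rw [eval_mul, eval_C]
      exact hΔl w
    · rintro _ ⟨_, ⟨w, rfl⟩, rfl⟩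
      change F2.eval ((C c3⁻¹ * Δ).eval (l w)) ∈ E'
      rw [hF2e, eval_mul, eval_C, mul_inv_cancel_left₀ hc30, ← hΔF, ← hlf]
      exact hΔl (f w)
  have hiter : ∀ n x, (fun z => F2.eval z)^[n] x = c3⁻¹ * (fun z => F.eval z)^[n] (c3 * x) := by
    intro n x
    induction n with
    | zero => simp [inv_mul_cancel_left₀ hc30]
    | succ n ih =>
      rw [Function.iterate_succ_apply', Function.iterate_succ_apply', ih, hF2e,
        mul_inv_cancel_left₀ hc30]
  refine ⟨c3, hc30, fun w => ⟨c3⁻¹ * l w, ?_, by rw [mul_inv_cancel_left₀ hc30]⟩⟩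
  refine root_mem hac ((hF2o.iterate j).sub (hF2o.iterate i)) ?_ ?_
  · rw [iter_sub_deg F2 hF2d hij]
    exact pow_pos (by omega) _
  · rw [eval_sub, eval_iter, eval_iter, hiter, hiter, mul_inv_cancel_left₀ hc30, ← mul_sub, ← hΔe]
    exact hΔl w

end V

end Pool.Agent.Helper34.Str
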