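import Pool.Agent.Helper34.Str.U
import Pool.Agent.Helper34.Str.Four

/-!
# Theorem Z
-/

set_option autoImplicit false
set_option linter.unusedSectionVars false
set_option linter.style.haveILetI false

namespace Pool.Agent.Helper34.Str

universe u

theorem thmZ (p : ℕ) [hp : Fact p.Prime] {E : Type u} [Field E] [CharP E p] [IsAlgClosed E]
    {K0 C : Subfield E} (hLD : LD K0 C) {W : Type*} [AddCommGroup W] [Infinite W] (f : W → W)
    (e1 : W) {ι : Type*} [Fintype ι] (l : ι → (W →+ E)) (hinj : ∀ s, Function.Injective (l s))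
    (F : ι → Polynomial E) (hF : ∀ s, AddP p (F s)) (hFd : ∀ s, 1 < (F s).natDegree)
    (hlf : ∀ s w, l s (f w) = (F s).eval (l s w)) (h1 : ∀ s, l s e1 = 1) (m : ℕ)
    (hprod : ∀ w, ∃ a ∈ K0, ∃ c ∈ C, (∏ s, l s w) ^ p ^ m = a * c) (s0 : ι) :
    (∀ w, IsAlgebraic K0 (l s0 w)) ∨ (∀ w, IsAlgebraic C (l s0 w)) := by
  classical
  obtain ⟨E2, _, _, i1, i2, i3, i4, h12, h34, h13, h24, hK0, E', hE', hE'3, hC⟩ := four hLD
  haveI : CharP E2 p := charP_of_injective_ringHom i1.injective p
  let Xf : ι ⊕ ι → (W →+ E2) := Sum.elim (fun s => i1.toAddMonoidHom.comp (l s))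
    (fun s => i4.toAddMonoidHom.comp (l s))
  let Yf : ι ⊕ ι → (W →+ E2) := Sum.elim (fun s => i2.toAddMonoidHom.comp (l s))
    (fun s => i3.toAddMonoidHom.comp (l s))
  have hXY : ∀ w, ∏ i, Xf i w = ∏ j, Yf j w := by
    intro w
    have e1 : ∏ i, Xf i w = i1 (∏ s, l s w) * i4 (∏ s, l s w) := by
      rw [Fintype.prod_sum_type, map_prod, map_prod]; rfl
    have e2 : ∏ i, Yf i w = i2 (∏ s, l s w) * i3 (∏ s, l s w) := by
      rw [Fintype.prod_sum_type, map_prod, map_prod]; rfl
    rw [e1, e2]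
    apply iterateFrobenius_inj E2 p m
    rw [iterateFrobenius_def, iterateFrobenius_def, mul_pow, mul_pow, ← map_pow, ← map_pow,
      ← map_pow, ← map_pow]
    obtain ⟨a, ha, c, hc, h⟩ := hprod w
    rw [h, map_mul, map_mul, map_mul, map_mul, h12 a ha, h13 c hc, ← h34 a ha, ← h24 c hc]
    ring
  have hXinj : Function.Injective (Xf (Sum.inl s0)) := i1.injective.comp (hinj s0)
  obtain ⟨j, α, β, hα, hβ, hα0, hrel⟩ := lemmaU p Xf Yf hXY (Sum.inl s0)
    (Set.infinite_range_of_injective hXinj)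
  have hYinj : Function.Injective (Yf j) := by
    cases j with
    | inl s => exact i2.injective.comp (hinj s)
    | inr s => exact i3.injective.comp (hinj s)
  have hβ0 : β ≠ 0 := by
    rintro rfl
    refine infinite_image (hα.deg_pos hα0) (Set.infinite_range_of_injective hYinj)
      ((Set.finite_singleton (0 : E2)).subset ?_)
    rintro _ ⟨_, ⟨w, rfl⟩, rfl⟩
    change α.eval (Yf j w) ∈ _
    rw [hrel, Polynomial.eval_zero]; rfl
  have hmapd : ∀ (i : E →+* E2) s, 1 < ((F s).map i).natDegree := fun i s => by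
    rw [Polynomial.natDegree_map]; exact hFd s
  have hmapf : ∀ (i : E →+* E2) s w, i (l s (f w)) = ((F s).map i).eval (i (l s w)) := by
    intro i s w
    rw [hlf, Polynomial.eval_map, Polynomial.eval₂_at_apply]
  have fin : ∀ (E'' : Subfield E2) (hE'' : IsAlgClosed E'') (i : E →+* E2) (s : ι)
      (hi : ∀ x, i x ∈ E'') (hj : ∀ w, Yf j w = i (l s w)),
      ∀ w, i1 (l s0 w) ∈ E'' := by
    intro E'' hE'' i s hi hj
    obtain ⟨c, hc, h⟩ := lemmaV p (E' := E'') (fun x hx => mem_of_alg hE'' hx)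
      (i1.toAddMonoidHom.comp (l s0)) (i.toAddMonoidHom.comp (l s)) (i1.injective.comp (hinj s0))
      (i.injective.comp (hinj s)) f ((hF s0).mp i1) ((hF s).mp i) (hmapd _ _) (hmapd _ _)
      (fun w => hmapf i1 s0 w) (fun w => hmapf i s w)
      (ov_iff.2 fun n => by rw [Polynomial.coeff_map]; exact hi _) (fun w => hi _)
      ⟨α, β, hα, hβ, hβ0, fun w => by
        have := hrel w
        rw [hj w] at this
        exact this⟩
    have hc' : c ∈ E'' := by
      obtain ⟨y, hy, hy'⟩ := h e1
      have h2 : (1 : E2) = c * y := by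
        rw [← hy']
        change (1 : E2) = i1 (l s0 e1)
        rw [h1, map_one]
      have h3 : c = y⁻¹ := by
        have hy0 : y ≠ 0 := by
          rintro rfl
          rw [mul_zero] at h2
          exact one_ne_zero h2
        field_simp
        exact h2.symm
      rw [h3]
      exact E''.inv_mem hy
    intro w
    obtain ⟨y, hy, hy'⟩ := h w
    change i1 (l s0 w) = c * y at hy'
    rw [hy']
    exact E''.mul_mem hc' hy
  cases j with
  | inl s =>
    left
    intro w
    obtain ⟨y, hy⟩ := fin i2.fieldRange (fieldRange_algClosed i2) i2 s (fun x => ⟨x, rfl⟩)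
      (fun w => rfl) w
    exact hK0 _ y hy.symm
  | inr s =>
    right
    intro w
    exact hC _ (fin E' hE' i3 s hE'3 (fun w => rfl) w)

end Pool.Agent.Helper34.Str
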